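import Pool.Agent.Helper613.DHDefs

set_option autoImplicit false

/-!
# Definitions: reflection groups of hyperbolic space, maximality, quasi-arithmeticity

Hyperbolic space `ℍⁿ` is the upper sheet `Hyp n` of the hyperboloid `mink x x = -1` in `ℝⁿ⁺¹`, and
`Isom(ℍⁿ)` is the group of invertible matrices satisfying `IsIsomHyp n` (the group `O⁺(n,1)`).
-/

namespace Pool.Agent.H851R2

open Matrix MeasureTheory
open Pool.Agent.Helper613.DH (mink Hyp IsIsomHyp)

/-- `A` is the reflection of `ℍⁿ` in the hyperplane `{x ∈ ℍⁿ | mink x e = 0}`, where `e` is a unit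
normal vector. -/
def IsReflection (n : ℕ) (A : Matrix.GeneralLinearGroup (Fin (n + 1)) ℝ) : Prop :=
  ∃ e : Fin (n + 1) → ℝ, mink e e = 1 ∧
    ∀ x : Fin (n + 1) → ℝ, A.1 *ᵥ x = x - (2 * mink x e) • e

/-- The hyperbolic volume of a set `D ⊆ ℍⁿ`: it is `n + 1` times the Lebesgue measure of the cone
`{r • x | x ∈ D, 0 < r ≤ 1}` over `D` with apex the origin. -/
noncomputable def hypVol (n : ℕ) (D : Set (Fin (n + 1) → ℝ)) : ENNReal :=
  (n + 1) * volume {v : Fin (n + 1) → ℝ | ∃ x ∈ D, ∃ r : ℝ, 0 < r ∧ r ≤ 1 ∧ v = r • x}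

/-- `Γ` is a (hyperbolic) reflection group in `Isom(ℍⁿ)`: a discrete group of isometries of `ℍⁿ`
which has finite covolume and is generated by reflections in hyperplanes. -/
structure IsReflectionGroup (n : ℕ) (Γ : Subgroup (Matrix.GeneralLinearGroup (Fin (n + 1)) ℝ)) :
    Prop where
  /-- the elements are isometries of hyperbolic space -/
  isom : ∀ A ∈ Γ, IsIsomHyp n A
  /-- the group is discrete (the topology is that of the space of matrices) -/
  discrete : DiscreteTopology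
    ↥((fun A : Matrix.GeneralLinearGroup (Fin (n + 1)) ℝ => A.1) ''
      (Γ : Set (Matrix.GeneralLinearGroup (Fin (n + 1)) ℝ)))
  /-- some measurable set of finite hyperbolic volume meets all orbits in `ℍⁿ` -/
  covol : ∃ D : Set (Fin (n + 1) → ℝ), D ⊆ Hyp n ∧ MeasurableSet D ∧ hypVol n D < ⊤ ∧
    ∀ x ∈ Hyp n, ∃ A ∈ Γ, A.1 *ᵥ x ∈ D
  /-- the group is generated by the reflections it contains -/
  gen : Subgroup.closure {A | A ∈ Γ ∧ IsReflection n A} = Γ

/-- `Γ` is a maximal reflection group in `Isom(ℍⁿ)`: it is a reflection group that is not properly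
contained in another reflection group in `Isom(ℍⁿ)`. -/
def IsMaximalReflectionGroup (n : ℕ)
    (Γ : Subgroup (Matrix.GeneralLinearGroup (Fin (n + 1)) ℝ)) : Prop :=
  IsReflectionGroup n Γ ∧
    ∀ Γ' : Subgroup (Matrix.GeneralLinearGroup (Fin (n + 1)) ℝ),
      IsReflectionGroup n Γ' → Γ ≤ Γ' → Γ' = Γ

/-- `Γ` is quasi-arithmetic (Vinberg): there are a totally real number field `K` (with a chosen
embedding `ι` in `ℝ`) and a quadratic form in `n + 1` variables over `K`, with symmetric matrix `f`,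
which is isometric over `ℝ` (through `ι` and the linear isomorphism `T`) to the form of signature
`(n,1)` defining `ℍⁿ`, which is positive definite at every other real embedding of `K`, and such
that `T` conjugates `Γ` into `PO(f,K)`. -/
def IsQuasiArithmetic (n : ℕ)
    (Γ : Subgroup (Matrix.GeneralLinearGroup (Fin (n + 1)) ℝ)) : Prop :=
  ∃ (K : Type) (_ : Field K) (_ : NumberField K) (_ : NumberField.IsTotallyReal K) (ι : K →+* ℝ)
    (f : Matrix (Fin (n + 1)) (Fin (n + 1)) K)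
    (T : Matrix.GeneralLinearGroup (Fin (n + 1)) ℝ),
    fᵀ = f ∧
    (∀ σ : K →+* ℝ, σ ≠ ι → (f.map σ).PosDef) ∧
    (∀ x y : Fin (n + 1) → ℝ, (T.1 *ᵥ x) ⬝ᵥ ((f.map ι) *ᵥ (T.1 *ᵥ y)) = mink x y) ∧
    ∀ A ∈ Γ, ∃ B : Matrix (Fin (n + 1)) (Fin (n + 1)) K, Bᵀ * f * B = f ∧
      ((T * A * T⁻¹).1 = B.map ι ∨ (T * A * T⁻¹).1 = -(B.map ι))

/-- The subgroups `Γ` and `Γ'` are conjugate in `Isom(ℍⁿ)`. -/
def AreConjugate (n : ℕ) (Γ Γ' : Subgroup (Matrix.GeneralLinearGroup (Fin (n + 1)) ℝ)) : Prop :=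
  ∃ g : Matrix.GeneralLinearGroup (Fin (n + 1)) ℝ, IsIsomHyp n g ∧
    ∀ A : Matrix.GeneralLinearGroup (Fin (n + 1)) ℝ, A ∈ Γ ↔ g * A * g⁻¹ ∈ Γ'

end Pool.Agent.H851R2
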