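import Pool.Agent.Helper613.DHMink
import Pool.Agent.H851R2.QDefs

set_option autoImplicit false

namespace Pool.Agent.H851R2

open Matrix
open Pool.Agent.Helper613.DH

/-- abbreviation for the general linear group -/
abbrev GG (n : ℕ) := Matrix.GeneralLinearGroup (Fin (n + 1)) ℝ

variable {n : ℕ}

/-- the action on vectors -/
def ac (A : GG n) (x : Fin (n + 1) → ℝ) : Fin (n + 1) → ℝ := A.1 *ᵥ x

lemma ac_def (A : GG n) (x : Fin (n + 1) → ℝ) : ac A x = A.1 *ᵥ x := rfl

lemma ac_mul (A B : GG n) (x : Fin (n + 1) → ℝ) : ac (A * B) x = ac A (ac B x) := by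
  unfold ac; rw [Matrix.mulVec_mulVec]; rfl

lemma ac_one (x : Fin (n + 1) → ℝ) : ac (1 : GG n) x = x := by
  unfold ac; exact Matrix.one_mulVec x

lemma ac_add (A : GG n) (x y : Fin (n + 1) → ℝ) : ac A (x + y) = ac A x + ac A y :=
  Matrix.mulVec_add _ _ _

lemma ac_sub (A : GG n) (x y : Fin (n + 1) → ℝ) : ac A (x - y) = ac A x - ac A y :=
  Matrix.mulVec_sub _ _ _

lemma ac_smul (A : GG n) (r : ℝ) (x : Fin (n + 1) → ℝ) : ac A (r • x) = r • ac A x :=
  Matrix.mulVec_smul _ _ _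

lemma ac_neg (A : GG n) (x : Fin (n + 1) → ℝ) : ac A (-x) = - ac A x :=
  Matrix.mulVec_neg _ _

lemma ac_inv_ac (A : GG n) (x : Fin (n + 1) → ℝ) : ac A⁻¹ (ac A x) = x := by
  rw [← ac_mul, inv_mul_cancel, ac_one]

lemma ac_ac_inv (A : GG n) (x : Fin (n + 1) → ℝ) : ac A (ac A⁻¹ x) = x := by
  rw [← ac_mul, mul_inv_cancel, ac_one]

lemma GG_ext {A B : GG n} (h : ∀ x : Fin (n + 1) → ℝ, ac A x = ac B x) : A = B := by
  apply Units.ext
  exact Matrix.ext_of_mulVec_single (fun i => h _)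

lemma iso_mink {A : GG n} (h : IsIsomHyp n A) (x y : Fin (n + 1) → ℝ) :
    mink (ac A x) (ac A y) = mink x y := h.1 x y

lemma iso_hyp {A : GG n} (h : IsIsomHyp n A) {x : Fin (n + 1) → ℝ} (hx : x ∈ Hyp n) :
    ac A x ∈ Hyp n := h.2 x hx

lemma eT_mem : eT n ∈ Hyp n := ⟨by rw [mink_eT, eT_last], by rw [eT_last]; norm_num⟩

lemma iso_fwd {A : GG n} (h : IsIsomHyp n A) {x : Fin (n + 1) → ℝ} (hx : Fwd x) :
    Fwd (ac A x) := by
  have h1 : ac A (eT n) ∈ Hyp n := iso_hyp h eT_mem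
  apply fwd_of (by rw [iso_mink h]; exact hx.1) (fwd_of_hyp h1)
  rw [iso_mink h]
  exact mink_neg hx (fwd_of_hyp eT_mem) (by rw [eT_mem.1]; norm_num)

lemma iso_one : IsIsomHyp n (1 : GG n) :=
  ⟨fun x y => by rw [← ac_def, ← ac_def, ac_one, ac_one], fun x hx => by
    rw [← ac_def, ac_one]; exact hx⟩

lemma iso_mul {A B : GG n} (hA : IsIsomHyp n A) (hB : IsIsomHyp n B) : IsIsomHyp n (A * B) :=
  ⟨fun x y => by rw [← ac_def, ← ac_def, ac_mul, ac_mul, iso_mink hA, iso_mink hB], fun x hx => by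
    rw [← ac_def, ac_mul]; exact iso_hyp hA (iso_hyp hB hx)⟩

lemma iso_inv {A : GG n} (hA : IsIsomHyp n A) : IsIsomHyp n A⁻¹ := by
  have h1 : ∀ x y : Fin (n + 1) → ℝ, mink (ac A⁻¹ x) (ac A⁻¹ y) = mink x y := by
    intro x y
    rw [← iso_mink hA, ac_ac_inv, ac_ac_inv]
  refine ⟨h1, ?_⟩
  intro x hx
  rw [← ac_def]
  have h2 : mink (ac A⁻¹ x) (ac A⁻¹ x) = -1 := by rw [h1, hx.1]
  refine ⟨h2, ?_⟩
  rcases lt_trichotomy (ac A⁻¹ x (Fin.last n)) 0 with h3 | h3 | h3
  · have h4 : Fwd (-(ac A⁻¹ x)) := fwd_neg_of (by rw [h2]; norm_num) h3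
    have h5 := iso_fwd hA h4
    rw [ac_neg, ac_ac_inv] at h5
    have h6 := h5.2
    have h7 := hx.2
    rw [Pi.neg_apply] at h6
    linarith
  · have h4 := eq_zero_of_causal (by rw [h2]; norm_num) h3
    rw [h4, mink_zero_left] at h2
    norm_num at h2
  · exact h3

lemma mink_ac_left {A : GG n} (hA : IsIsomHyp n A) (x y : Fin (n + 1) → ℝ) :
    mink (ac A x) y = mink x (ac A⁻¹ y) := by
  conv_lhs => rw [← ac_ac_inv A y]
  rw [iso_mink hA]

lemma mink_ac_right {A : GG n} (hA : IsIsomHyp n A) (x y : Fin (n + 1) → ℝ) :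
    mink x (ac A y) = mink (ac A⁻¹ x) y := by
  rw [mink_comm, mink_ac_left hA, mink_comm]

/-- the underlying linear map of a reflection -/
noncomputable def rf (e : Fin (n + 1) → ℝ) : (Fin (n + 1) → ℝ) →ₗ[ℝ] (Fin (n + 1) → ℝ) :=
  LinearMap.id - (2 : ℝ) • ((minkL n).flip e).smulRight e

lemma rf_apply (e x : Fin (n + 1) → ℝ) : rf e x = x - (2 * mink x e) • e := by
  simp [rf, smul_smul]

lemma rf_rf {e : Fin (n + 1) → ℝ} (he : mink e e = 1) (x : Fin (n + 1) → ℝ) :
    rf e (rf e x) = x := by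
  rw [rf_apply, rf_apply, mink_sub_left, mink_smul_left, he]
  module

lemma rf_comp {e : Fin (n + 1) → ℝ} (he : mink e e = 1) : rf e ∘ₗ rf e = LinearMap.id :=
  LinearMap.ext fun x => by rw [LinearMap.comp_apply, rf_rf he, LinearMap.id_apply]

/-- the reflection as an element of the general linear group -/
noncomputable def Rm (e : Fin (n + 1) → ℝ) (he : mink e e = 1) : GG n where
  val := LinearMap.toMatrix' (rf e)
  inv := LinearMap.toMatrix' (rf e)
  val_inv := by
    rw [← LinearMap.toMatrix'_comp, rf_comp he, LinearMap.toMatrix'_id]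
  inv_val := by
    rw [← LinearMap.toMatrix'_comp, rf_comp he, LinearMap.toMatrix'_id]

lemma ac_Rm {e : Fin (n + 1) → ℝ} (he : mink e e = 1) (x : Fin (n + 1) → ℝ) :
    ac (Rm e he) x = x - (2 * mink x e) • e := by
  unfold ac
  show LinearMap.toMatrix' (rf e) *ᵥ x = _
  rw [LinearMap.toMatrix'_mulVec, rf_apply]

lemma Rm_sq {e : Fin (n + 1) → ℝ} (he : mink e e = 1) : Rm e he * Rm e he = 1 := by
  apply GG_ext
  intro x
  rw [ac_mul, ac_Rm, ac_Rm, ac_one, mink_sub_left, mink_smul_left, he]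
  module

lemma Rm_inv {e : Fin (n + 1) → ℝ} (he : mink e e = 1) : (Rm e he)⁻¹ = Rm e he :=
  inv_eq_of_mul_eq_one_left (Rm_sq he)

lemma isReflection_Rm {e : Fin (n + 1) → ℝ} (he : mink e e = 1) : IsReflection n (Rm e he) :=
  ⟨e, he, fun x => ac_Rm he x⟩

lemma iso_Rm {e : Fin (n + 1) → ℝ} (he : mink e e = 1) : IsIsomHyp n (Rm e he) := by
  have h1 : ∀ x y : Fin (n + 1) → ℝ, mink (ac (Rm e he) x) (ac (Rm e he) y) = mink x y := by
    intro x y
    rw [ac_Rm, ac_Rm, mink_sub_left, mink_sub_right, mink_sub_right, mink_smul_left,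
      mink_smul_left, mink_smul_right, mink_smul_right, he, mink_comm e y]
    ring
  refine ⟨h1, ?_⟩
  intro x hx
  rw [← ac_def]
  have h2 : mink (ac (Rm e he) x) (ac (Rm e he) x) = -1 := by rw [h1, hx.1]
  refine ⟨h2, ?_⟩
  have h3 : mink (ac (Rm e he) x) x < 0 := by
    rw [ac_Rm, mink_sub_left, mink_smul_left, hx.1, mink_comm e x]
    nlinarith [sq_nonneg (mink x e)]
  exact (fwd_of (by rw [h2]; norm_num) (fwd_of_hyp hx) h3).2

lemma iso_closure {s : Set (GG n)} (hs : ∀ A ∈ s, IsIsomHyp n A) {A : GG n}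
    (hA : A ∈ Subgroup.closure s) : IsIsomHyp n A := by
  induction hA using Subgroup.closure_induction with
  | mem x hx => exact hs x hx
  | one => exact iso_one
  | mul x y _ _ hx hy => exact iso_mul hx hy
  | inv x _ hx => exact iso_inv hx

/-! ### bounded sets of isometries -/

/-- the displacement of the base point: `cosh d(x, A x)` -/
def dsp (A : GG n) : ℝ := - mink (ac A (eT n)) (eT n)

lemma dsp_eq (A : GG n) : dsp A = ac A (eT n) (Fin.last n) := by
  unfold dsp; rw [mink_eT]; ring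

lemma mink_single_space (i : Fin n) (x : Fin (n + 1) → ℝ) :
    mink (Pi.single i.castSucc 1) x = x i.castSucc := by
  unfold mink
  have h1 : (Pi.single i.castSucc (1 : ℝ) : Fin (n + 1) → ℝ) (Fin.last n) = 0 := by
    rw [Pi.single_apply, if_neg]
    exact (Fin.castSucc_lt_last i).ne'
  rw [h1, zero_mul, sub_zero, Finset.sum_eq_single i]
  · simp
  · intro j _ hj
    rw [Pi.single_apply, if_neg, zero_mul]
    intro h
    exact hj (Fin.castSucc_injective _ h)
  · simp

lemma entry_eq (A : GG n) (i j : Fin (n + 1)) : A.1 i j = ac A (Pi.single j 1) i := by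
  unfold ac; simp

lemma dsp_inv {A : GG n} (hA : IsIsomHyp n A) : dsp A⁻¹ = dsp A := by
  unfold dsp
  rw [mink_ac_left (iso_inv hA), inv_inv, mink_comm]

lemma one_le_dsp {A : GG n} (hA : IsIsomHyp n A) : 1 ≤ dsp A := by
  rw [dsp_eq]
  have h1 := iso_hyp hA eT_mem (n := n)
  have h2 := sum_sq_eq (ac A (eT n))
  rw [h1.1] at h2
  have h3 : 0 ≤ ∑ i : Fin n, ac A (eT n) i.castSucc ^ 2 :=
    Finset.sum_nonneg fun i _ => sq_nonneg _
  have h4 := h1.2
  nlinarith

/-- all entries of an isometry are bounded by the displacement of the base point -/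
lemma entry_le {A : GG n} (hA : IsIsomHyp n A) (i j : Fin (n + 1)) : |A.1 i j| ≤ dsp A := by
  have hd := one_le_dsp hA
  have hlast : ∀ {B : GG n}, IsIsomHyp n B → ∀ i : Fin (n + 1), |ac B (eT n) i| ≤ dsp B := by
    intro B hB i
    have hd' := one_le_dsp hB
    have h1 := iso_hyp hB eT_mem (n := n)
    apply abs_le_of_causal (by linarith) (by rw [h1.1]; norm_num)
    rw [← dsp_eq, abs_of_pos (by linarith)]
  revert j
  refine Fin.lastCases ?_ ?_
  · rw [entry_eq]
    exact hlast hA i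
  · intro j
    set x : Fin (n + 1) → ℝ := Pi.single j.castSucc 1 with hx
    have hxx : mink x x = 1 := by rw [hx, mink_single_space]; simp
    have h1 : mink (ac A x) (ac A x) = 1 := by rw [iso_mink hA, hxx]
    have h2 : ac A x (Fin.last n) = - ac A⁻¹ (eT n) j.castSucc := by
      have h3 : mink (ac A x) (eT n) = - ac A x (Fin.last n) := mink_eT _
      rw [mink_ac_left hA, hx, mink_single_space] at h3
      linarith
    have h4 : |ac A x (Fin.last n)| ≤ dsp A := by
      rw [h2, abs_neg, ← dsp_inv hA]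
      exact hlast (iso_inv hA) _
    have h5 : ac A x (Fin.last n) ^ 2 ≤ dsp A ^ 2 - 1 := by
      have h6 := sum_sq_eq (ac A⁻¹ (eT n))
      rw [(iso_hyp (iso_inv hA) eT_mem (n := n)).1, ← dsp_eq, dsp_inv hA] at h6
      have h7 : ac A⁻¹ (eT n) j.castSucc ^ 2 ≤ ∑ i : Fin n, ac A⁻¹ (eT n) i.castSucc ^ 2 :=
        Finset.single_le_sum (f := fun i : Fin n => ac A⁻¹ (eT n) i.castSucc ^ 2)
          (fun i _ => sq_nonneg _) (Finset.mem_univ j)
      rw [h2, neg_sq]
      linarith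
    rw [entry_eq, ← hx]
    revert i
    refine Fin.lastCases h4 ?_
    intro i
    have h8 := sum_sq_eq (ac A x)
    rw [h1] at h8
    have h9 : ac A x i.castSucc ^ 2 ≤ ∑ i : Fin n, ac A x i.castSucc ^ 2 :=
      Finset.single_le_sum (f := fun i : Fin n => ac A x i.castSucc ^ 2)
        (fun i _ => sq_nonneg _) (Finset.mem_univ i)
    exact abs_le_of_sq_le_sq (by linarith) (by linarith)

lemma dsp_le_of_entry {A : GG n} {R : ℝ} (h : ∀ i j, |A.1 i j| ≤ R) : dsp A ≤ R := by
  rw [dsp_eq]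
  have := h (Fin.last n) (Fin.last n)
  rw [entry_eq] at this
  exact (abs_le.1 this).2

/-- a comparison: the displacement is controlled by the action on a fixed timelike vector -/
lemma dsp_le_of_timelike {x : Fin (n + 1) → ℝ} (hx : x ∈ Hyp n) :
    ∃ L : ℝ, 0 < L ∧ ∀ A : GG n, IsIsomHyp n A → dsp A ≤ L * (ac A x (Fin.last n)) := by
  refine ⟨2 * x (Fin.last n), by linarith [hx.2], ?_⟩
  intro A hA
  set L := 2 * x (Fin.last n) with hL
  have hpos := hx.2
  have h1 : 0 ≤ (ac A (L • x - eT n)) (Fin.last n) := by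
    by_cases h0 : L • x - eT n = 0
    · rw [h0]
      have : ac A 0 = 0 := by unfold ac; simp
      rw [this]; simp
    have hc : mink (L • x - eT n) (L • x - eT n) ≤ 0 := by
      rw [mink_sub_left, mink_sub_right, mink_sub_right, mink_smul_left, mink_smul_left,
        mink_smul_right, mink_smul_right, hx.1, mink_comm (eT n) x, mink_eT, eT_mem.1, hL]
      nlinarith
    have hF : Fwd (L • x - eT n) := by
      refine fwd_of hc (fwd_of_hyp hx) ?_
      rw [mink_sub_left, mink_smul_left, hx.1, mink_comm (eT n) x, mink_eT, hL]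
      linarith
    exact (iso_fwd hA hF).2.le
  rw [ac_sub, ac_smul] at h1
  simp only [Pi.sub_apply, Pi.smul_apply, smul_eq_mul] at h1
  rw [dsp_eq]; linarith

end Pool.Agent.H851R2
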