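import Pool.Agent.H851R2.QBasic

set_option autoImplicit false

namespace Pool.Agent.H851R2

open Matrix Topology Filter
open Pool.Agent.Helper613.DH

variable {n : ℕ}

/-- internal form of discreteness -/
def Disc (N : Subgroup (GG n)) : Prop := ∀ R : ℝ, {A | A ∈ N ∧ dsp A ≤ R}.Finite

lemma disc_of_sep {N : Subgroup (GG n)} (hiso : ∀ A ∈ N, IsIsomHyp n A) {ε : ℝ} (hε : 0 < ε)
    (h : ∀ A ∈ N, (∀ i j, |A.1 i j - (1 : Matrix (Fin (n + 1)) (Fin (n + 1)) ℝ) i j| < ε) →
      A = 1) : Disc N := by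
  intro R
  by_cases hR : R < 1
  · convert Set.finite_empty
    ext A
    simp only [Set.mem_ofPred_eq, Set.mem_empty_iff_false, iff_false, not_and, not_le]
    intro hA
    linarith [one_le_dsp (hiso A hA)]
  push Not at hR
  set δ : ℝ := ε / ((n + 1) * R) with hδ
  have hδpos : 0 < δ := by positivity
  let f : GG n → (Fin (n + 1) → Fin (n + 1) → ℤ) := fun A i j => ⌊A.1 i j / δ⌋
  have hinj : Set.InjOn f {A | A ∈ N ∧ dsp A ≤ R} := by
    intro A hA B hB hAB
    have hclose : ∀ i j, |B.1 i j - A.1 i j| < δ := by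
      intro i j
      have h1 : ⌊A.1 i j / δ⌋ = ⌊B.1 i j / δ⌋ := congrFun (congrFun hAB i) j
      have h2 := Int.abs_sub_lt_one_of_floor_eq_floor h1.symm
      rw [← sub_div, abs_div, abs_of_pos hδpos, div_lt_one hδpos] at h2
      exact h2
    have h3 : A⁻¹ * B = 1 := by
      apply h _ (N.mul_mem (N.inv_mem hA.1) hB.1)
      intro i j
      have h4 : (A⁻¹ * B).1 i j - (1 : Matrix (Fin (n + 1)) (Fin (n + 1)) ℝ) i j =
          ∑ k, (A⁻¹).1 i k * (B.1 k j - A.1 k j) := by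
        have h5 : (1 : Matrix (Fin (n + 1)) (Fin (n + 1)) ℝ) i j = (A⁻¹ * A).1 i j := by
          rw [inv_mul_cancel]; rfl
        rw [h5]
        show ((A⁻¹).1 * B.1) i j - ((A⁻¹).1 * A.1) i j = _
        rw [Matrix.mul_apply, Matrix.mul_apply, ← Finset.sum_sub_distrib]
        exact Finset.sum_congr rfl fun k _ => by ring
      rw [h4]
      calc |∑ k, (A⁻¹).1 i k * (B.1 k j - A.1 k j)|
          ≤ ∑ k, |(A⁻¹).1 i k * (B.1 k j - A.1 k j)| := Finset.abs_sum_le_sum_abs _ _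
        _ < ∑ _k : Fin (n + 1), R * δ := by
            apply Finset.sum_lt_sum_of_nonempty Finset.univ_nonempty
            intro k _
            rw [abs_mul]
            have h6 : |(A⁻¹).1 i k| ≤ R :=
              (entry_le (iso_inv (hiso A hA.1)) i k).trans
                (by rw [dsp_inv (hiso A hA.1)]; exact hA.2)
            exact mul_lt_mul' h6 (hclose k j) (abs_nonneg _) (by linarith)
        _ = ε := by
            rw [Finset.sum_const, Finset.card_univ, Fintype.card_fin, nsmul_eq_mul, hδ]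
            push_cast
            field_simp
    calc A = A * (A⁻¹ * B) := by rw [h3, mul_one]
      _ = B := by rw [mul_inv_cancel_left]
  refine Set.Finite.of_finite_image ?_ hinj
  refine Set.Finite.subset (s := Set.pi Set.univ fun _ : Fin (n + 1) =>
    Set.pi Set.univ fun _ : Fin (n + 1) => Set.Icc (⌊-R / δ⌋) (⌊R / δ⌋)) ?_ ?_
  · exact Set.Finite.pi fun _ => Set.Finite.pi fun _ => Set.finite_Icc _ _
  · rintro _ ⟨A, hA, rfl⟩
    intro i _ j _
    have h1 := abs_le.1 ((entry_le (hiso A hA.1) i j).trans hA.2)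
    exact ⟨Int.floor_le_floor (div_le_div_of_nonneg_right h1.1 hδpos.le),
      Int.floor_le_floor (div_le_div_of_nonneg_right h1.2 hδpos.le)⟩

/-- a neighbourhood of a matrix contains an entrywise neighbourhood -/
lemma exists_entry_nhd {U : Set (Matrix (Fin (n + 1)) (Fin (n + 1)) ℝ)} (hU : IsOpen U)
    {M : Matrix (Fin (n + 1)) (Fin (n + 1)) ℝ} (hM : M ∈ U) :
    ∃ ε : ℝ, 0 < ε ∧ ∀ M' : Matrix (Fin (n + 1)) (Fin (n + 1)) ℝ,
      (∀ i j, |M' i j - M i j| < ε) → M' ∈ U := by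
  have hU' : IsOpen (X := Fin (n + 1) → Fin (n + 1) → ℝ) U := hU
  rw [Metric.isOpen_iff] at hU'
  obtain ⟨ε, hε, h⟩ := hU' M hM
  refine ⟨ε, hε, fun M' hM' => h ?_⟩
  rw [Metric.mem_ball, dist_pi_lt_iff hε]
  intro i
  rw [dist_pi_lt_iff hε]
  intro j
  rw [Real.dist_eq]
  exact hM' i j

lemma isOpen_entry (M : Matrix (Fin (n + 1)) (Fin (n + 1)) ℝ) :
    IsOpen {M' : Matrix (Fin (n + 1)) (Fin (n + 1)) ℝ | ∀ i j, |M' i j - M i j| < 1} := by
  simp only [Set.ofPred_forall]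
  refine isOpen_iInter_of_finite fun i => isOpen_iInter_of_finite fun j => ?_
  refine isOpen_lt ?_ continuous_const
  fun_prop

lemma disc_of_topo {N : Subgroup (GG n)} (hiso : ∀ A ∈ N, IsIsomHyp n A)
    (h : DiscreteTopology ↥((fun A : GG n => A.1) '' (N : Set (GG n)))) : Disc N := by
  have h1 : (1 : Matrix (Fin (n + 1)) (Fin (n + 1)) ℝ) ∈
      (fun A : GG n => A.1) '' (N : Set (GG n)) := ⟨1, N.one_mem, rfl⟩
  have h2 : IsOpen ({⟨1, h1⟩} : Set ↥((fun A : GG n => A.1) '' (N : Set (GG n)))) :=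
    isOpen_discrete _
  rw [isOpen_induced_iff] at h2
  obtain ⟨U, hU, hU2⟩ := h2
  have h3 : (1 : Matrix (Fin (n + 1)) (Fin (n + 1)) ℝ) ∈ U := by
    have : (⟨1, h1⟩ : ↥((fun A : GG n => A.1) '' (N : Set (GG n)))) ∈
        Subtype.val ⁻¹' U := by rw [hU2]; rfl
    exact this
  obtain ⟨ε, hε, h4⟩ := exists_entry_nhd hU h3
  refine disc_of_sep hiso hε ?_
  intro A hA hA2
  have h5 : (⟨A.1, ⟨A, hA, rfl⟩⟩ : ↥((fun A : GG n => A.1) '' (N : Set (GG n)))) ∈
        Subtype.val ⁻¹' U := h4 _ hA2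
  rw [hU2] at h5
  have h6 := congrArg Subtype.val h5
  exact Units.ext h6

lemma topo_of_disc {N : Subgroup (GG n)} (h : Disc N) :
    DiscreteTopology ↥((fun A : GG n => A.1) '' (N : Set (GG n))) := by
  rw [discreteTopology_subtype_iff']
  rintro _ ⟨A, hA, rfl⟩
  set V := {M' : Matrix (Fin (n + 1)) (Fin (n + 1)) ℝ | ∀ i j, |M' i j - A.1 i j| < 1} with hV
  set F := (fun B : GG n => B.1) '' {B | B ∈ N ∧ dsp B ≤ A.1 (Fin.last n) (Fin.last n) + 1} \ {A.1}
    with hF
  have hFfin : F.Finite := ((h _).image _).subset Set.sdiff_subset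
  have hVo : IsOpen V := isOpen_entry A.1
  have hFc : IsClosed F := hFfin.isClosed
  refine ⟨V ∩ Fᶜ, hVo.inter hFc.isOpen_compl, ?_⟩
  ext M
  constructor
  · rintro ⟨⟨hM1, hM2⟩, B, hB, rfl⟩
    by_contra hne
    apply hM2
    refine ⟨⟨B, ⟨hB, ?_⟩, rfl⟩, hne⟩
    have h3 := (abs_lt.1 (hM1 (Fin.last n) (Fin.last n))).2
    rw [dsp_eq, eT, ← entry_eq]
    linarith
  · rintro rfl
    refine ⟨⟨?_, ?_⟩, ⟨A, hA, rfl⟩⟩
    · intro i j; simp
    · rintro ⟨-, h3⟩; exact h3 rfl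

lemma dsp_mul_le {A B : GG n} (hA : IsIsomHyp n A) (hB : IsIsomHyp n B) :
    dsp (A * B) ≤ (n + 1) * (dsp A * dsp B) := by
  have h1 : dsp (A * B) = ∑ k, A.1 (Fin.last n) k * B.1 k (Fin.last n) := by
    rw [dsp_eq, eT, ← entry_eq]
    show (A.1 * B.1) _ _ = _
    rw [Matrix.mul_apply]
  rw [h1]
  calc ∑ k, A.1 (Fin.last n) k * B.1 k (Fin.last n)
      ≤ ∑ _k : Fin (n + 1), dsp A * dsp B := by
        apply Finset.sum_le_sum
        intro k _
        refine (le_abs_self _).trans ?_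
        rw [abs_mul]
        exact mul_le_mul (entry_le hA _ _) (entry_le hB _ _) (abs_nonneg _)
          (by linarith [one_le_dsp hA])
    _ = (n + 1) * (dsp A * dsp B) := by
        rw [Finset.sum_const, Finset.card_univ, Fintype.card_fin, nsmul_eq_mul]
        push_cast
        ring

/-- conjugation of a discrete group by an isometry -/
lemma disc_conj {N N' : Subgroup (GG n)} (hN : Disc N) {g : GG n} (hg : IsIsomHyp n g)
    (hiso : ∀ A ∈ N', IsIsomHyp n A) (h : ∀ A ∈ N', g * A * g⁻¹ ∈ N) : Disc N' := by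
  intro R
  refine Set.Finite.of_finite_image (f := fun A => g * A * g⁻¹) ?_ ?_
  · refine (hN ((n + 1) * (((n + 1) * (dsp g * R)) * dsp g))).subset ?_
    rintro _ ⟨A, hA, rfl⟩
    refine ⟨h A hA.1, ?_⟩
    have h0 : (0 : ℝ) ≤ n + 1 := by positivity
    have h1 := dsp_mul_le (iso_mul hg (hiso A hA.1)) (iso_inv hg)
    have h2 := dsp_mul_le hg (hiso A hA.1)
    have h3 := one_le_dsp hg
    rw [dsp_inv hg] at h1
    refine h1.trans (mul_le_mul_of_nonneg_left (mul_le_mul_of_nonneg_right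
      (h2.trans (mul_le_mul_of_nonneg_left (mul_le_mul_of_nonneg_left hA.2 ?_) h0)) ?_) h0)
    · linarith
    · linarith
  · intro A _ B _ hAB
    exact mul_left_cancel (mul_right_cancel hAB)

end Pool.Agent.H851R2
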