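import Pool.Agent.H851R2.QLat

set_option autoImplicit false

/-!
# The family of Coxeter polyhedra
-/

namespace Pool.Agent.H851R2

open Matrix
open Pool.Agent.Helper613.DH

/-- index type of the walls -/
abbrev Wi (m : ℕ) := Fin 5 ⊕ (Fin (m + 1) ⊕ Fin (m + 1))

/-- the five exceptional walls: `x ≥ 0`, `x ≤ 1`, `y ≥ -1/2`, `y ≤ 4 m + 2` and the sphere with
centre `(0, -1/2)` and radius `1/2` -/
noncomputable def w5 (m : ℕ) : Fin 5 → Fin (3 + 1) → ℝ :=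
  ![vc 1 0 0 0, vc (-1) 0 0 (-2), vc 0 1 0 (-1), vc 0 (-1) 0 (-(8 * m + 4)), vc 0 1 (-2) 0]

/-- the sphere with centre `(1, 4 i)` and radius `1` -/
noncomputable def wS1 (i : ℕ) : Fin (3 + 1) → ℝ := vc (-1) (-(4 * i)) (-1) (-(16 * i ^ 2))

/-- the sphere with centre `(0, 4 i + 2)` and radius `2` -/
noncomputable def wS4 (i : ℕ) : Fin (3 + 1) → ℝ :=
  vc 0 (-(2 * i + 1)) (-(1 / 2)) (-(8 * i ^ 2 + 8 * i))

/-- the unit normals of the walls -/
noncomputable def wl (m : ℕ) : Wi m → Fin (3 + 1) → ℝ :=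
  Sum.elim (w5 m) (Sum.elim (fun i => wS1 i) (fun i => wS4 i))

lemma wl_unit (m : ℕ) (i : Wi m) : mink (wl m i) (wl m i) = 1 := by
  rcases i with i | i | i
  · fin_cases i
    · show mink (vc 1 0 0 0) (vc 1 0 0 0) = 1
      rw [mink_vc]; ring
    · show mink (vc (-1) 0 0 (-2)) (vc (-1) 0 0 (-2)) = 1
      rw [mink_vc]; ring
    · show mink (vc 0 1 0 (-1)) (vc 0 1 0 (-1)) = 1
      rw [mink_vc]; ring
    · show mink (vc 0 (-1) 0 (-(8 * m + 4))) (vc 0 (-1) 0 (-(8 * m + 4))) = 1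
      rw [mink_vc]; ring
    · show mink (vc 0 1 (-2) 0) (vc 0 1 (-2) 0) = 1
      rw [mink_vc]; ring
  · show mink (wS1 i) (wS1 i) = 1
    unfold wS1; rw [mink_vc]; ring
  · show mink (wS4 i) (wS4 i) = 1
    unfold wS4; rw [mink_vc]; ring

/-- the admissible Gram matrix entries -/
def Adm (c : ℝ) : Prop := c = 0 ∨ c = -(1 / 2) ∨ c ≤ -1

lemma adm_55 (m : ℕ) (i j : Fin 5) (h : i ≠ j) : Adm (mink (w5 m i) (w5 m j)) := by
  have hm : (0 : ℝ) ≤ m := Nat.cast_nonneg m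
  unfold Adm
  fin_cases i <;> fin_cases j <;> first
    | exact absurd rfl h
    | (simp only [w5, Matrix.cons_val, Fin.zero_eta, Fin.mk_one, Fin.reduceFinMk,
        Matrix.cons_val_zero, Matrix.cons_val_one, mink_vc]
       first
        | (left; ring; done)
        | (right; left; ring; done)
        | (right; right; norm_num; done)
        | (right; right; nlinarith))

lemma adm_51 (m : ℕ) (i : Fin 5) (j : ℕ) (hj : j ≤ m) : Adm (mink (w5 m i) (wS1 j)) := by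
  have hm : (j : ℝ) ≤ m := by exact_mod_cast hj
  have hj0 : (0 : ℝ) ≤ j := Nat.cast_nonneg j
  unfold Adm wS1
  fin_cases i
  · show mink (vc 1 0 0 0) _ = 0 ∨ mink (vc 1 0 0 0) _ = _ ∨ mink (vc 1 0 0 0) _ ≤ _
    rw [mink_vc]; right; right; linarith
  · show mink (vc (-1) 0 0 (-2)) _ = 0 ∨ mink (vc (-1) 0 0 (-2)) _ = _ ∨
      mink (vc (-1) 0 0 (-2)) _ ≤ _
    rw [mink_vc]; left; ring
  · show mink (vc 0 1 0 (-1)) _ = 0 ∨ mink (vc 0 1 0 (-1)) _ = _ ∨ mink (vc 0 1 0 (-1)) _ ≤ _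
    rw [mink_vc]
    rcases Nat.eq_zero_or_pos j with h0 | h0
    · subst h0; right; left; norm_num
    · have h1 : (1 : ℝ) ≤ j := by exact_mod_cast h0
      right; right; linarith
  · show mink (vc 0 (-1) 0 (-(8 * m + 4))) _ = 0 ∨ mink (vc 0 (-1) 0 (-(8 * m + 4))) _ = _ ∨
      mink (vc 0 (-1) 0 (-(8 * m + 4))) _ ≤ _
    rw [mink_vc]; right; right; nlinarith
  · show mink (vc 0 1 (-2) 0) _ = 0 ∨ mink (vc 0 1 (-2) 0) _ = _ ∨ mink (vc 0 1 (-2) 0) _ ≤ _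
    rw [mink_vc]
    rcases Nat.eq_zero_or_pos j with h0 | h0
    · subst h0; left; norm_num
    · have h1 : (1 : ℝ) ≤ j := by exact_mod_cast h0
      right; right; nlinarith

lemma adm_54 (m : ℕ) (i : Fin 5) (j : ℕ) (hj : j ≤ m) : Adm (mink (w5 m i) (wS4 j)) := by
  have hm : (j : ℝ) ≤ m := by exact_mod_cast hj
  have hj0 : (0 : ℝ) ≤ j := Nat.cast_nonneg j
  unfold Adm wS4
  fin_cases i
  · show mink (vc 1 0 0 0) _ = 0 ∨ mink (vc 1 0 0 0) _ = _ ∨ mink (vc 1 0 0 0) _ ≤ _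
    rw [mink_vc]; left; ring
  · show mink (vc (-1) 0 0 (-2)) _ = 0 ∨ mink (vc (-1) 0 0 (-2)) _ = _ ∨
      mink (vc (-1) 0 0 (-2)) _ ≤ _
    rw [mink_vc]; right; left; ring
  · show mink (vc 0 1 0 (-1)) _ = 0 ∨ mink (vc 0 1 0 (-1)) _ = _ ∨ mink (vc 0 1 0 (-1)) _ ≤ _
    rw [mink_vc]; right; right; linarith
  · show mink (vc 0 (-1) 0 (-(8 * m + 4))) _ = 0 ∨ mink (vc 0 (-1) 0 (-(8 * m + 4))) _ = _ ∨
      mink (vc 0 (-1) 0 (-(8 * m + 4))) _ ≤ _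
    rw [mink_vc]
    rcases Nat.eq_or_lt_of_le hj with h0 | h0
    · subst h0; left; ring
    · have h1 : (j : ℝ) + 1 ≤ m := by exact_mod_cast h0
      right; right; linarith
  · show mink (vc 0 1 (-2) 0) _ = 0 ∨ mink (vc 0 1 (-2) 0) _ = _ ∨ mink (vc 0 1 (-2) 0) _ ≤ _
    rw [mink_vc]
    right; right; nlinarith

lemma one_le_sq_sub {i j : ℕ} (h : i ≠ j) : (1 : ℝ) ≤ ((i : ℝ) - j) ^ 2 := by
  have h1 : (1 : ℤ) ≤ ((i : ℤ) - j) ^ 2 := by
    have h2 : (i : ℤ) - j ≠ 0 := by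
      intro h3
      apply h
      exact_mod_cast sub_eq_zero.1 h3
    have h3 : 0 < ((i : ℤ) - j) ^ 2 := by positivity
    omega
  exact_mod_cast h1

lemma adm_11 (i j : ℕ) (h : i ≠ j) : Adm (mink (wS1 i) (wS1 j)) := by
  have h1 := one_le_sq_sub h
  unfold wS1 Adm
  rw [mink_vc]
  right; right; nlinarith

lemma adm_44 (i j : ℕ) (h : i ≠ j) : Adm (mink (wS4 i) (wS4 j)) := by
  have h1 := one_le_sq_sub h
  unfold wS4 Adm
  rw [mink_vc]
  right; right; nlinarith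

lemma adm_14 (i j : ℕ) : Adm (mink (wS1 i) (wS4 j)) := by
  unfold wS1 wS4 Adm
  rw [mink_vc]
  have e : (-1 : ℝ) * 0 + -(4 * (i : ℝ)) * -(2 * (j : ℝ) + 1) -
      (-1 * -(8 * (j : ℝ) ^ 2 + 8 * j) + -(16 * (i : ℝ) ^ 2) * -(1 / 2)) / 2 =
      1 - (2 * ((i : ℝ) - j) - 1) ^ 2 + 0 := by ring
  by_cases h1 : i = j
  · left
    subst h1
    ring
  by_cases h2 : i = j + 1
  · left
    subst h2
    push_cast
    ring
  · right; right
    have h3 : (9 : ℤ) ≤ (2 * ((i : ℤ) - j) - 1) ^ 2 := by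
      rcases lt_or_gt_of_ne h1 with h4 | h4
      · have h5 : 2 * ((i : ℤ) - j) - 1 ≤ -3 := by omega
        nlinarith
      · have h5 : 3 ≤ 2 * ((i : ℤ) - j) - 1 := by omega
        nlinarith
    have h4 : (9 : ℝ) ≤ (2 * ((i : ℝ) - j) - 1) ^ 2 := by exact_mod_cast h3
    nlinarith

lemma adm_symm {u v : Fin (3 + 1) → ℝ} (h : Adm (mink u v)) : Adm (mink v u) := by
  rw [mink_comm]; exact h

theorem wl_gram (m : ℕ) (i j : Wi m) (h : i ≠ j) : Adm (mink (wl m i) (wl m j)) := by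
  rcases i with i | i | i <;> rcases j with j | j | j
  · exact adm_55 m i j (fun h' => h (by rw [h']))
  · exact adm_51 m i j (Nat.lt_succ_iff.1 j.2)
  · exact adm_54 m i j (Nat.lt_succ_iff.1 j.2)
  · exact adm_symm (adm_51 m j i (Nat.lt_succ_iff.1 i.2))
  · exact adm_11 i j (fun h' => h (by rw [Fin.ext h']))
  · exact adm_14 i j
  · exact adm_symm (adm_54 m j i (Nat.lt_succ_iff.1 i.2))
  · exact adm_symm (adm_14 j i)
  · exact adm_44 i j (fun h' => h (by rw [Fin.ext h']))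

/-- the reflection groups of the family -/
noncomputable def Gam (m : ℕ) : Subgroup (GG 3) := RG (wl m) (wl_unit m)

/-- membership in the chamber in coordinates -/
lemma cham_iff {m : ℕ} {x y s t : ℝ} : vc x y s t ∈ Cham (wl m) ↔
    0 ≤ x ∧ x ≤ s ∧ 0 ≤ y + s / 2 ∧ y ≤ (4 * m + 2) * s ∧ 0 ≤ y + t ∧
    (∀ i : ℕ, i ≤ m → 0 ≤ -x - 4 * i * y + (16 * i ^ 2 * s + t) / 2) ∧
    (∀ i : ℕ, i ≤ m → 0 ≤ -(2 * i + 1) * y + (4 * i ^ 2 + 4 * i) * s + t / 4) := by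
  have e0 : mink (vc x y s t) (wl m (Sum.inl 0)) = x := by
    show mink (vc x y s t) (vc 1 0 0 0) = x
    rw [mink_vc]; ring
  have e1 : mink (vc x y s t) (wl m (Sum.inl 1)) = s - x := by
    show mink (vc x y s t) (vc (-1) 0 0 (-2)) = s - x
    rw [mink_vc]; ring
  have e2 : mink (vc x y s t) (wl m (Sum.inl 2)) = y + s / 2 := by
    show mink (vc x y s t) (vc 0 1 0 (-1)) = y + s / 2
    rw [mink_vc]; ring
  have e3 : mink (vc x y s t) (wl m (Sum.inl 3)) = (4 * m + 2) * s - y := by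
    show mink (vc x y s t) (vc 0 (-1) 0 (-(8 * m + 4))) = (4 * m + 2) * s - y
    rw [mink_vc]; ring
  have e4 : mink (vc x y s t) (wl m (Sum.inl 4)) = y + t := by
    show mink (vc x y s t) (vc 0 1 (-2) 0) = y + t
    rw [mink_vc]; ring
  have e5 : ∀ i : Fin (m + 1), mink (vc x y s t) (wl m (Sum.inr (Sum.inl i))) =
      -x - 4 * (i : ℕ) * y + (16 * ((i : ℕ) : ℝ) ^ 2 * s + t) / 2 := by
    intro i
    show mink (vc x y s t) (wS1 i) = _
    unfold wS1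
    rw [mink_vc]; ring
  have e6 : ∀ i : Fin (m + 1), mink (vc x y s t) (wl m (Sum.inr (Sum.inr i))) =
      -(2 * (i : ℕ) + 1) * y + (4 * ((i : ℕ) : ℝ) ^ 2 + 4 * (i : ℕ)) * s + t / 4 := by
    intro i
    show mink (vc x y s t) (wS4 i) = _
    unfold wS4
    rw [mink_vc]; ring
  constructor
  · intro h
    refine ⟨?_, ?_, ?_, ?_, ?_, ?_, ?_⟩
    · rw [← e0]; exact h _
    · have := h (Sum.inl 1); rw [e1] at this; linarith
    · rw [← e2]; exact h _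
    · have := h (Sum.inl 3); rw [e3] at this; linarith
    · rw [← e4]; exact h _
    · intro i hi
      have := h (Sum.inr (Sum.inl ⟨i, Nat.lt_succ_iff.2 hi⟩))
      rw [e5] at this
      exact this
    · intro i hi
      have := h (Sum.inr (Sum.inr ⟨i, Nat.lt_succ_iff.2 hi⟩))
      rw [e6] at this
      exact this
  · rintro ⟨h0, h1, h2, h3, h4, h5, h6⟩ i
    rcases i with i | i | i
    · fin_cases i
      · show 0 ≤ mink (vc x y s t) (wl m (Sum.inl 0)); rw [e0]; exact h0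
      · show 0 ≤ mink (vc x y s t) (wl m (Sum.inl 1)); rw [e1]; linarith
      · show 0 ≤ mink (vc x y s t) (wl m (Sum.inl 2)); rw [e2]; exact h2
      · show 0 ≤ mink (vc x y s t) (wl m (Sum.inl 3)); rw [e3]; linarith
      · show 0 ≤ mink (vc x y s t) (wl m (Sum.inl 4)); rw [e4]; exact h4
    · rw [e5]; exact h5 i (Nat.lt_succ_iff.1 i.2)
    · rw [e6]; exact h6 i (Nat.lt_succ_iff.1 i.2)

/-- the interior base point, at height `4` above `(1/2, 0)` -/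
noncomputable def y0 : Fin (3 + 1) → ℝ := vc (1 / 8) 0 (1 / 4) (65 / 16)

lemma y0_mem : y0 ∈ Hyp 3 := by
  refine ⟨?_, ?_⟩
  · unfold y0; rw [mink_vc]; norm_num
  · unfold y0; rw [vc_last]; norm_num

lemma y0_wl (m : ℕ) (i : Wi m) : 1 / 8 ≤ mink y0 (wl m i) := by
  have hm : (0 : ℝ) ≤ m := Nat.cast_nonneg m
  unfold y0
  rcases i with i | i | i
  · fin_cases i
    · show 1 / 8 ≤ mink (vc (1 / 8) 0 (1 / 4) (65 / 16)) (vc 1 0 0 0)
      rw [mink_vc]; norm_num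
    · show 1 / 8 ≤ mink (vc (1 / 8) 0 (1 / 4) (65 / 16)) (vc (-1) 0 0 (-2))
      rw [mink_vc]; norm_num
    · show 1 / 8 ≤ mink (vc (1 / 8) 0 (1 / 4) (65 / 16)) (vc 0 1 0 (-1))
      rw [mink_vc]; norm_num
    · show 1 / 8 ≤ mink (vc (1 / 8) 0 (1 / 4) (65 / 16)) (vc 0 (-1) 0 (-(8 * m + 4)))
      rw [mink_vc]; linarith
    · show 1 / 8 ≤ mink (vc (1 / 8) 0 (1 / 4) (65 / 16)) (vc 0 1 (-2) 0)
      rw [mink_vc]; norm_num
  · show 1 / 8 ≤ mink (vc (1 / 8) 0 (1 / 4) (65 / 16)) (wS1 i)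
    unfold wS1
    rw [mink_vc]
    have : (0 : ℝ) ≤ ((i : ℕ) : ℝ) ^ 2 := by positivity
    linarith
  · show 1 / 8 ≤ mink (vc (1 / 8) 0 (1 / 4) (65 / 16)) (wS4 i)
    unfold wS4
    rw [mink_vc]
    have : (0 : ℝ) ≤ ((i : ℕ) : ℝ) ^ 2 := by positivity
    have : (0 : ℝ) ≤ ((i : ℕ) : ℝ) := by positivity
    linarith

lemma iso_Gam {m : ℕ} {A : GG 3} (hA : A ∈ Gam m) : IsIsomHyp 3 A := iso_RG hA

theorem disc_Gam (m : ℕ) : Disc (Gam m) := by
  obtain ⟨E, hE⟩ : ∃ E : ℝ, ∀ i k, |wl m i k| ≤ E := by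
    obtain ⟨E, hE⟩ := (Set.finite_range fun p : Wi m × Fin (3 + 1) => |wl m p.1 p.2|).bddAbove
    exact ⟨E, fun i k => hE ⟨(i, k), rfl⟩⟩
  exact disc_RG (wl_gram m) (by norm_num) (y0_wl m) hE

end Pool.Agent.H851R2
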