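import Pool.Agent.H851R2.QFam

set_option autoImplicit false

/-!
# Finiteness of the volume
-/

namespace Pool.Agent.H851R2

open Matrix MeasureTheory
open Pool.Agent.Helper613.DH

/-- the cusp region in light cone coordinates -/
def cuspBox (B M : ℝ) : Set (Fin 4 → ℝ) :=
  {w | 0 < w 2 ∧ w 2 ≤ M ∧ |w 0| ≤ B * w 2 ∧ |w 1| ≤ B * w 2 ∧
    w 2 * w 3 - w 0 ^ 2 - w 1 ^ 2 ≤ 1 ∧ 0 ≤ w 3}

lemma cuspBox_lt_top {B M : ℝ} (hB : 0 < B) (hM : 0 < M) : volume (cuspBox B M) < ⊤ := by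
  set lo : ℕ → Fin 4 → ℝ := fun j => ![-(B * (M * (1 / 2) ^ j)), -(B * (M * (1 / 2) ^ j)), 0, 0]
    with hlo
  set hi : ℕ → Fin 4 → ℝ := fun j =>
    ![B * (M * (1 / 2) ^ j), B * (M * (1 / 2) ^ j), M * (1 / 2) ^ j, 2 * 2 ^ j / M + 2 * B ^ 2 * M]
    with hhi
  have hcover : cuspBox B M ⊆ ⋃ j : ℕ, Set.Icc (lo j) (hi j) := by
    rintro w ⟨h1, h2, h3, h4, h5, h6⟩
    obtain ⟨j, hj1, hj2⟩ := exists_nat_pow_near_of_lt_one (x := w 2 / M) (y := (1 / 2 : ℝ))
      (div_pos h1 hM) ((div_le_one hM).2 h2) (by norm_num) (by norm_num)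
    rw [lt_div_iff₀ hM] at hj1
    rw [div_le_iff₀ hM] at hj2
    have hpow : (0 : ℝ) < (1 / 2) ^ j := by positivity
    have hpow1 : ((1 : ℝ) / 2) ^ j ≤ 1 := pow_le_one₀ (by norm_num) (by norm_num)
    have h2j : (2 : ℝ) ^ j * (1 / 2) ^ j = 1 := by rw [← mul_pow]; norm_num
    rw [Set.mem_iUnion]
    refine ⟨j, ?_⟩
    have hw2 : w 2 ≤ M * (1 / 2) ^ j := by linarith
    have hw2' : M * (1 / 2) ^ j ≤ 2 * w 2 := by
      rw [pow_succ] at hj1; linarith
    have hBw : B * w 2 ≤ B * (M * (1 / 2) ^ j) := mul_le_mul_of_nonneg_left hw2 hB.le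
    have h7 := abs_le.1 h3
    have h8 := abs_le.1 h4
    have hw3 : w 3 ≤ 2 * 2 ^ j / M + 2 * B ^ 2 * M := by
      have h9 : w 2 * w 3 ≤ 1 + 2 * (B * w 2) ^ 2 := by
        have := sq_le_sq' h7.1 h7.2
        have := sq_le_sq' h8.1 h8.2
        linarith
      have h10 : 1 ≤ w 2 * (2 * 2 ^ j / M) := by
        rw [mul_div_assoc', le_div_iff₀ hM, one_mul]
        have : M * ((1 / 2) ^ j) * 2 ^ j ≤ 2 * w 2 * 2 ^ j :=
          mul_le_mul_of_nonneg_right hw2' (by positivity)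
        have h11 : M * ((1 / 2) ^ j) * 2 ^ j = M := by
          rw [mul_assoc, mul_comm ((1 / 2 : ℝ) ^ j), h2j, mul_one]
        linarith
      have h12 : 2 * (B * w 2) ^ 2 ≤ w 2 * (2 * B ^ 2 * M) := by
        have : w 2 * w 2 ≤ w 2 * M := mul_le_mul_of_nonneg_left h2 h1.le
        nlinarith [sq_nonneg B, mul_le_mul_of_nonneg_left this (sq_nonneg B)]
      have h13 : w 2 * w 3 ≤ w 2 * (2 * 2 ^ j / M + 2 * B ^ 2 * M) := by
        rw [mul_add]; linarith
      exact le_of_mul_le_mul_left h13 h1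
    constructor
    · intro i
      fin_cases i
      · show -(B * (M * (1 / 2) ^ j)) ≤ w 0
        linarith
      · show -(B * (M * (1 / 2) ^ j)) ≤ w 1
        linarith
      · show 0 ≤ w 2
        exact h1.le
      · show 0 ≤ w 3
        exact h6
    · intro i
      fin_cases i
      · show w 0 ≤ B * (M * (1 / 2) ^ j)
        linarith
      · show w 1 ≤ B * (M * (1 / 2) ^ j)
        linarith
      · show w 2 ≤ M * (1 / 2) ^ j
        exact hw2
      · show w 3 ≤ 2 * 2 ^ j / M + 2 * B ^ 2 * M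
        exact hw3
  set C : ℝ := 4 * B ^ 2 * M ^ 3 * (2 / M + 2 * B ^ 2 * M) with hC
  have hCpos : 0 ≤ C := by positivity
  have hbox : ∀ j : ℕ, volume (Set.Icc (lo j) (hi j)) ≤ ENNReal.ofReal (C * (1 / 4) ^ j) := by
    intro j
    rw [Real.volume_Icc_pi, Fin.prod_univ_four]
    have e0 : hi j 0 - lo j 0 = 2 * (B * (M * (1 / 2) ^ j)) := by
      show B * (M * (1 / 2) ^ j) - -(B * (M * (1 / 2) ^ j)) = _
      ring
    have e1 : hi j 1 - lo j 1 = 2 * (B * (M * (1 / 2) ^ j)) := by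
      show B * (M * (1 / 2) ^ j) - -(B * (M * (1 / 2) ^ j)) = _
      ring
    have e2 : hi j 2 - lo j 2 = M * (1 / 2) ^ j := by
      show M * (1 / 2) ^ j - 0 = _
      ring
    have e3 : hi j 3 - lo j 3 = 2 * 2 ^ j / M + 2 * B ^ 2 * M := by
      show 2 * 2 ^ j / M + 2 * B ^ 2 * M - 0 = _
      ring
    rw [e0, e1, e2, e3]
    have p0 : (0 : ℝ) ≤ 2 * (B * (M * (1 / 2) ^ j)) := by positivity
    have p2 : (0 : ℝ) ≤ M * (1 / 2) ^ j := by positivity
    rw [← ENNReal.ofReal_mul p0, ← ENNReal.ofReal_mul (by positivity),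
      ← ENNReal.ofReal_mul (by positivity)]
    apply ENNReal.ofReal_le_ofReal
    have h2j : (2 : ℝ) ^ j * (1 / 2) ^ j = 1 := by rw [← mul_pow]; norm_num
    have h4j : ((1 : ℝ) / 2) ^ j * (1 / 2) ^ j = (1 / 4) ^ j := by rw [← mul_pow]; norm_num
    have hpow1 : ((1 : ℝ) / 2) ^ j ≤ 1 := pow_le_one₀ (by norm_num) (by norm_num)
    have h4pos : (0 : ℝ) < (1 / 4) ^ j := by positivity
    have e : 2 * (B * (M * (1 / 2) ^ j)) * (2 * (B * (M * (1 / 2) ^ j))) * (M * (1 / 2) ^ j) *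
        (2 * 2 ^ j / M + 2 * B ^ 2 * M) =
        4 * B ^ 2 * M ^ 3 * ((1 / 2) ^ j * (1 / 2) ^ j) *
          ((2 ^ j * (1 / 2) ^ j) * (2 / M) + (1 / 2) ^ j * (2 * B ^ 2 * M)) := by
      ring
    rw [e, h2j, h4j, hC, one_mul]
    have h5 : (1 / 2 : ℝ) ^ j * (2 * B ^ 2 * M) ≤ 2 * B ^ 2 * M := by
      have : (0 : ℝ) ≤ 2 * B ^ 2 * M := by positivity
      nlinarith
    have h6 : 4 * B ^ 2 * M ^ 3 * (1 / 4) ^ j * (2 / M + (1 / 2) ^ j * (2 * B ^ 2 * M)) ≤
        4 * B ^ 2 * M ^ 3 * (1 / 4) ^ j * (2 / M + 2 * B ^ 2 * M) :=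
      mul_le_mul_of_nonneg_left (by linarith) (by positivity)
    calc _ ≤ _ := h6
      _ = _ := by ring
  have hsum : Summable fun j : ℕ => C * (1 / 4 : ℝ) ^ j :=
    (summable_geometric_of_lt_one (by norm_num) (by norm_num)).mul_left C
  calc volume (cuspBox B M) ≤ volume (⋃ j : ℕ, Set.Icc (lo j) (hi j)) := measure_mono hcover
    _ ≤ ∑' j : ℕ, volume (Set.Icc (lo j) (hi j)) := measure_iUnion_le _
    _ ≤ ∑' j : ℕ, ENNReal.ofReal (C * (1 / 4) ^ j) := ENNReal.tsum_le_tsum hbox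
    _ = ENNReal.ofReal (∑' j : ℕ, C * (1 / 4) ^ j) :=
        (ENNReal.ofReal_tsum_of_nonneg (fun j => by positivity) hsum).symm
    _ < ⊤ := ENNReal.ofReal_lt_top

/-- the linear coordinate change `v ↦ (x, y - 4 c s, t - 8 c y + 16 c² s, s)` for the finite cusps -/
noncomputable def Lc (c : ℝ) : (Fin 4 → ℝ) →ₗ[ℝ] (Fin 4 → ℝ) where
  toFun v := ![v 0, v 1 - 4 * c * (v 3 - v 2),
    (v 3 + v 2) - 8 * c * v 1 + 16 * c ^ 2 * (v 3 - v 2), v 3 - v 2]
  map_add' v w := by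
    ext i; fin_cases i <;> simp <;> ring
  map_smul' r v := by
    ext i; fin_cases i <;> simp <;> ring

/-- the linear coordinate change `v ↦ (x, y, s, t)` -/
noncomputable def Li : (Fin 4 → ℝ) →ₗ[ℝ] (Fin 4 → ℝ) where
  toFun v := ![v 0, v 1, v 3 - v 2, v 3 + v 2]
  map_add' v w := by
    ext i; fin_cases i <;> simp <;> ring
  map_smul' r v := by
    ext i; fin_cases i <;> simp <;> ring

lemma Li_vc (x y s t : ℝ) : Li (vc x y s t) = ![x, y, s, t] := by
  ext i
  fin_cases i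
  · rfl
  · rfl
  · show (t + s) / 2 - (t - s) / 2 = s
    ring
  · show (t + s) / 2 + (t - s) / 2 = t
    ring

lemma Lc_vc (c x y s t : ℝ) : Lc c (vc x y s t) =
    ![x, y - 4 * c * s, t - 8 * c * y + 16 * c ^ 2 * s, s] := by
  ext i
  fin_cases i
  · rfl
  · show y - 4 * c * ((t + s) / 2 - (t - s) / 2) = y - 4 * c * s
    ring
  · show ((t + s) / 2 + (t - s) / 2) - 8 * c * y + 16 * c ^ 2 * ((t + s) / 2 - (t - s) / 2) =
      t - 8 * c * y + 16 * c ^ 2 * s
    ring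
  · show (t + s) / 2 - (t - s) / 2 = s
    ring

lemma Li_det : LinearMap.det Li ≠ 0 := by
  have hinj : Function.Injective Li := by
    intro v w h
    rw [vc_eq v, vc_eq w, Li_vc, Li_vc] at h
    have h0 := congrFun h 0
    have h1 := congrFun h 1
    have h2 := congrFun h 2
    have h3 := congrFun h 3
    simp at h0 h1 h2 h3
    rw [vc_eq v, vc_eq w, h0, h1, h2, h3]
  have : IsUnit (LinearMap.det Li) := by
    have h1 := (LinearEquiv.ofInjectiveEndo Li hinj).isUnit_det'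
    exact h1
  exact this.ne_zero

lemma Lc_det (c : ℝ) : LinearMap.det (Lc c) ≠ 0 := by
  have hinj : Function.Injective (Lc c) := by
    intro v w h
    rw [vc_eq v, vc_eq w, Lc_vc, Lc_vc] at h
    have h0 := congrFun h 0
    have h1 := congrFun h 1
    have h2 := congrFun h 2
    have h3 := congrFun h 3
    simp at h0 h1 h2 h3
    rw [h3] at h1 h2
    have h4 : v 1 = w 1 := by linarith
    rw [h4] at h2
    have h5 : v 3 + v 2 = w 3 + w 2 := by linarith
    rw [vc_eq v, vc_eq w, h0, h4, h3, h5]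
  have : IsUnit (LinearMap.det (Lc c)) := by
    have h1 := (LinearEquiv.ofInjectiveEndo (Lc c) hinj).isUnit_det'
    exact h1
  exact this.ne_zero

lemma preimage_lt_top {L : (Fin 4 → ℝ) →ₗ[ℝ] (Fin 4 → ℝ)} (hL : LinearMap.det L ≠ 0)
    {S : Set (Fin 4 → ℝ)} (hS : volume S < ⊤) : volume (L ⁻¹' S) < ⊤ := by
  rw [Measure.addHaar_preimage_linearMap _ hL]
  exact ENNReal.mul_lt_top ENNReal.ofReal_lt_top hS

lemma est_A {X D u ρ : ℝ} (h0 : 0 ≤ X) (h1 : X ≤ 1) (h2 : X ≤ u / 2) (h3 : D ^ 2 ≤ 4)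
    (h4 : D ^ 2 ≤ (u / 4) ^ 2) (hu : u = X ^ 2 + D ^ 2 + ρ) (hρ : 0 < ρ) (hρ2 : ρ ≤ 1 / 9) :
    u ≤ 8 / 3 * ρ := by
  have hX2 : X ^ 2 ≤ (u / 2) ^ 2 := pow_le_pow_left₀ h0 h2 2
  have hX1 : X ^ 2 ≤ 1 := pow_le_one₀ h0 h1
  have hu0 : 0 < u := by rw [hu]; positivity
  rcases le_or_gt u 2 with hc | hc
  · nlinarith
  · exfalso
    rcases le_or_gt u 8 with hc2 | hc2
    · nlinarith [mul_nonneg (sub_nonneg.2 hc.le) (sub_nonneg.2 hc2)]
    · linarith

lemma est_B {X D u ρ : ℝ} (h0 : 0 ≤ X) (h1 : X ≤ 1) (h2 : X ≤ u / 2) (h3 : D ^ 2 ≤ 1 / 4)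
    (h4 : D ^ 2 ≤ u ^ 2) (hu : u = X ^ 2 + D ^ 2 + ρ) (hρ : 0 < ρ) (hρ2 : ρ ≤ 1 / 9) :
    u ≤ 8 / 3 * ρ := by
  have hX2 : X ^ 2 ≤ (u / 2) ^ 2 := pow_le_pow_left₀ h0 h2 2
  have hX1 : X ^ 2 ≤ 1 := pow_le_one₀ h0 h1
  have hu0 : 0 < u := by rw [hu]; positivity
  rcases le_or_gt u (1 / 2) with hc | hc
  · nlinarith
  · exfalso
    rcases le_or_gt u 2 with hc2 | hc2
    · nlinarith [mul_nonneg (sub_nonneg.2 hc.le) (sub_nonneg.2 hc2)]
    · linarith

/-- the chamber is covered by finitely many cusp regions -/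
lemma cover {m : ℕ} {x y s t : ℝ} (hc : vc x y s t ∈ Cham (wl m)) (hs : 0 < s)
    (hr : 0 < s * t - x ^ 2 - y ^ 2) (hr1 : s * t - x ^ 2 - y ^ 2 ≤ 1) :
    vc x y s t ∈ Li ⁻¹' cuspBox (4 * m + 2) 3 ∨
      ∃ i : Fin (m + 1), vc x y s t ∈ (Lc (i : ℕ)) ⁻¹' cuspBox 1 3 := by
  have hm : (0 : ℝ) ≤ m := Nat.cast_nonneg m
  rw [cham_iff] at hc
  obtain ⟨h0, h1, h2, h3, h4, h5, h6⟩ := hc
  have ht : 0 < t := by
    have h7 : 0 < s * t := by nlinarith [sq_nonneg x, sq_nonneg y]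
    exact pos_of_mul_pos_right h7 hs.le
  by_cases hs3 : s ≤ 3
  · left
    rw [Set.mem_preimage, Li_vc]
    refine ⟨hs, hs3, ?_, ?_, hr1, ht.le⟩
    · show |x| ≤ (4 * m + 2) * s
      rw [abs_of_nonneg h0]
      nlinarith
    · show |y| ≤ (4 * m + 2) * s
      rw [abs_le]
      constructor
      · nlinarith
      · exact h3
  · right
    push Not at hs3
    -- generic facts for a cusp
    have fact : ∀ i : ℕ, i ≤ m →
        x ≤ (t - 8 * i * y + 16 * (i : ℝ) ^ 2 * s) / 2 ∧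
        |y - 4 * i * s| ≤ t - 8 * i * y + 16 * (i : ℝ) ^ 2 * s ∧
        (t - 8 * i * y + 16 * (i : ℝ) ^ 2 * s) * s =
          x ^ 2 + (y - 4 * i * s) ^ 2 + (s * t - x ^ 2 - y ^ 2) := by
      intro i hi
      have a5 := h5 i hi
      have a6 := h6 i hi
      refine ⟨by linarith, ?_, by ring⟩
      rw [abs_le]
      constructor
      · rcases Nat.eq_zero_or_pos i with h7 | h7
        · subst h7
          simp only [Nat.cast_zero]
          norm_num
          linarith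
        · have a7 := h6 (i - 1) (by omega)
          rw [Nat.cast_sub h7] at a7
          push_cast at a7
          nlinarith
      · have : 4 * (y - 4 * i * s) ≤ t - 8 * i * y + 16 * (i : ℝ) ^ 2 * s := by linarith
        have hnn : 0 ≤ t - 8 * i * y + 16 * (i : ℝ) ^ 2 * s := by linarith
        linarith
    have fin : ∀ i : ℕ, i ≤ m →
        (t - 8 * i * y + 16 * (i : ℝ) ^ 2 * s) ≤ 3 →
        ∃ i : Fin (m + 1), vc x y s t ∈ (Lc (i : ℕ)) ⁻¹' cuspBox 1 3 := by
      intro i hi hle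
      obtain ⟨f1, f2, f3⟩ := fact i hi
      refine ⟨⟨i, Nat.lt_succ_iff.2 hi⟩, ?_⟩
      rw [Set.mem_preimage, Lc_vc]
      have hpos : 0 < t - 8 * i * y + 16 * (i : ℝ) ^ 2 * s := by
        have : 0 < (t - 8 * i * y + 16 * (i : ℝ) ^ 2 * s) * s := by
          rw [f3]; positivity
        exact pos_of_mul_pos_left this hs.le
      refine ⟨hpos, hle, ?_, ?_, ?_, hs.le⟩
      · show |x| ≤ 1 * (t - 8 * i * y + 16 * (i : ℝ) ^ 2 * s)
        rw [abs_of_nonneg h0]; linarith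
      · show |y - 4 * i * s| ≤ 1 * (t - 8 * i * y + 16 * (i : ℝ) ^ 2 * s)
        linarith
      · show (t - 8 * i * y + 16 * (i : ℝ) ^ 2 * s) * s - x ^ 2 - (y - 4 * i * s) ^ 2 ≤ 1
        linarith
    -- normalised quantities
    set X := x / s with hX
    set ρ := (s * t - x ^ 2 - y ^ 2) / s ^ 2 with hρ
    have hρ0 : 0 < ρ := by positivity
    have hρ1 : ρ ≤ 1 / 9 := by
      rw [hρ, div_le_div_iff₀ (by positivity) (by norm_num)]
      nlinarith
    have hX0 : 0 ≤ X := by positivity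
    have hX1 : X ≤ 1 := by rw [hX, div_le_one hs]; exact h1
    have ex : x = s * X := by rw [hX]; field_simp
    have concl : ∀ i : ℕ, i ≤ m →
        (t - 8 * i * y + 16 * (i : ℝ) ^ 2 * s) / s ≤ 8 / 3 * ρ →
        ∃ i : Fin (m + 1), vc x y s t ∈ (Lc (i : ℕ)) ⁻¹' cuspBox 1 3 := by
      intro i hi hle
      apply fin i hi
      rw [div_le_iff₀ hs] at hle
      have : 8 / 3 * ρ * s ≤ 3 := by
        have e : 8 / 3 * ρ * s = 8 / 3 * (s * t - x ^ 2 - y ^ 2) / s := by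
          rw [hρ]; field_simp
        rw [e, div_le_iff₀ hs]
        linarith
      linarith
    set Y := y / s with hY
    have ey : y = s * Y := by rw [hY]; field_simp
    have hY1 : -(1 / 2) ≤ Y := by rw [hY, le_div_iff₀ hs]; linarith
    have hY2 : Y ≤ 4 * m + 2 := by rw [hY, div_le_iff₀ hs]; exact h3
    have hu : ∀ i : ℕ, (t - 8 * i * y + 16 * (i : ℝ) ^ 2 * s) / s =
        X ^ 2 + (Y - 4 * i) ^ 2 + ρ := by
      intro i
      rw [hX, hY, hρ]
      field_simp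
      ring
    rcases lt_or_ge Y 0 with hYneg | hYpos
    · apply concl 0 (Nat.zero_le m)
      obtain ⟨f1, f2, f3⟩ := fact 0 (Nat.zero_le m)
      have e0 := hu 0
      set u := (t - 8 * ((0 : ℕ) : ℝ) * y + 16 * ((0 : ℕ) : ℝ) ^ 2 * s) / s with hudef
      have g1 : X ≤ u / 2 := by
        rw [hX, hudef, div_div, mul_comm s 2, ← div_div]
        exact div_le_div_of_nonneg_right f1 hs.le
      have g2 : |Y - 4 * ((0 : ℕ) : ℝ)| ≤ u := by
        have : Y - 4 * ((0 : ℕ) : ℝ) = (y - 4 * ((0 : ℕ) : ℝ) * s) / s := by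
          rw [hY]; field_simp
        rw [this, abs_div, abs_of_pos hs, hudef]
        exact div_le_div_of_nonneg_right f2 hs.le
      refine est_B hX0 hX1 g1 (D := Y - 4 * ((0 : ℕ) : ℝ)) ?_ ?_ e0 hρ0 hρ1
      · have : Y - 4 * ((0 : ℕ) : ℝ) = Y := by simp
        rw [this]
        nlinarith
      · rw [← sq_abs]
        exact pow_le_pow_left₀ (abs_nonneg _) g2 2
    · -- choose the nearest cusp
      obtain ⟨i, hi, hiY⟩ : ∃ i : ℕ, i ≤ m ∧ |Y - 4 * i| ≤ 2 := by
        set j : ℕ := ⌊Y / 4⌋₊ with hj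
        have hj1 : (j : ℝ) ≤ Y / 4 := Nat.floor_le (by positivity)
        have hj2 : Y / 4 < j + 1 := Nat.lt_floor_add_one _
        rcases le_or_gt (Y - 4 * j) 2 with hcc | hcc
        · refine ⟨j, ?_, ?_⟩
          · have : (j : ℝ) < m + 1 := by linarith
            have h4 : j < m + 1 := by exact_mod_cast this
            omega
          · rw [abs_le]; constructor <;> linarith
        · refine ⟨j + 1, ?_, ?_⟩
          · have : (j : ℝ) < m := by linarith
            exact_mod_cast this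
          · push_cast
            rw [abs_le]; constructor <;> linarith
      apply concl i hi
      obtain ⟨f1, f2, f3⟩ := fact i hi
      have e0 := hu i
      set u := (t - 8 * (i : ℝ) * y + 16 * (i : ℝ) ^ 2 * s) / s with hudef
      have g1 : X ≤ u / 2 := by
        rw [hX, hudef, div_div, mul_comm s 2, ← div_div]
        exact div_le_div_of_nonneg_right f1 hs.le
      have hnn : 0 ≤ u := by linarith
      have g2 : 4 * |Y - 4 * (i : ℝ)| ≤ u := by
        have e1 : Y - 4 * (i : ℝ) = (y - 4 * (i : ℝ) * s) / s := by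
          rw [hY]; field_simp
        rw [e1, abs_div, abs_of_pos hs, hudef, mul_div_assoc']
        apply div_le_div_of_nonneg_right _ hs.le
        have a6 := h6 i hi
        have b1 : 4 * (y - 4 * i * s) ≤ t - 8 * i * y + 16 * (i : ℝ) ^ 2 * s := by linarith
        have b2 : -(4 * (y - 4 * i * s)) ≤ t - 8 * i * y + 16 * (i : ℝ) ^ 2 * s := by
          rcases Nat.eq_zero_or_pos i with h7 | h7
          · subst h7
            simp only [Nat.cast_zero]
            have : 0 ≤ y := by rw [ey]; positivity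
            nlinarith
          · have a7 := h6 (i - 1) (by omega)
            rw [Nat.cast_sub h7] at a7
            push_cast at a7
            nlinarith
        rcases abs_cases (y - 4 * (i : ℝ) * s) with ⟨h8, _⟩ | ⟨h8, _⟩ <;> rw [h8] <;> linarith
      refine est_A hX0 hX1 g1 (D := Y - 4 * (i : ℝ)) ?_ ?_ e0 hρ0 hρ1
      · rw [← sq_abs]
        have := pow_le_pow_left₀ (abs_nonneg _) hiY 2
        linarith
      · rw [← sq_abs]
        exact pow_le_pow_left₀ (abs_nonneg _) (by linarith) 2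

/-- the closed chamber in hyperbolic space -/
def PP (m : ℕ) : Set (Fin (3 + 1) → ℝ) := Hyp 3 ∩ Cham (wl m)

lemma measurable_PP (m : ℕ) : MeasurableSet (PP m) := by
  apply MeasurableSet.inter
  · apply MeasurableSet.inter
    · exact (isClosed_eq continuous_mink_self continuous_const).measurableSet
    · exact (isOpen_lt continuous_const (continuous_apply _)).measurableSet
  · have : Cham (wl m) = ⋂ i, {x | 0 ≤ mink x (wl m i)} := by
      ext x; simp [Cham]
    rw [this]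
    exact (isClosed_iInter fun i =>
      isClosed_le continuous_const (continuous_mink_left _)).measurableSet

theorem hypVol_PP (m : ℕ) : hypVol 3 (PP m) < ⊤ := by
  unfold hypVol
  apply ENNReal.mul_lt_top (by norm_num)
  have hsub : {v : Fin (3 + 1) → ℝ | ∃ x ∈ PP m, ∃ r : ℝ, 0 < r ∧ r ≤ 1 ∧ v = r • x} ⊆
      Li ⁻¹' cuspBox (4 * m + 2) 3 ∪ ⋃ i : Fin (m + 1), (Lc (i : ℕ)) ⁻¹' cuspBox 1 3 := by
    rintro v ⟨x, ⟨hx1, hx2⟩, r, hr0, hr1, rfl⟩
    obtain ⟨a, b, s, t, rfl⟩ := exists_vc x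
    have hs : 0 < s := by
      have := mink_neg qi_fwd (fwd_of_hyp hx1) (by rw [hx1.1]; norm_num)
      rw [mink_comm, mink_vc_qi] at this
      linarith
    have hform : s * t - a ^ 2 - b ^ 2 = 1 := by
      have := hx1.1
      rw [mink_vc] at this
      linarith
    have hch : vc (r * a) (r * b) (r * s) (r * t) ∈ Cham (wl m) := by
      intro i
      rw [← vc_smul, mink_smul_left]
      exact mul_nonneg hr0.le (hx2 i)
    have hval : r * s * (r * t) - (r * a) ^ 2 - (r * b) ^ 2 = r ^ 2 := by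
      have : r * s * (r * t) - (r * a) ^ 2 - (r * b) ^ 2 = r ^ 2 * (s * t - a ^ 2 - b ^ 2) := by
        ring
      rw [this, hform, mul_one]
    rw [vc_smul]
    rcases cover hch (mul_pos hr0 hs) (by rw [hval]; positivity)
      (by rw [hval]; exact pow_le_one₀ hr0.le hr1) with h | ⟨i, h⟩
    · left; exact h
    · right; exact Set.mem_iUnion.2 ⟨i, h⟩
  refine lt_of_le_of_lt (measure_mono hsub) ?_
  apply measure_union_lt_top
  · exact preimage_lt_top Li_det (cuspBox_lt_top (by positivity) (by norm_num))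
  · refine lt_of_le_of_lt (measure_iUnion_le _) ?_
    rw [tsum_fintype]
    exact ENNReal.sum_lt_top.2 fun i _ =>
      preimage_lt_top (Lc_det _) (cuspBox_lt_top (by norm_num) (by norm_num))

end Pool.Agent.H851R2
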