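import Pool.Agent.H851R2.QMaster
import Pool.Agent.H851R2.QVol

set_option autoImplicit false

namespace Pool.Agent.H851R2

open Matrix MeasureTheory
open Pool.Agent.Helper613.DH

theorem isReflectionGroup_Gam (m : ℕ) : IsReflectionGroup 3 (Gam m) where
  isom := fun A hA => iso_Gam hA
  discrete := topo_of_disc (disc_Gam m)
  covol := by
    refine ⟨PP m, Set.inter_subset_left, measurable_PP m, hypVol_PP m, ?_⟩
    intro x hx
    obtain ⟨A, hA, hA2⟩ := exists_mem_cham (e := wl m) (he := wl_unit m) y0_mem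
      (fun i => lt_of_lt_of_le (by norm_num) (y0_wl m i)) (disc_Gam m) hx
    exact ⟨A, hA, iso_hyp (iso_Gam hA) hx, hA2⟩
  gen := by
    apply le_antisymm
    · rw [Subgroup.closure_le]
      rintro A ⟨hA, -⟩
      exact hA
    · unfold Gam RG
      rw [Subgroup.closure_le]
      rintro _ ⟨i, rfl⟩
      exact Subgroup.subset_closure ⟨Subgroup.subset_closure ⟨i, rfl⟩, isReflection_Rm _⟩

theorem isMaximal_Gam {m : ℕ} (hm : 1 ≤ m) : IsMaximalReflectionGroup 3 (Gam m) :=
  ⟨isReflectionGroup_Gam m, fun Γ' h hle => maximal hm hle h.isom (disc_of_topo h.isom h.discrete)⟩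

/-- the matrix is rational -/
def RatM (M : Matrix (Fin (3 + 1)) (Fin (3 + 1)) ℝ) : Prop :=
  ∃ B : Matrix (Fin (3 + 1)) (Fin (3 + 1)) ℚ, M = B.map (Rat.castHom ℝ)

lemma ratM_mul {M M' : Matrix (Fin (3 + 1)) (Fin (3 + 1)) ℝ} (h : RatM M) (h' : RatM M') :
    RatM (M * M') := by
  obtain ⟨B, rfl⟩ := h
  obtain ⟨B', rfl⟩ := h'
  exact ⟨B * B', (Matrix.map_mul).symm⟩

lemma ratM_one : RatM 1 := ⟨1, by rw [Matrix.map_one _ (map_zero _) (map_one _)]⟩

lemma ratM_Rm {e : Fin (3 + 1) → ℝ} (he : mink e e = 1) (q : Fin (3 + 1) → ℚ)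
    (hq : ∀ i, e i = q i) : RatM (Rm e he).1 := by
  refine ⟨fun i j => (if i = j then 1 else 0) - 2 * (if j = Fin.last 3 then - q j else q j) * q i, ?_⟩
  ext i j
  rw [entry_eq, ac_Rm]
  have h1 : mink (Pi.single j 1) e = if j = Fin.last 3 then - e j else e j := by
    revert j
    refine Fin.lastCases ?_ ?_
    · rw [if_pos rfl, mink_comm]
      exact mink_eT e
    · intro j
      rw [mink_single_space, if_neg (Fin.castSucc_lt_last j).ne]
  rw [h1, Pi.sub_apply, Pi.smul_apply, smul_eq_mul, Matrix.map_apply, hq i, hq j,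
    Pi.single_apply]
  simp only [map_sub, map_mul]
  split_ifs <;> simp

lemma rat_vc {x y s t : ℝ} (a b c d : ℚ) (hx : x = a) (hy : y = b) (hs : s = c) (ht : t = d) :
    ∃ q : Fin (3 + 1) → ℚ, ∀ i, vc x y s t i = q i := by
  refine ⟨![a, b, (d - c) / 2, (d + c) / 2], fun i => ?_⟩
  subst hx hy hs ht
  fin_cases i
  · rfl
  · rfl
  · show ((d : ℝ) - c) / 2 = (((d - c) / 2 : ℚ) : ℝ)
    push_cast; ring
  · show ((d : ℝ) + c) / 2 = (((d + c) / 2 : ℚ) : ℝ)
    push_cast; ring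

lemma rat_wl (m : ℕ) (i : Wi m) : ∃ q : Fin (3 + 1) → ℚ, ∀ k, wl m i k = q k := by
  rcases i with i | i | i
  · fin_cases i
    · exact rat_vc 1 0 0 0 (by norm_num) (by norm_num) (by norm_num) (by norm_num)
    · exact rat_vc (-1) 0 0 (-2) (by norm_num) (by norm_num) (by norm_num) (by norm_num)
    · exact rat_vc 0 1 0 (-1) (by norm_num) (by norm_num) (by norm_num) (by norm_num)
    · exact rat_vc 0 (-1) 0 (-(8 * m + 4)) (by norm_num) (by norm_num) (by norm_num)
        (by push_cast; ring)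
    · exact rat_vc 0 1 (-2) 0 (by norm_num) (by norm_num) (by norm_num) (by norm_num)
  · exact rat_vc (-1) (-(4 * (i : ℕ))) (-1) (-(16 * ((i : ℕ) : ℚ) ^ 2)) (by norm_num)
      (by push_cast; ring) (by norm_num) (by push_cast; ring)
  · exact rat_vc 0 (-(2 * (i : ℕ) + 1)) (-(1 / 2)) (-(8 * ((i : ℕ) : ℚ) ^ 2 + 8 * (i : ℕ)))
      (by norm_num) (by push_cast; ring) (by push_cast; ring) (by push_cast; ring)

lemma ratM_Gam {m : ℕ} {A : GG 3} (hA : A ∈ Gam m) : RatM A.1 := by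
  obtain ⟨l, rfl⟩ := exists_word hA
  induction l with
  | nil => exact ratM_one
  | cons i l ih =>
    rw [wprod_cons]
    obtain ⟨q, hq⟩ := rat_wl m i
    exact ratM_mul (ratM_Rm _ q hq) (ih (wprod_mem l))

/-- the standard form -/
def f3 : Matrix (Fin (3 + 1)) (Fin (3 + 1)) ℚ := Matrix.diagonal ![1, 1, 1, -1]

lemma f3_mink (x y : Fin (3 + 1) → ℝ) :
    x ⬝ᵥ ((f3.map (Rat.castHom ℝ)) *ᵥ y) = mink x y := by
  rw [mink3]
  have h : f3.map (Rat.castHom ℝ) = Matrix.diagonal ![1, 1, 1, -1] := by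
    unfold f3
    rw [Matrix.diagonal_map (map_zero _)]
    congr 1
    ext i
    fin_cases i <;> simp
  rw [h]
  have h4 : x ⬝ᵥ (Matrix.diagonal ![1, 1, 1, -1] *ᵥ y) =
      x 0 * (1 * y 0) + x 1 * (1 * y 1) + x 2 * (1 * y 2) + x 3 * (-1 * y 3) := by
    unfold dotProduct
    simp only [Matrix.mulVec_diagonal]
    exact Fin.sum_univ_four (fun i : Fin 4 => x i * ((![1, 1, 1, -1] : Fin 4 → ℝ) i * y i))
  rw [h4]
  ring

theorem isQuasiArithmetic_Gam (m : ℕ) : IsQuasiArithmetic 3 (Gam m) := by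
  refine ⟨ℚ, inferInstance, inferInstance, inferInstance, Rat.castHom ℝ, f3, 1, ?_, ?_, ?_, ?_⟩
  · unfold f3
    rw [Matrix.diagonal_transpose]
  · intro σ hσ
    exact absurd (Subsingleton.elim _ _) hσ
  · intro x y
    have h : ∀ z : Fin (3 + 1) → ℝ, (1 : GG 3).1 *ᵥ z = z := fun z => ac_one z
    rw [h, h, f3_mink]
  · intro A hA
    obtain ⟨B, hB⟩ := ratM_Gam hA
    refine ⟨B, ?_, Or.inl ?_⟩
    · have hiso := iso_Gam hA
      -- both sides agree after mapping to the reals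
      have h1 : (Bᵀ * f3 * B).map (Rat.castHom ℝ) = f3.map (Rat.castHom ℝ) := by
        rw [Matrix.map_mul, Matrix.map_mul, Matrix.transpose_map, ← hB]
        have h2 : ∀ x y : Fin (3 + 1) → ℝ,
            x ⬝ᵥ ((A.1ᵀ * f3.map (Rat.castHom ℝ) * A.1) *ᵥ y) =
            x ⬝ᵥ ((f3.map (Rat.castHom ℝ)) *ᵥ y) := by
          intro x y
          rw [f3_mink, ← Matrix.mulVec_mulVec, ← Matrix.mulVec_mulVec, Matrix.dotProduct_mulVec,
            Matrix.vecMul_transpose, f3_mink]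
          exact iso_mink hiso x y
        ext i j
        have h3 := h2 (Pi.single i 1) (Pi.single j 1)
        simpa using h3
      exact Matrix.map_injective (Rat.castHom ℝ).injective h1
    · rw [one_mul, inv_one, mul_one]
      exact hB

end Pool.Agent.H851R2
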