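import Pool.Agent.H851R2.QShim

set_option autoImplicit false

/-!
# The translation lattice at the cusp at infinity
-/

namespace Pool.Agent.H851R2

open Matrix
open Pool.Agent.Helper613.DH

variable {N : Subgroup (GG 3)}

/-- `N` contains the translation by `(a, b)` at the cusp `qi` -/
def Tr (N : Subgroup (GG 3)) (a b : ℝ) : Prop := ∃ A ∈ N, IsPb A qi (vc a b 0 0)

/-- `v` lies in the orbit of the null vector `qi` -/
def Orb (N : Subgroup (GG 3)) (v : Fin (3 + 1) → ℝ) : Prop := ∃ A ∈ N, ac A qi = v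

lemma vc0_qi (a b : ℝ) : mink (vc a b 0 0) qi = 0 := by rw [mink_vc_qi]; ring

lemma Tr.add {a b a' b' : ℝ} (h : Tr N a b) (h' : Tr N a' b') : Tr N (a + a') (b + b') := by
  obtain ⟨A, hA, hA2⟩ := h
  obtain ⟨B, hB, hB2⟩ := h'
  refine ⟨A * B, N.mul_mem hA hB, ?_⟩
  have := hA2.mul hB2 qi_null (vc0_qi _ _) (vc0_qi _ _)
  rw [vc_add] at this
  simpa using this

lemma Tr.neg {a b : ℝ} (h : Tr N a b) : Tr N (-a) (-b) := by
  obtain ⟨A, hA, hA2⟩ := h
  refine ⟨A⁻¹, N.inv_mem hA, ?_⟩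
  have := hA2.inv qi_null (vc0_qi _ _)
  rw [vc_neg] at this
  simpa using this

lemma Tr.zero : Tr N 0 0 := by
  refine ⟨1, N.one_mem, ?_⟩
  have h : vc 0 0 0 0 = 0 := by ext i; fin_cases i <;> simp [vc]
  rw [h]
  exact IsPb.one qi

lemma Tr.sub {a b a' b' : ℝ} (h : Tr N a b) (h' : Tr N a' b') : Tr N (a - a') (b - b') := by
  rw [sub_eq_add_neg, sub_eq_add_neg]; exact h.add h'.neg

lemma Tr.nsmul {a b : ℝ} (h : Tr N a b) (k : ℕ) : Tr N (k * a) (k * b) := by
  induction k with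
  | zero => simpa using (Tr.zero (N := N))
  | succ k ih =>
    have := ih.add h
    push_cast
    rw [add_mul, add_mul, one_mul, one_mul]
    exact this

lemma Tr.zsmul {a b : ℝ} (h : Tr N a b) (k : ℤ) : Tr N (k * a) (k * b) := by
  rcases Int.eq_nat_or_neg k with ⟨m, rfl | rfl⟩
  · exact_mod_cast h.nsmul m
  · have := (h.nsmul m).neg
    push_cast
    rw [neg_mul, neg_mul]
    exact this

/-- translations act on the points of the plane at infinity -/
lemma pf_qc (t1 t2 a b : ℝ) : pf qi (vc t1 t2 0 0) (qc a b) = qc (a + t1) (b + t2) := by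
  unfold pf
  rw [mink_qc_qi]
  unfold qc qi
  rw [mink_vc, mink_vc, vc_smul, vc_smul, vc_smul, vc_sub, vc_add, vc_sub]
  congr 1 <;> ring

lemma Orb.tr {a b t1 t2 r : ℝ} (h : Orb N (r • qc a b)) (h' : Tr N t1 t2) :
    Orb N (r • qc (a + t1) (b + t2)) := by
  obtain ⟨A, hA, hA2⟩ := h
  obtain ⟨T, hT, hT2⟩ := h'
  refine ⟨T * A, N.mul_mem hT hA, ?_⟩
  rw [ac_mul, hA2, ac_smul, hT2, pf_qc]

/-- separation of the orbit of the null vector -/
lemma orb_sep (hiso : ∀ A ∈ N, IsIsomHyp 3 A) (hD : Disc N) (hT : Tr N 2 0)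
    {v v' : Fin (3 + 1) → ℝ} (hv : Orb N v) (hv' : Orb N v') :
    mink v v' = 0 ∨ mink v v' ≤ -(1 / 2) := by
  obtain ⟨A, hA, rfl⟩ := hv
  obtain ⟨B, hB, rfl⟩ := hv'
  obtain ⟨T, hT, hT2⟩ := hT
  rw [mink_ac_right (hiso B hB), ← ac_mul]
  exact shimizu hiso hD hT hT2 (vc0_qi _ _) (by rw [mink_vc]; ring) (N.mul_mem (N.inv_mem hB) hA)

lemma half_sep (hiso : ∀ A ∈ N, IsIsomHyp 3 A) (hD : Disc N) (hT : Tr N 2 0) {a b a' b' : ℝ}
    (h : Orb N ((1 / 2 : ℝ) • qc a b)) (h' : Orb N ((1 / 2 : ℝ) • qc a' b')) :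
    (a = a' ∧ b = b') ∨ 4 ≤ (a - a') ^ 2 + (b - b') ^ 2 := by
  have h1 := orb_sep hiso hD hT h h'
  rw [mink_smul_left, mink_smul_right, mink_qc] at h1
  rcases h1 with h1 | h1
  · left
    have h2 : (a - a') ^ 2 + (b - b') ^ 2 = 0 := by linarith
    have h3 := sq_nonneg (a - a')
    have h4 := sq_nonneg (b - b')
    have h5 : (a - a') ^ 2 = 0 := by linarith
    have h6 : (b - b') ^ 2 = 0 := by linarith
    exact ⟨by linarith [pow_eq_zero_iff (two_ne_zero) |>.1 h5],
      by linarith [pow_eq_zero_iff (two_ne_zero) |>.1 h6]⟩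
  · right; linarith

/-- The data on a discrete group used in the analysis of its translation lattice. -/
structure CuspData (m : ℕ) (N : Subgroup (GG 3)) : Prop where
  iso : ∀ A ∈ N, IsIsomHyp 3 A
  disc : Disc N
  tx : Tr N 2 0
  ty : Tr N 0 (8 * m + 5)
  refl : ∀ a b, Tr N a b → Tr N (-a) b
  lo : Orb N ((1 / 2 : ℝ) • qc 0 (-3))
  ctr : ∀ i : ℕ, i ≤ 2 * m → Orb N ((1 / 2 : ℝ) • qc 0 (4 * i + 2))

variable {m : ℕ}

/-- there is no short vector in the lattice except the given ones -/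
lemma no_small (hm : 1 ≤ m) (h : CuspData m N) {t1 t2 : ℝ} (ht1 : t1 = 0 ∨ t1 = 1)
    (h0 : 0 < t2) (h1 : t2 ≤ 4 * m + 5 / 2) (ht : Tr N t1 t2) : False := by
  have hm' : (1 : ℝ) ≤ m := by exact_mod_cast hm
  have hsep : ∀ {b b' : ℝ}, Orb N ((1 / 2 : ℝ) • qc 0 b) → Orb N ((1 / 2 : ℝ) • qc 0 b') →
      (t1 = 0 ∧ b + t2 = b') ∨ 4 ≤ t1 ^ 2 + (b + t2 - b') ^ 2 := by
    intro b b' hb hb'
    have h2 := hb.tr ht
    have h3 := half_sep h.iso h.disc h.tx h2 hb'
    rw [zero_add, sub_zero] at h3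
    exact h3
  -- write t2 = 4 i + v
  set i : ℕ := ⌊t2 / 4⌋₊ with hi
  have hi1 : (i : ℝ) ≤ t2 / 4 := Nat.floor_le (by positivity)
  have hi2 : t2 / 4 < i + 1 := Nat.lt_floor_add_one _
  have him : i ≤ m := by
    have : (i : ℝ) < m + 1 := by linarith
    have h4 : i < m + 1 := by exact_mod_cast this
    omega
  have h4 : Orb N ((1 / 2 : ℝ) • qc 0 (4 * 0 + 2)) := by
    have := h.ctr 0 (by omega)
    exact_mod_cast this
  have h5 := h.ctr i (by omega)
  have h6 : Orb N ((1 / 2 : ℝ) • qc 0 (4 * (i + 1) + 2)) := by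
    have := h.ctr (i + 1) (by omega)
    exact_mod_cast this
  have a1 := hsep h4 h5
  have a2 := hsep h4 h6
  have ht1sq : t1 ^ 2 ≤ 1 := by rcases ht1 with h | h <;> rw [h] <;> norm_num
  -- the element 2 t
  have hdouble : Tr N 0 (2 * t2) := by
    have h7 := ht.add ht
    rcases ht1 with h8 | h8
    · rw [h8] at h7
      have : (0 : ℝ) + 0 = 0 := by norm_num
      rw [this] at h7
      rw [two_mul]; exact h7
    · rw [h8] at h7
      have h9 := h7.sub h.tx
      have : (1 : ℝ) + 1 - 2 = 0 := by norm_num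
      rw [this, sub_zero] at h9
      rw [two_mul]; exact h9
  by_cases hi0 : i = 0
  · -- small vector
    rw [hi0] at a1 a2 hi1 hi2
    simp only [Nat.cast_zero] at a1 a2 hi1 hi2
    have b1 : 4 ≤ t1 ^ 2 + t2 ^ 2 := by
      rcases a1 with ⟨-, h7⟩ | h7
      · exfalso; linarith
      · have : (4 * 0 + 2 + t2 - (4 * 0 + 2)) = t2 := by ring
        rw [this] at h7; exact h7
    have b2 : 4 ≤ t1 ^ 2 + (t2 - 4) ^ 2 := by
      rcases a2 with ⟨-, h7⟩ | h7
      · exfalso; linarith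
      · have : (4 * 0 + 2 + t2 - (4 * (0 + 1) + 2)) = t2 - 4 := by ring
        rw [this] at h7; exact h7
    have c1 : 1.7 ≤ t2 := by nlinarith
    have c2 : t2 ≤ 2.3 := by nlinarith
    have h8 : Orb N ((1 / 2 : ℝ) • qc 0 (4 * 1 + 2)) := by
      have := h.ctr 1 (by omega)
      exact_mod_cast this
    have h9 := half_sep h.iso h.disc h.tx (h4.tr hdouble) h8
    have h10 : t2 = 2 := by
      rcases h9 with ⟨-, h11⟩ | h11
      · linarith
      · exfalso
        have : (0 + 0 - 0 : ℝ) ^ 2 + (4 * 0 + 2 + 2 * t2 - (4 * 1 + 2)) ^ 2 = (2 * t2 - 4) ^ 2 := by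
          ring
        rw [this] at h11
        nlinarith
    rw [h10] at hdouble
    have h11 := half_sep h.iso h.disc h.tx (h.lo.tr hdouble) h4
    rcases h11 with ⟨-, h12⟩ | h12
    · norm_num at h12
    · norm_num at h12
  · have hi3 : 1 ≤ i := by omega
    have h7 : Orb N ((1 / 2 : ℝ) • qc 0 (4 * i - 2)) := by
      have := h.ctr (i - 1) (by omega)
      rw [Nat.cast_sub hi3] at this
      have h8 : (4 * ((i : ℝ) - (1 : ℕ)) + 2) = 4 * i - 2 := by push_cast; ring
      rw [h8] at this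
      exact this
    have a3 := hsep h.lo h7
    set v := t2 - 4 * i with hv
    have hv0 : 0 ≤ v := by linarith
    have hv4 : v < 4 := by linarith
    have e3 : (-3 + t2 - (4 * (i : ℝ) - 2)) = v - 1 := by rw [hv]; ring
    have e1 : (4 * 0 + 2 + t2 - (4 * (i : ℝ) + 2)) = v := by rw [hv]; ring
    have e2 : (4 * 0 + 2 + t2 - (4 * ((i : ℝ) + 1) + 2)) = v - 4 := by rw [hv]; ring
    have d3 : (t1 = 0 ∧ v = 1) ∨ 4 ≤ t1 ^ 2 + (v - 1) ^ 2 := by
      rcases a3 with ⟨h8, h9⟩ | h8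
      · left; exact ⟨h8, by rw [hv]; linarith⟩
      · right; rw [e3] at h8; exact h8
    have d1 : (t1 = 0 ∧ v = 0) ∨ 4 ≤ t1 ^ 2 + v ^ 2 := by
      rcases a1 with ⟨h8, h9⟩ | h8
      · left; exact ⟨h8, by rw [hv]; linarith⟩
      · right; rw [e1] at h8; exact h8
    have d2 : 4 ≤ t1 ^ 2 + (v - 4) ^ 2 := by
      rcases a2 with ⟨h8, h9⟩ | h8
      · exfalso; linarith
      · rw [e2] at h8; exact h8
    have f2 : v ≤ 2.3 := by nlinarith
    rcases d1 with ⟨g1, g2⟩ | g1
    · rcases d3 with ⟨-, g3⟩ | g3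
      · linarith
      · rw [g1, g2] at g3; norm_num at g3
    · have f1 : 1.7 ≤ v := by nlinarith
      rcases d3 with ⟨-, g3⟩ | g3
      · linarith
      · nlinarith

/-- the translation lattice of a discrete group containing the given one -/
theorem lattice (hm : 1 ≤ m) (h : CuspData m N) {t1 t2 : ℝ} (ht : Tr N t1 t2) :
    ∃ k l : ℤ, t1 = 2 * k ∧ t2 = (8 * m + 5) * l := by
  have hm' : (1 : ℝ) ≤ m := by exact_mod_cast hm
  -- short horizontal vectors
  have hhor : ∀ r : ℝ, |r| < 2 → Tr N r 0 → r = 0 := by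
    intro r hr hTr
    have h4 : Orb N ((1 / 2 : ℝ) • qc 0 (4 * 0 + 2)) := by
      have := h.ctr 0 (by omega)
      exact_mod_cast this
    have h5 := half_sep h.iso h.disc h.tx (h4.tr hTr) h4
    rcases h5 with ⟨h6, -⟩ | h6
    · linarith
    · exfalso
      have h7 : r ^ 2 < 4 := by
        have := sq_abs r
        nlinarith [abs_nonneg r]
      have h8 : (0 + r - 0) ^ 2 + (4 * 0 + 2 + 0 - (4 * 0 + 2)) ^ 2 = r ^ 2 := by ring
      rw [h8] at h6
      linarith
  -- t1 is an integer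
  have hz : ∃ z : ℤ, t1 = z := by
    have h1 : Tr N (2 * t1) 0 := by
      have := ht.sub (h.refl _ _ ht)
      rw [sub_neg_eq_add, sub_self] at this
      rw [two_mul]; exact this
    set z : ℤ := round t1 with hz
    have h2 : Tr N (2 * t1 - z * 2) 0 := by
      have := h1.sub (h.tx.zsmul z)
      rw [mul_zero, sub_zero] at this
      exact this
    have h3 : 2 * t1 - z * 2 = 0 := by
      apply hhor _ _ h2
      have h4 : 2 * t1 - z * 2 = 2 * (t1 - z) := by ring
      rw [h4, abs_mul, abs_two]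
      have := abs_sub_round t1
      linarith
    exact ⟨z, by linarith⟩
  obtain ⟨z, hz⟩ := hz
  -- reduce t1 modulo 2
  have hred : ∀ (z : ℤ) (s : ℝ), Tr N z s → ∃ z' : ℤ, (z' = 0 ∨ z' = 1) ∧ (∃ k : ℤ, z = z' + 2 * k) ∧
      Tr N z' s := by
    intro z s hs
    refine ⟨z % 2, Int.emod_two_eq_zero_or_one z, ⟨z / 2, by omega⟩, ?_⟩
    have h1 := hs.sub (h.tx.zsmul (z / 2))
    rw [mul_zero, sub_zero] at h1
    have h2 : ((z : ℝ) - ((z / 2 : ℤ) : ℝ) * 2) = ((z % 2 : ℤ) : ℝ) := by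
      have h3 : z - (z / 2) * 2 = z % 2 := by omega
      exact_mod_cast h3
    rw [h2] at h1
    exact h1
  set p : ℝ := 8 * m + 5 with hp
  have hp0 : 0 < p := by positivity
  set l : ℤ := ⌊t2 / p⌋ with hl
  set s := t2 - p * l with hs
  have hs0 : 0 ≤ s := by
    have := Int.floor_le (t2 / p)
    rw [le_div_iff₀ hp0] at this
    rw [hs]; linarith
  have hsp : s < p := by
    have := Int.lt_floor_add_one (t2 / p)
    rw [div_lt_iff₀ hp0] at this
    rw [hs]; linarith
  have hTs : Tr N t1 s := by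
    have := ht.sub (h.ty.zsmul l)
    rw [mul_zero, sub_zero] at this
    rw [hs, mul_comm p]; exact this
  have hs00 : s = 0 := by
    by_contra hne
    have hpos : 0 < s := lt_of_le_of_ne hs0 (Ne.symm hne)
    by_cases hhalf : s ≤ 4 * m + 5 / 2
    · rw [hz] at hTs
      obtain ⟨z', hz', -, h3⟩ := hred z s hTs
      refine no_small hm h ?_ hpos hhalf h3
      rcases hz' with h4 | h4 <;> rw [h4]
      · left; norm_num
      · right; norm_num
    · push Not at hhalf
      have h1 : Tr N (-t1) (p - s) := by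
        have := h.ty.sub hTs
        rw [zero_sub] at this
        exact this
      rw [hz] at h1
      have h2 : (-(z : ℝ)) = ((-z : ℤ) : ℝ) := by push_cast; ring
      rw [h2] at h1
      obtain ⟨z', hz', -, h3⟩ := hred (-z) (p - s) h1
      refine no_small hm h ?_ (by linarith) (by rw [hp]; linarith) h3
      rcases hz' with h4 | h4 <;> rw [h4]
      · left; norm_num
      · right; norm_num
  rw [hs00, hz] at hTs
  obtain ⟨z', hz', ⟨k, hk⟩, h3⟩ := hred z 0 hTs
  have hz0 : z' = 0 := by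
    rcases hz' with h4 | h4
    · exact h4
    · exfalso
      rw [h4] at h3
      have := hhor _ (by norm_num) h3
      norm_num at this
  refine ⟨k, l, ?_, by linarith⟩
  rw [hz, hk, hz0]
  push_cast; ring

end Pool.Agent.H851R2
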