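import Pool.Agent.H851R2.QStab

set_option autoImplicit false

/-!
# Cusps of the chamber, maximality and non-conjugacy
-/

namespace Pool.Agent.H851R2

open Matrix
open Pool.Agent.Helper613.DH

/-- ideal points of the polygon -/
lemma poly {m : ℕ} {X Y : ℝ} (h0 : 0 ≤ X) (h1 : X ≤ 1) (h2 : -(1 / 2) ≤ Y) (h3 : Y ≤ 4 * m + 2)
    (h4 : 0 ≤ Y + X ^ 2 + Y ^ 2)
    (h5 : ∀ i : ℕ, i ≤ m → 1 ≤ (X - 1) ^ 2 + (Y - 4 * i) ^ 2)
    (h6 : ∀ i : ℕ, i ≤ m → 4 ≤ X ^ 2 + (Y - (4 * i + 2)) ^ 2) :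
    ∃ i : ℕ, i ≤ m ∧ X = 0 ∧ Y = 4 * i := by
  have hXX : X ^ 2 ≤ X := by nlinarith
  rcases lt_or_ge Y 0 with hY | hY
  · exfalso
    have a := h5 0 (Nat.zero_le m)
    simp only [Nat.cast_zero, mul_zero, sub_zero] at a
    -- Y² ≥ 2X - X² ≥ X
    have b : X ≤ Y ^ 2 := by nlinarith
    have b2 : X ^ 2 ≤ (Y ^ 2) ^ 2 := by nlinarith
    set D := -Y with hD
    have hYD : Y = -D := by rw [hD]; ring
    rw [hYD] at h4 b2 h2
    have hDpos : 0 < D := by linarith
    have hD2 : D ≤ 1 / 2 := by linarith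
    have c : D ≤ ((-D) ^ 2) ^ 2 + (-D) ^ 2 := by linarith
    have d : ((-D) ^ 2) ^ 2 + (-D) ^ 2 = D * (D ^ 3 + D) := by ring
    rw [d] at c
    have e : 1 ≤ D ^ 3 + D := by
      by_contra hcon
      push Not at hcon
      nlinarith
    have f : D ^ 3 ≤ 1 / 8 := by
      have : D ^ 3 ≤ (1 / 2) ^ 3 := pow_le_pow_left₀ hDpos.le hD2 3
      linarith
    linarith
  · set j : ℕ := ⌊Y / 4⌋₊ with hj
    have hj1 : (j : ℝ) ≤ Y / 4 := Nat.floor_le (by positivity)
    have hj2 : Y / 4 < j + 1 := Nat.lt_floor_add_one _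
    have hjm : j ≤ m := by
      have : (j : ℝ) < m + 1 := by linarith
      have h4 : j < m + 1 := by exact_mod_cast this
      omega
    have a6 := h6 j hjm
    have key : ∀ D : ℝ, 0 ≤ D → D ≤ 2 → 4 ≤ X ^ 2 + (2 - D) ^ 2 → 1 ≤ (X - 1) ^ 2 + D ^ 2 →
        D = 0 ∧ X = 0 := by
      intro D hD0 hD2 hA hB
      have h7 : X ≤ D ^ 2 := by nlinarith
      have h8 : D ≤ 3 / 10 := by nlinarith
      have h9 : X ^ 2 ≤ (D ^ 2) ^ 2 := by nlinarith
      have h10 : D * (4 - D) ≤ D * D ^ 3 := by nlinarith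
      have h11 : D = 0 := by
        by_contra hne
        have hpos : 0 < D := lt_of_le_of_ne hD0 (Ne.symm hne)
        have h12 : 4 - D ≤ D ^ 3 := le_of_mul_le_mul_left h10 hpos
        have h13 : D ^ 3 ≤ (3 / 10) ^ 3 := pow_le_pow_left₀ hD0 h8 3
        norm_num at h13
        linarith
      refine ⟨h11, ?_⟩
      rw [h11] at h7
      norm_num at h7
      linarith
    rcases le_or_gt (Y - 4 * j) 2 with hc | hc
    · obtain ⟨k1, k2⟩ := key (Y - 4 * j) (by linarith) hc (by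
        have : (2 - (Y - 4 * (j : ℝ))) ^ 2 = (Y - (4 * j + 2)) ^ 2 := by ring
        rw [this]; exact a6) (h5 j hjm)
      exact ⟨j, hjm, k2, by linarith⟩
    · have hjm' : j + 1 ≤ m := by
        by_contra hcon
        have : m = j := by omega
        rw [this] at h3
        linarith
      obtain ⟨k1, k2⟩ := key (4 * (j + 1) - Y) (by linarith) (by linarith) (by
        have : (2 - (4 * ((j : ℝ) + 1) - Y)) ^ 2 = (Y - (4 * j + 2)) ^ 2 := by ring
        rw [this]; exact a6) (by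
        have := h5 (j + 1) hjm'
        push_cast at this
        have e : (4 * ((j : ℝ) + 1) - Y) ^ 2 = (Y - 4 * (j + 1)) ^ 2 := by ring
        rw [e]; exact this)
      refine ⟨j + 1, hjm', k2, ?_⟩
      push_cast
      linarith

/-- null vectors in the closed chamber -/
lemma null_in_cham {m : ℕ} {v : Fin (3 + 1) → ℝ} (hv : Fwd v) (hn : mink v v = 0)
    (hc : v ∈ Cham (wl m)) :
    (∃ r : ℝ, v = r • qi) ∨ ∃ r : ℝ, 0 < r ∧ ∃ i : ℕ, i ≤ m ∧ v = r • qc 0 (4 * i) := by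
  obtain ⟨x, y, s, t, rfl⟩ := exists_vc v
  have hs : 0 ≤ s := by
    have := mink_nonpos hv qi_fwd
    rw [mink_vc_qi] at this
    linarith
  rw [cham_iff] at hc
  obtain ⟨h0, h1, h2, h3, h4, h5, h6⟩ := hc
  rcases hs.eq_or_lt with hs0 | hs0
  · left
    subst hs0
    have hx : x = 0 := by linarith
    subst hx
    rw [mink_vc] at hn
    have hy : y = 0 := by
      have : y * y = 0 := by linarith
      exact mul_self_eq_zero.1 this
    subst hy
    refine ⟨t / 2, ?_⟩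
    unfold qi
    rw [vc_smul]
    congr 1 <;> ring
  · right
    have hq := eq_smul_qc hs0.ne' hn
    set X := x / s with hX
    set Y := y / s with hY
    have ex : x = s * X := by rw [hX]; field_simp
    have ey : y = s * Y := by rw [hY]; field_simp
    have et : t = s * (X ^ 2 + Y ^ 2) := by
      unfold qc at hq
      rw [vc_smul] at hq
      exact (vc_inj hq).2.2.2
    obtain ⟨i, hi, hX0, hYi⟩ := poly (m := m) (X := X) (Y := Y) (by positivity)
      (by rw [hX, div_le_one hs0]; exact h1)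
      (by rw [hY, le_div_iff₀ hs0]; linarith)
      (by rw [hY, div_le_iff₀ hs0]; exact h3)
      (by
        rw [ey, et] at h4
        have : s * Y + s * (X ^ 2 + Y ^ 2) = s * (Y + X ^ 2 + Y ^ 2) := by ring
        rw [this] at h4
        exact nonneg_of_mul_nonneg_right h4 hs0)
      (by
        intro i hi
        have := h5 i hi
        rw [ex, ey, et] at this
        have e : -(s * X) - 4 * i * (s * Y) + (16 * (i : ℝ) ^ 2 * s + s * (X ^ 2 + Y ^ 2)) / 2 =
          s * (((X - 1) ^ 2 + (Y - 4 * i) ^ 2 - 1) / 2) := by ring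
        rw [e] at this
        have := nonneg_of_mul_nonneg_right this hs0
        linarith)
      (by
        intro i hi
        have := h6 i hi
        rw [ey, et] at this
        have e : -(2 * (i : ℝ) + 1) * (s * Y) + (4 * (i : ℝ) ^ 2 + 4 * i) * s +
          s * (X ^ 2 + Y ^ 2) / 4 =
          s * ((X ^ 2 + (Y - (4 * i + 2)) ^ 2 - 4) / 4) := by ring
        rw [e] at this
        have := nonneg_of_mul_nonneg_right this hs0
        linarith)
    refine ⟨s, hs0, i, hi, ?_⟩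
    rw [hq, hX0, hYi]

/-- first parabolic translation at the cusp `(0, 4 i)` -/
lemma cusp_T1 (i : ℕ) : IsPb (Ra * R1 i) (qc 0 (4 * i)) ((-2 : ℝ) • vc 1 0 0 0) := by
  apply isPb_of_tangent ua (u1 i) _ (qc_null _ _)
  · unfold qc; rw [mink_vc]; ring
  · unfold wS1 qc
    rw [vc_neg, vc_sub]; congr 1 <;> ring

/-- second parabolic translation at the cusp `(0, 4 i)` -/
lemma cusp_T2 {m i : ℕ} (hi : i ≤ m) : ∃ T ∈ Gam m, ∃ κ : ℝ, (κ ≠ 0 ∧ κ ^ 2 ≤ 25 / 4) ∧
    IsPb T (qc 0 (4 * i)) (κ • ((-2 : ℝ) • wS4 i)) := by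
  rcases Nat.eq_zero_or_pos i with rfl | hpos
  · refine ⟨R4 0 * R5, (Gam m).mul_mem (R4_mem (Nat.zero_le m)) (R5_mem m), 5 / 2,
      ⟨by norm_num, by norm_num⟩, ?_⟩
    apply IsPb.smul_left
    apply isPb_of_tangent (u4 0) u5
    · unfold wS4 qc
      rw [vc_neg, vc_smul, vc_sub]
      congr 1 <;> push_cast <;> ring
    · rw [mink_smul_left, mink_smul_right, qc_null]; ring
    · unfold wS4 qc
      rw [mink_smul_right, mink_vc]
      push_cast; ring
  · refine ⟨R4 i * R4 (i - 1), (Gam m).mul_mem (R4_mem hi) (R4_mem (by omega)), 1,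
      ⟨by norm_num, by norm_num⟩, ?_⟩
    rw [one_smul]
    have hc : ((i - 1 : ℕ) : ℝ) = i - 1 := by rw [Nat.cast_sub hpos]; norm_num
    apply isPb_of_tangent (u4 i) (u4 (i - 1)) _ (qc_null _ _)
    · unfold wS4 qc
      rw [mink_vc]; ring
    · unfold wS4 qc
      rw [vc_neg, vc_sub, hc]
      congr 1 <;> ring

variable {N : Subgroup (GG 3)} {m m' : ℕ}

/-- The main rigidity statement: if a discrete group contains `Gam m'` and a conjugate of `Gam m`
by `h`, then up to `Gam m'` the element `h` preserves the cusp at infinity. -/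
theorem master (hm : 1 ≤ m) (hsub : Gam m' ≤ N) (hiso : ∀ A ∈ N, IsIsomHyp 3 A) (hD : Disc N)
    {h : GG 3} (hh : IsIsomHyp 3 h) (hconj : ∀ A ∈ Gam m, h * A * h⁻¹ ∈ N) :
    ∃ g ∈ Gam m', ∃ r : ℝ, ac (g * h) qi = r • qi := by
  have hm' : (1 : ℝ) ≤ m := by exact_mod_cast hm
  have hC := cuspData hsub hiso hD
  have hG := cuspData (m := m) (N := Gam m) (le_refl _) (fun A hA => iso_Gam hA) (disc_Gam m)
  obtain ⟨T, hT, hT2⟩ := hG.tx
  obtain ⟨T', hT', hT2'⟩ := hC.tx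
  -- choose g minimising the pairing with the base point
  obtain ⟨g, hg, hmin⟩ := exists_min_of_finite (Γ := Gam m')
    (f := fun A => - mink (ac A (ac h qi)) y0) (by
      intro R
      -- the conjugates of T
      set F : GG 3 → ℝ := fun B => - mink (ac B y0) y0 with hF
      have hfinN : {B | B ∈ N ∧ - mink (ac B y0) y0 ≤ 1 + 2 * R ^ 2}.Finite := by
        obtain ⟨L, hL, hL2⟩ := dsp_le_of_timelike y0_mem
        obtain ⟨ε, hε, hε2⟩ := exists_eps (fwd_of_hyp y0_mem) (by rw [y0_mem.1]; norm_num)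
        refine (hD (L * ((1 + 2 * R ^ 2) / ε))).subset ?_
        rintro B ⟨hB, hB2⟩
        refine ⟨hB, (hL2 B (hiso B hB)).trans (mul_le_mul_of_nonneg_left ?_ hL.le)⟩
        rw [le_div_iff₀ hε, mul_comm]
        exact (hε2 _ (iso_fwd (hiso B hB) (fwd_of_hyp y0_mem))).trans hB2
      have hsq : ∀ A ∈ Gam m', - mink (ac ((A * h) * T * (A * h)⁻¹) y0) y0 =
          1 + 2 * (- mink (ac A (ac h qi)) y0) ^ 2 := by
        intro A hA
        have hiA : IsIsomHyp 3 (A * h) := iso_mul (iso_Gam hA) hh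
        have h1 := hT2.conj hiA
        rw [h1, mink_pf_self, iso_mink hiA, mink_vc, y0_mem.1, ac_mul, mink_comm y0]
        ring
      refine ((hfinN.image F).image (fun z => Real.sqrt ((z - 1) / 2))).subset ?_
      rintro _ ⟨A, ⟨hA, hA2⟩, rfl⟩
      have hnn : 0 ≤ - mink (ac A (ac h qi)) y0 := by
        have := mink_nonpos (iso_fwd (iso_Gam hA) (iso_fwd hh qi_fwd)) (fwd_of_hyp y0_mem)
        linarith
      refine ⟨1 + 2 * (- mink (ac A (ac h qi)) y0) ^ 2, ⟨(A * h) * T * (A * h)⁻¹, ⟨?_, ?_⟩, ?_⟩, ?_⟩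
      · have h1 := hconj T hT
        have h2 : A * h * T * (A * h)⁻¹ = A * (h * T * h⁻¹) * A⁻¹ := by
          rw [_root_.mul_inv_rev]; simp only [mul_assoc]
        rw [h2]
        exact N.mul_mem (N.mul_mem (hsub hA) h1) (N.inv_mem (hsub hA))
      · rw [hsq A hA]
        have : (- mink (ac A (ac h qi)) y0) ^ 2 ≤ R ^ 2 := pow_le_pow_left₀ hnn hA2 2
        linarith
      · exact hsq A hA
      · show Real.sqrt ((1 + 2 * (- mink (ac A (ac h qi)) y0) ^ 2 - 1) / 2) = _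
        have e : (1 + 2 * (- mink (ac A (ac h qi)) y0) ^ 2 - 1) / 2 =
            (- mink (ac A (ac h qi)) y0) ^ 2 := by ring
        rw [e, Real.sqrt_sq hnn])
  refine ⟨g, hg, ?_⟩
  have hcham : ac g (ac h qi) ∈ Cham (wl m') :=
    mem_cham_of_min (he := wl_unit m') (fun i => lt_of_lt_of_le (by norm_num) (y0_wl m' i)) hg hmin
  rw [← ac_mul] at hcham
  have hgh : IsIsomHyp 3 (g * h) := iso_mul (iso_Gam hg) hh
  have hfw : Fwd (ac (g * h) qi) := iso_fwd hgh qi_fwd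
  have hnull : mink (ac (g * h) qi) (ac (g * h) qi) = 0 := by rw [iso_mink hgh, qi_null]
  rcases null_in_cham hfw hnull hcham with hr | ⟨s, hs, i, hi, hcusp⟩
  · exact hr
  exfalso
  set k := g * h with hk
  -- conjugation by k
  have hkconj : ∀ A ∈ Gam m, k * A * k⁻¹ ∈ N := by
    intro A hA
    have h2 : k * A * k⁻¹ = g * (h * A * h⁻¹) * g⁻¹ := by
      rw [hk, _root_.mul_inv_rev]; simp only [mul_assoc]
    rw [h2]
    exact N.mul_mem (N.mul_mem (hsub hg) (hconj A hA)) (N.inv_mem (hsub hg))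
  -- the scale is at least 1/2
  have hs2 : 1 / 4 ≤ s ^ 2 := by
    have h1 := hkconj T hT
    have h2 := hT2.conj hgh
    have h3 := shimizu hiso hD hT' hT2' (vc0_qi _ _) (by rw [mink_vc]; ring) h1
    rw [h2, mink_pf_self, iso_mink hgh, qi_null, mink_vc, hcusp, mink_smul_right, mink_comm,
      mink_qc_qi] at h3
    rcases h3 with h3 | h3
    · have : s ^ 2 = 0 := by linarith
      have : 0 < s ^ 2 := by positivity
      linarith
    · linarith
  -- the conjugated group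
  set N' : Subgroup (GG 3) := N.comap (MulAut.conj k).toMonoidHom with hN'
  have hmemN' : ∀ A, A ∈ N' ↔ k * A * k⁻¹ ∈ N := by
    intro A
    rw [hN', Subgroup.mem_comap]
    rfl
  have hsub' : Gam m ≤ N' := fun A hA => (hmemN' A).2 (hkconj A hA)
  have hiso' : ∀ A ∈ N', IsIsomHyp 3 A := by
    intro A hA
    have h1 := hiso _ ((hmemN' A).1 hA)
    have h2 := iso_mul (iso_mul (iso_inv hgh) h1) hgh
    have h3 : k⁻¹ * (k * A * k⁻¹) * k = A := by simp [mul_assoc]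
    rw [h3] at h2
    exact h2
  have hD' : Disc N' := disc_conj hD hgh hiso' (fun A hA => (hmemN' A).1 hA)
  have hkq : ac k⁻¹ (qc 0 (4 * i)) = (1 / s) • qi := by
    have h1 : ac k⁻¹ (ac k qi) = qi := ac_inv_ac k qi
    rw [hcusp, ac_smul] at h1
    rw [← h1, smul_smul, one_div, inv_mul_cancel₀ hs.ne', one_smul]
  -- parabolic elements at the cusp are translations of N'
  have htrans : ∀ {S : GG 3} {u : Fin (3 + 1) → ℝ}, S ∈ N → IsPb S (qc 0 (4 * i)) u →
      mink u (qc 0 (4 * i)) = 0 → ∃ a b : ℝ, Tr N' a b ∧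
        ∃ τ, (1 / s) • ac k⁻¹ u = vc a b 0 τ := by
    intro S u hS hSu hu
    have h1 := hSu.conj' hgh
    rw [hkq] at h1
    have h2 := h1.smul_left
    obtain ⟨a, b, s', τ, h3⟩ := exists_vc ((1 / s) • ac k⁻¹ u)
    have h4 : s' = 0 := by
      have h5 : mink ((1 / s) • ac k⁻¹ u) ((1 / s) • qi) = 0 := by
        rw [← hkq, mink_smul_left, iso_mink (iso_inv hgh), hu, mul_zero]
      rw [h3, mink_smul_right, mink_vc_qi] at h5
      have : (1 / s) ≠ 0 := by positivity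
      rcases mul_eq_zero.1 h5 with h6 | h6
      · exact absurd h6 this
      · linarith
    subst h4
    refine ⟨a, b, ⟨k⁻¹ * S * k, ?_, ?_⟩, τ, h3⟩
    · rw [hmemN']
      have : k * (k⁻¹ * S * k) * k⁻¹ = S := by simp [mul_assoc]
      rw [this]; exact hS
    · rw [h3] at h2
      apply IsPb.shift (c := τ / 2) _ qi_null (vc0_qi _ _)
      convert h2 using 1
      unfold qi
      rw [vc_smul, vc_add]
      congr 1 <;> ring
  obtain ⟨S2, hS2, κ, ⟨hκ0, hκ⟩, hS2'⟩ := cusp_T2 hi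
  obtain ⟨a1, b1, hTr1, τ1, hv1⟩ := htrans (S := Ra * R1 i)
    (hsub ((Gam m').mul_mem (Ra_mem m') (R1_mem hi))) (cusp_T1 i) (by
      unfold qc; rw [mink_smul_left, mink_vc]; ring)
  obtain ⟨a2, b2, hTr2, τ2, hv2⟩ := htrans (hsub hS2) hS2' (by
      unfold qc wS4; rw [mink_smul_left, mink_smul_left, mink_vc]; ring)
  have n1 : a1 ^ 2 + b1 ^ 2 = 4 * (1 / s) ^ 2 := by
    have h1 : mink ((1 / s) • ac k⁻¹ ((-2 : ℝ) • vc 1 0 0 0))
        ((1 / s) • ac k⁻¹ ((-2 : ℝ) • vc 1 0 0 0)) = 4 * (1 / s) ^ 2 := by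
      rw [mink_smul_left, mink_smul_right, iso_mink (iso_inv hgh), mink_smul_left,
        mink_smul_right, mink_vc]
      ring
    rw [hv1, mink_vc] at h1
    linarith
  have n2 : a2 ^ 2 + b2 ^ 2 = 4 * κ ^ 2 * (1 / s) ^ 2 := by
    have h1 : mink ((1 / s) • ac k⁻¹ (κ • ((-2 : ℝ) • wS4 i)))
        ((1 / s) • ac k⁻¹ (κ • ((-2 : ℝ) • wS4 i))) = 4 * κ ^ 2 * (1 / s) ^ 2 := by
      rw [mink_smul_left, mink_smul_right, iso_mink (iso_inv hgh), mink_smul_left,
        mink_smul_right, mink_smul_left, mink_smul_right, u4]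
      ring
    rw [hv2, mink_vc] at h1
    linarith
  have n12 : a1 * a2 + b1 * b2 = 0 := by
    have h1 : mink ((1 / s) • ac k⁻¹ ((-2 : ℝ) • vc 1 0 0 0))
        ((1 / s) • ac k⁻¹ (κ • ((-2 : ℝ) • wS4 i))) = 0 := by
      rw [mink_smul_left, mink_smul_right, iso_mink (iso_inv hgh), mink_smul_left,
        mink_smul_right, mink_smul_right]
      unfold wS4
      rw [mink_vc]
      ring
    rw [hv1, hv2, mink_vc] at h1
    linarith
  have hinv : (1 / s) ^ 2 ≤ 4 := by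
    rw [one_div, inv_pow]
    rw [inv_le_comm₀ (by positivity) (by norm_num)]
    linarith
  have hinv0 : 0 < (1 / s) ^ 2 := by positivity
  have hC' := cuspData hsub' hiso' hD'
  have small : ∀ {a b : ℝ}, Tr N' a b → a ^ 2 + b ^ 2 ≤ 100 → b = 0 := by
    intro a b hab hle
    obtain ⟨z, l, hz, hl⟩ := lattice hm hC' hab
    have hl0 : l = 0 := by
      by_contra hne
      have h5 : (1 : ℤ) ≤ l ^ 2 := by
        have : 0 < l ^ 2 := by positivity
        omega
      have h6 : (1 : ℝ) ≤ (l : ℝ) ^ 2 := by exact_mod_cast h5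
      have h7 : b ^ 2 = (8 * m + 5) ^ 2 * (l : ℝ) ^ 2 := by rw [hl]; ring
      have h8 : (169 : ℝ) ≤ (8 * m + 5) ^ 2 := by nlinarith
      have h9 : (169 : ℝ) ≤ (8 * m + 5) ^ 2 * (l : ℝ) ^ 2 := by nlinarith
      nlinarith [sq_nonneg a]
    rw [hl, hl0]; push_cast; ring
  have hb1 : b1 = 0 := small hTr1 (by rw [n1]; linarith)
  have hb2 : b2 = 0 := small hTr2 (by rw [n2]; nlinarith)
  rw [hb1, hb2] at n12
  rw [hb1] at n1
  rw [hb2] at n2
  have hκpos : 0 < κ ^ 2 := by positivity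
  have : a1 * a2 = 0 := by linarith
  rcases mul_eq_zero.1 this with h7 | h7
  · rw [h7] at n1
    linarith
  · rw [h7] at n2
    have : 0 < 4 * κ ^ 2 * (1 / s) ^ 2 := by positivity
    linarith

/-- the groups of the family are maximal among discrete groups of isometries -/
theorem maximal (hm : 1 ≤ m) (hsub : Gam m ≤ N) (hiso : ∀ A ∈ N, IsIsomHyp 3 A) (hD : Disc N) :
    N = Gam m := by
  apply le_antisymm _ hsub
  intro A hA
  have hC := cuspData hsub hiso hD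
  obtain ⟨T, hT, hT2⟩ := hC.tx
  obtain ⟨g, hg, r, hr⟩ := master (m' := m) hm hsub hiso hD (hiso A hA)
    (fun B hB => N.mul_mem (N.mul_mem hA (hsub hB)) (N.inv_mem hA))
  have hgA : g * A ∈ N := N.mul_mem (hsub hg) hA
  have hr1 := no_dilation hiso hD hT hT2 (by rw [mink_vc]; ring) hgA hr
  rw [hr1, one_smul] at hr
  have h1 := stab hm hsub hiso hD hgA hr
  have h2 := (Gam m).mul_mem ((Gam m).inv_mem hg) h1
  rwa [inv_mul_cancel_left] at h2

/-- nonzero translations of `Gam m` have length at least `2` -/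
lemma tr_norm (hm : 1 ≤ m) {a b : ℝ} (h : Tr (Gam m) a b) (hne : a ^ 2 + b ^ 2 ≠ 0) :
    4 ≤ a ^ 2 + b ^ 2 := by
  have hm' : (1 : ℝ) ≤ m := by exact_mod_cast hm
  have hG := cuspData (m := m) (N := Gam m) (le_refl _) (fun A hA => iso_Gam hA) (disc_Gam m)
  obtain ⟨k, l, hk, hl⟩ := lattice hm hG h
  by_cases hl0 : l = 0
  · have hk0 : k ≠ 0 := by
      rintro rfl
      apply hne
      rw [hk, hl, hl0]; push_cast; ring
    have h5 : (1 : ℤ) ≤ k ^ 2 := by
      have : 0 < k ^ 2 := by positivity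
      omega
    have h6 : (1 : ℝ) ≤ (k : ℝ) ^ 2 := by exact_mod_cast h5
    rw [hk]
    nlinarith [sq_nonneg b]
  · have h5 : (1 : ℤ) ≤ l ^ 2 := by
      have : 0 < l ^ 2 := by positivity
      omega
    have h6 : (1 : ℝ) ≤ (l : ℝ) ^ 2 := by exact_mod_cast h5
    have h7 : b ^ 2 = (8 * m + 5) ^ 2 * (l : ℝ) ^ 2 := by rw [hl]; ring
    have h8 : (169 : ℝ) ≤ (8 * m + 5) ^ 2 := by nlinarith
    nlinarith [sq_nonneg a]

/-- an isometry which fixes the line of `qi` and conjugates `Gam m` into `Gam m'` does not shrink,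
and it divides the second periods -/
lemma conj_aux (hm : 1 ≤ m) (hm2 : 1 ≤ m') {k : GG 3} (hk : IsIsomHyp 3 k) {r : ℝ}
    (hr : ac k qi = r • qi) (hconj : ∀ A ∈ Gam m, k * A * k⁻¹ ∈ Gam m') :
    1 ≤ r ∧ (r = 1 → ∃ l : ℤ, ((8 * m + 5 : ℕ) : ℤ) = (8 * m' + 5 : ℕ) * l) := by
  have hG := cuspData (m := m) (N := Gam m) (le_refl _) (fun A hA => iso_Gam hA) (disc_Gam m)
  have hG' := cuspData (m := m') (N := Gam m') (le_refl _) (fun A hA => iso_Gam hA) (disc_Gam m')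
  have hm1 : (1 : ℝ) ≤ m := by exact_mod_cast hm
  have hm1' : (1 : ℝ) ≤ m' := by exact_mod_cast hm2
  have hr0 : 0 < r := by
    have h1 := (iso_fwd hk qi_fwd).2
    rw [hr] at h1
    have h2 := qi_fwd.2
    simp only [Pi.smul_apply, smul_eq_mul] at h1
    exact pos_of_mul_pos_left h1 h2.le
  -- images of translations
  have himg : ∀ {a b : ℝ}, Tr (Gam m) a b → ∃ a' b' τ : ℝ, Tr (Gam m') a' b' ∧
      r • ac k (vc a b 0 0) = vc a' b' 0 τ := by
    rintro a b ⟨S, hS, hS2⟩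
    have h1 := hS2.conj hk
    rw [hr] at h1
    have h2 := h1.smul_left
    obtain ⟨a', b', s', τ, h3⟩ := exists_vc (r • ac k (vc a b 0 0))
    have h4 : s' = 0 := by
      have h5 : mink (r • ac k (vc a b 0 0)) (r • qi) = 0 := by
        rw [← hr, mink_smul_left, iso_mink hk, vc0_qi, mul_zero]
      rw [h3, mink_smul_right, mink_vc_qi] at h5
      rcases mul_eq_zero.1 h5 with h6 | h6
      · exact absurd h6 hr0.ne'
      · linarith
    subst h4
    refine ⟨a', b', τ, ⟨k * S * k⁻¹, hconj S hS, ?_⟩, h3⟩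
    rw [h3] at h2
    apply IsPb.shift (c := τ / 2) _ qi_null (vc0_qi _ _)
    convert h2 using 1
    unfold qi
    rw [vc_smul, vc_add]
    congr 1 <;> ring
  obtain ⟨a1, b1, τ1, hTr1, hv1⟩ := himg hG.tx
  obtain ⟨a2, b2, τ2, hTr2, hv2⟩ := himg hG.ty
  have n1 : a1 ^ 2 + b1 ^ 2 = 4 * r ^ 2 := by
    have h1 : mink (r • ac k (vc 2 0 0 0)) (r • ac k (vc 2 0 0 0)) = 4 * r ^ 2 := by
      rw [mink_smul_left, mink_smul_right, iso_mink hk, mink_vc]; ring
    rw [hv1, mink_vc] at h1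
    linarith
  have n2 : a2 ^ 2 + b2 ^ 2 = (8 * m + 5) ^ 2 * r ^ 2 := by
    have h1 : mink (r • ac k (vc 0 (8 * m + 5) 0 0)) (r • ac k (vc 0 (8 * m + 5) 0 0)) =
        (8 * m + 5) ^ 2 * r ^ 2 := by
      rw [mink_smul_left, mink_smul_right, iso_mink hk, mink_vc]; ring
    rw [hv2, mink_vc] at h1
    linarith
  have n12 : a1 * a2 + b1 * b2 = 0 := by
    have h1 : mink (r • ac k (vc 2 0 0 0)) (r • ac k (vc 0 (8 * m + 5) 0 0)) = 0 := by
      rw [mink_smul_left, mink_smul_right, iso_mink hk, mink_vc]; ring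
    rw [hv1, hv2, mink_vc] at h1
    linarith
  constructor
  · have h1 := tr_norm hm2 hTr1 (by rw [n1]; positivity)
    rw [n1] at h1
    nlinarith
  · intro hr1
    rw [hr1] at n1 n2
    obtain ⟨z1, l1, hz1, hl1⟩ := lattice hm2 hG' hTr1
    obtain ⟨z2, l2, hz2, hl2⟩ := lattice hm2 hG' hTr2
    have hl10 : l1 = 0 := by
      by_contra hne
      have h5 : (1 : ℤ) ≤ l1 ^ 2 := by
        have : 0 < l1 ^ 2 := by positivity
        omega
      have h6 : (1 : ℝ) ≤ (l1 : ℝ) ^ 2 := by exact_mod_cast h5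
      have h7 : b1 ^ 2 = (8 * m' + 5) ^ 2 * (l1 : ℝ) ^ 2 := by rw [hl1]; ring
      have h8 : (169 : ℝ) ≤ (8 * m' + 5) ^ 2 := by nlinarith
      nlinarith [sq_nonneg a1]
    have hb1 : b1 = 0 := by rw [hl1, hl10]; push_cast; ring
    rw [hb1] at n1 n12
    have ha1 : a1 ≠ 0 := by rintro h; rw [h] at n1; norm_num at n1
    have ha2 : a2 = 0 := by
      have : a1 * a2 = 0 := by linarith
      rcases mul_eq_zero.1 this with h | h
      · exact absurd h ha1
      · exact h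
    rw [ha2] at n2
    have h9 : (b2 - (8 * m + 5)) * (b2 + (8 * m + 5)) = 0 := by ring_nf; ring_nf at n2; linarith
    rcases mul_eq_zero.1 h9 with h10 | h10
    · refine ⟨l2, ?_⟩
      have h11 : ((8 * m + 5 : ℕ) : ℝ) = ((8 * m' + 5 : ℕ) : ℝ) * (l2 : ℝ) := by
        push_cast; rw [← hl2]; linarith
      exact_mod_cast h11
    · refine ⟨-l2, ?_⟩
      have h11 : ((8 * m + 5 : ℕ) : ℝ) = ((8 * m' + 5 : ℕ) : ℝ) * ((-l2 : ℤ) : ℝ) := by
        push_cast; rw [mul_neg, ← hl2]; linarith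
      exact_mod_cast h11

/-- different groups of the family are not conjugate -/
theorem not_conj (hm : 1 ≤ m) (hm2 : 1 ≤ m') (hc : AreConjugate 3 (Gam m) (Gam m')) : m = m' := by
  obtain ⟨h, hh, hiff⟩ := hc
  have hfwd : ∀ A ∈ Gam m, h * A * h⁻¹ ∈ Gam m' := fun A hA => (hiff A).1 hA
  obtain ⟨g, hg, r, hr⟩ := master (m' := m') (N := Gam m') hm (le_refl _)
    (fun A hA => iso_Gam hA) (disc_Gam m') hh hfwd
  set k := g * h with hk
  have hki : IsIsomHyp 3 k := iso_mul (iso_Gam hg) hh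
  have hk1 : ∀ A ∈ Gam m, k * A * k⁻¹ ∈ Gam m' := by
    intro A hA
    have h2 : k * A * k⁻¹ = g * (h * A * h⁻¹) * g⁻¹ := by
      rw [hk, _root_.mul_inv_rev]; simp only [mul_assoc]
    rw [h2]
    exact (Gam m').mul_mem ((Gam m').mul_mem hg (hfwd A hA)) ((Gam m').inv_mem hg)
  have hk2 : ∀ A ∈ Gam m', k⁻¹ * A * k⁻¹⁻¹ ∈ Gam m := by
    intro A hA
    rw [hiff]
    have h2 : h * (k⁻¹ * A * k⁻¹⁻¹) * h⁻¹ = g⁻¹ * A * g := by
      rw [hk, _root_.mul_inv_rev]; simp [mul_assoc]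
    rw [h2]
    exact (Gam m').mul_mem ((Gam m').mul_mem ((Gam m').inv_mem hg) hA) hg
  obtain ⟨r1, d1⟩ := conj_aux hm hm2 hki hr hk1
  have hrinv : ac k⁻¹ qi = r⁻¹ • qi := by
    have h3 : ac k⁻¹ (ac k qi) = qi := ac_inv_ac k qi
    rw [hr, ac_smul] at h3
    rw [← h3, smul_smul, inv_mul_cancel₀ (by linarith), one_smul, h3]
  obtain ⟨r2, d2⟩ := conj_aux hm2 hm (iso_inv hki) hrinv hk2
  have hr1 : r = 1 := by
    have h6 : r * r⁻¹ = 1 := mul_inv_cancel₀ (by linarith)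
    nlinarith
  obtain ⟨l, hl⟩ := d1 hr1
  obtain ⟨l', hl'⟩ := d2 (by rw [hr1, inv_one])
  have h1 : ((8 * m' + 5 : ℕ) : ℤ) ∣ ((8 * m + 5 : ℕ) : ℤ) := ⟨l, hl⟩
  have h2 : ((8 * m + 5 : ℕ) : ℤ) ∣ ((8 * m' + 5 : ℕ) : ℤ) := ⟨l', hl'⟩
  have h3 := Nat.dvd_antisymm (Int.natCast_dvd_natCast.1 h2) (Int.natCast_dvd_natCast.1 h1)
  omega

end Pool.Agent.H851R2
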