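import Pool.Agent.H851R2.QTitsDisc

set_option autoImplicit false

/-!
# Parabolic translations
-/

namespace Pool.Agent.H851R2

open Matrix
open Pool.Agent.Helper613.DH

variable {n : ℕ}

/-- the parabolic translation with fixed null vector `w` and translation vector `u ⟂ w` -/
noncomputable def pf (w u x : Fin (n + 1) → ℝ) : Fin (n + 1) → ℝ :=
  x - (mink x w) • u + (mink x u) • w - (mink u u / 2 * mink x w) • w

/-- `A` is the parabolic translation with fixed null vector `w` and translation vector `u` -/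
def IsPb (A : GG n) (w u : Fin (n + 1) → ℝ) : Prop := ∀ x, ac A x = pf w u x

lemma IsPb.unique {A B : GG n} {w u : Fin (n + 1) → ℝ} (hA : IsPb A w u) (hB : IsPb B w u) :
    A = B := GG_ext fun x => by rw [hA, hB]

lemma IsPb.mul {A B : GG n} {w u u' : Fin (n + 1) → ℝ} (hA : IsPb A w u) (hB : IsPb B w u')
    (hw : mink w w = 0) (hu : mink u w = 0) (hu' : mink u' w = 0) : IsPb (A * B) w (u + u') := by
  intro x
  have h1 : mink w u = 0 := by rw [mink_comm]; exact hu
  have h2 : mink u' u = mink u u' := mink_comm _ _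
  rw [ac_mul, hB, hA]
  unfold pf
  simp only [mink_add_left, mink_sub_left, mink_smul_left, mink_add_right, hw, hu', h1, h2]
  module

lemma IsPb.one (w : Fin (n + 1) → ℝ) : IsPb (1 : GG n) w 0 := by
  intro x
  rw [ac_one]
  unfold pf
  rw [mink_comm x 0, mink_zero_left, mink_zero_left]
  module

lemma IsPb.inv {A : GG n} {w u : Fin (n + 1) → ℝ} (hA : IsPb A w u)
    (hw : mink w w = 0) (hu : mink u w = 0) : IsPb A⁻¹ w (-u) := by
  intro x
  have h1 : mink w u = 0 := by rw [mink_comm]; exact hu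
  have h2 : ac A (pf w (-u) x) = x := by
    rw [hA]
    unfold pf
    simp only [mink_add_left, mink_sub_left, mink_smul_left, mink_neg_right, mink_neg_left, hw,
      hu, h1]
    module
  rw [← ac_inv_ac A (pf w (-u) x), h2]

lemma IsPb.conj {A g : GG n} {w u : Fin (n + 1) → ℝ} (hA : IsPb A w u) (hg : IsIsomHyp n g) :
    IsPb (g * A * g⁻¹) (ac g w) (ac g u) := by
  intro x
  rw [ac_mul, ac_mul, hA]
  unfold pf
  rw [ac_sub, ac_add, ac_sub, ac_smul, ac_smul, ac_smul, ac_ac_inv, iso_mink hg,
    mink_ac_right hg x w, mink_ac_right hg x u]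

lemma IsPb.conj' {A g : GG n} {w u : Fin (n + 1) → ℝ} (hA : IsPb A w u) (hg : IsIsomHyp n g) :
    IsPb (g⁻¹ * A * g) (ac g⁻¹ w) (ac g⁻¹ u) := by
  have := hA.conj (iso_inv hg)
  rwa [inv_inv] at this

lemma IsPb.smul_left {A : GG n} {w u : Fin (n + 1) → ℝ} {k : ℝ} (hA : IsPb A (k • w) u) :
    IsPb A w (k • u) := by
  intro x
  rw [hA]
  unfold pf
  simp only [mink_smul_left, mink_smul_right]
  module

lemma IsPb.shift {A : GG n} {w u : Fin (n + 1) → ℝ} {c : ℝ} (hA : IsPb A w (u + c • w))
    (hw : mink w w = 0) (hu : mink u w = 0) : IsPb A w u := by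
  intro x
  have h1 : mink w u = 0 := by rw [mink_comm]; exact hu
  rw [hA]
  unfold pf
  simp only [mink_add_left, mink_smul_left, mink_add_right, mink_smul_right, hw, hu, h1]
  module

/-- pairing of a vector with its translate -/
lemma mink_pf_self (w u x : Fin (n + 1) → ℝ) :
    mink (pf w u x) x = mink x x - mink u u / 2 * mink x w ^ 2 := by
  unfold pf
  simp only [mink_add_left, mink_sub_left, mink_smul_left]
  rw [mink_comm u x, mink_comm w x]
  ring

lemma mink_pf_w {w u : Fin (n + 1) → ℝ} (hw : mink w w = 0) (hu : mink u w = 0)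
    (x : Fin (n + 1) → ℝ) : mink (pf w u x) w = mink x w := by
  unfold pf
  simp only [mink_add_left, mink_sub_left, mink_smul_left, hw, hu]
  ring

lemma IsPb.dsp_eq {A : GG n} {w u : Fin (n + 1) → ℝ} (hA : IsPb A w u) :
    dsp A = 1 + mink u u / 2 * mink (eT n) w ^ 2 := by
  unfold dsp
  rw [hA, mink_pf_self, (eT_mem (n := n)).1]
  ring

lemma mink_pf {w u : Fin (n + 1) → ℝ} (hw : mink w w = 0) (hu : mink u w = 0)
    (x y : Fin (n + 1) → ℝ) : mink (pf w u x) (pf w u y) = mink x y := by
  have h1 : mink w u = 0 := by rw [mink_comm]; exact hu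
  unfold pf
  simp only [mink_add_left, mink_sub_left, mink_smul_left, mink_add_right, mink_sub_right,
    mink_smul_right, hw, hu, h1]
  rw [mink_comm u y, mink_comm w y]
  ring

lemma IsPb.iso {A : GG n} {w u : Fin (n + 1) → ℝ} (hA : IsPb A w u) (hw : mink w w = 0)
    (hu : mink u w = 0) (huu : 0 ≤ mink u u) : IsIsomHyp n A := by
  have h1 : ∀ x y : Fin (n + 1) → ℝ, mink (ac A x) (ac A y) = mink x y := by
    intro x y; rw [hA, hA, mink_pf hw hu]
  refine ⟨h1, ?_⟩
  intro x hx
  rw [← ac_def]
  have h2 : mink (ac A x) (ac A x) = -1 := by rw [h1, hx.1]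
  refine ⟨h2, ?_⟩
  have h3 : mink (ac A x) x < 0 := by
    rw [hA, mink_pf_self, hx.1]
    nlinarith [mul_nonneg huu (sq_nonneg (mink x w))]
  exact (fwd_of (by rw [h2]; norm_num) (fwd_of_hyp hx) h3).2

/-- the product of the reflections in two tangent hyperplanes is a parabolic translation -/
lemma isPb_of_tangent {e e' w : Fin (n + 1) → ℝ} (he : mink e e = 1) (he' : mink e' e' = 1)
    (h : e' = -e - w) (hw : mink w w = 0) (hew : mink e w = 0) :
    IsPb (Rm e he * Rm e' he') w ((-2 : ℝ) • e) := by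
  intro x
  have h1 : mink w e = 0 := by rw [mink_comm]; exact hew
  rw [ac_mul, ac_Rm, ac_Rm]
  subst h
  unfold pf
  simp only [mink_sub_left, mink_smul_left, mink_sub_right, mink_neg_left, mink_neg_right,
    mink_smul_right, hw, hew, h1, he]
  module

end Pool.Agent.H851R2
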