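import Pool.Agent.H851R2.QPar

set_option autoImplicit false

/-!
# Coordinates in dimension three and the Shimizu-Leutbecher lemma
-/

namespace Pool.Agent.H851R2

open Matrix
open Pool.Agent.Helper613.DH

/-- vectors in light cone coordinates: `mink v v = x² + y² - s t` -/
noncomputable def vc (x y s t : ℝ) : Fin (3 + 1) → ℝ := ![x, y, (t - s) / 2, (t + s) / 2]

lemma mink3 (v w : Fin (3 + 1) → ℝ) :
    mink v w = v 0 * w 0 + v 1 * w 1 + v 2 * w 2 - v 3 * w 3 := by
  unfold mink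
  rw [Fin.sum_univ_three]
  rfl

lemma vc_eq (v : Fin (3 + 1) → ℝ) : v = vc (v 0) (v 1) (v 3 - v 2) (v 3 + v 2) := by
  ext i
  fin_cases i
  · rfl
  · rfl
  · show v 2 = ((v 3 + v 2) - (v 3 - v 2)) / 2
    ring
  · show v 3 = ((v 3 + v 2) + (v 3 - v 2)) / 2
    ring

lemma exists_vc (v : Fin (3 + 1) → ℝ) : ∃ x y s t : ℝ, v = vc x y s t := ⟨_, _, _, _, vc_eq v⟩

lemma mink_vc (x y s t x' y' s' t' : ℝ) :
    mink (vc x y s t) (vc x' y' s' t') = x * x' + y * y' - (s * t' + t * s') / 2 := by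
  rw [mink3]
  show x * x' + y * y' + (t - s) / 2 * ((t' - s') / 2) - (t + s) / 2 * ((t' + s') / 2) = _
  ring

lemma vc_last (x y s t : ℝ) : vc x y s t (Fin.last 3) = (t + s) / 2 := rfl

lemma vc_smul (r x y s t : ℝ) : r • vc x y s t = vc (r * x) (r * y) (r * s) (r * t) := by
  ext i
  fin_cases i <;> simp [vc] <;> ring

lemma vc_add (x y s t x' y' s' t' : ℝ) :
    vc x y s t + vc x' y' s' t' = vc (x + x') (y + y') (s + s') (t + t') := by
  ext i
  fin_cases i <;> simp [vc] <;> ring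

lemma vc_sub (x y s t x' y' s' t' : ℝ) :
    vc x y s t - vc x' y' s' t' = vc (x - x') (y - y') (s - s') (t - t') := by
  ext i
  fin_cases i <;> simp [vc] <;> ring

lemma vc_neg (x y s t : ℝ) : - vc x y s t = vc (-x) (-y) (-s) (-t) := by
  ext i
  fin_cases i <;> simp [vc] <;> ring

lemma vc_inj {x y s t x' y' s' t' : ℝ} (h : vc x y s t = vc x' y' s' t') :
    x = x' ∧ y = y' ∧ s = s' ∧ t = t' := by
  have h0 := congrFun h 0
  have h1 := congrFun h 1
  have h2 := congrFun h 2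
  have h3 := congrFun h 3
  simp [vc] at h0 h1 h2 h3
  refine ⟨h0, h1, by linarith, by linarith⟩

/-- the null vector of the cusp at infinity -/
noncomputable def qi : Fin (3 + 1) → ℝ := vc 0 0 0 2

/-- the normalised null vector of a point of the plane at infinity -/
noncomputable def qc (a b : ℝ) : Fin (3 + 1) → ℝ := vc a b 1 (a ^ 2 + b ^ 2)

lemma eT3 : eT 3 = vc 0 0 1 1 := by
  ext i
  fin_cases i
  · show (Pi.single (Fin.last 3) (1 : ℝ) : Fin 4 → ℝ) 0 = 0
    simp [Fin.last]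
  · show (Pi.single (Fin.last 3) (1 : ℝ) : Fin 4 → ℝ) 1 = 0
    simp [Fin.last]
  · show (Pi.single (Fin.last 3) (1 : ℝ) : Fin 4 → ℝ) 2 = (1 - 1) / 2
    simp [Fin.last]
  · show (Pi.single (Fin.last 3) (1 : ℝ) : Fin 4 → ℝ) 3 = (1 + 1) / 2
    simp [Fin.last]

lemma qi_null : mink qi qi = 0 := by unfold qi; rw [mink_vc]; ring

lemma qi_fwd : Fwd qi := ⟨qi_null.le, by unfold qi; rw [vc_last]; norm_num⟩

lemma mink_vc_qi (x y s t : ℝ) : mink (vc x y s t) qi = -s := by
  unfold qi; rw [mink_vc]; ring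

lemma qc_null (a b : ℝ) : mink (qc a b) (qc a b) = 0 := by unfold qc; rw [mink_vc]; ring

lemma mink_qc_qi (a b : ℝ) : mink (qc a b) qi = -1 := by unfold qc; rw [mink_vc_qi]

lemma mink_qc (a b a' b' : ℝ) :
    mink (qc a b) (qc a' b') = -((a - a') ^ 2 + (b - b') ^ 2) / 2 := by
  unfold qc; rw [mink_vc]; ring

/-- a null vector with positive `s` coordinate is a multiple of the null vector of a point -/
lemma eq_smul_qc {x y s t : ℝ} (hs : s ≠ 0) (h : mink (vc x y s t) (vc x y s t) = 0) :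
    vc x y s t = s • qc (x / s) (y / s) := by
  rw [mink_vc] at h
  unfold qc
  rw [vc_smul]
  have : t = s * ((x / s) ^ 2 + (y / s) ^ 2) := by
    field_simp
    linarith
  congr 1
  · field_simp
  · field_simp
  · ring

/-- Key growth estimate for the Shimizu-Leutbecher lemma. -/
lemma growth {x y s t x' y' t' : ℝ} (hs : 0 < s) (h : x * x + y * y = s * t)
    (h' : x' * x' + y' * y' = 2 * s ^ 2 * t')
    (hm : x * x' + y * y' - (s * t' + t * (2 * s ^ 2)) / 2 = -s) : t' ≤ 4 * s * t + 4 := by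
  have h1 : (s * x') ^ 2 + (s * y') ^ 2 ≤
      2 * ((2 * s ^ 2 * x) ^ 2 + (2 * s ^ 2 * y) ^ 2) +
      2 * ((s * x' - 2 * s ^ 2 * x) ^ 2 + (s * y' - 2 * s ^ 2 * y) ^ 2) := by
    nlinarith [sq_nonneg (s * x' - 2 * (2 * s ^ 2 * x)), sq_nonneg (s * y' - 2 * (2 * s ^ 2 * y))]
  have h2 : (s * x' - 2 * s ^ 2 * x) ^ 2 + (s * y' - 2 * s ^ 2 * y) ^ 2 =
      s ^ 2 * (x' * x' + y' * y') + 4 * s ^ 4 * (x * x + y * y) -
        4 * s ^ 3 * (x * x' + y * y') := by ring
  have h3 : x * x' + y * y' = -s + (s * t' + t * (2 * s ^ 2)) / 2 := by linarith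
  rw [h2, h, h', h3] at h1
  have h4 : (2 * s ^ 2 * x) ^ 2 + (2 * s ^ 2 * y) ^ 2 = 4 * s ^ 4 * (s * t) := by rw [← h]; ring
  have h5 : (s * x') ^ 2 + (s * y') ^ 2 = s ^ 2 * (2 * s ^ 2 * t') := by rw [← h']; ring
  rw [h4, h5] at h1
  have h6 : 2 * s ^ 4 * t' ≤ 2 * s ^ 4 * (4 * s * t + 4) := by nlinarith
  exact le_of_mul_le_mul_left h6 (by positivity)

section

variable {N : Subgroup (GG 3)}

/-- conjugate sequence used in the Shimizu-Leutbecher lemma -/
noncomputable def shs (T A : GG 3) : ℕ → GG 3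
  | 0 => A
  | j + 1 => shs T A j * T * (shs T A j)⁻¹

lemma shs_mem {T A : GG 3} (hT : T ∈ N) (hA : A ∈ N) (j : ℕ) : shs T A j ∈ N := by
  induction j with
  | zero => exact hA
  | succ j ih => exact N.mul_mem (N.mul_mem ih hT) (N.inv_mem ih)

/-- **Shimizu-Leutbecher lemma**: a discrete group containing the translation by `u`,
`mink u u = 4`, at the cusp `qi`. -/
theorem shimizu (hiso : ∀ A ∈ N, IsIsomHyp 3 A) (hD : Disc N) {T : GG 3} (hT : T ∈ N)
    {u : Fin (3 + 1) → ℝ} (hTu : IsPb T qi u) (hu : mink u qi = 0) (huu : mink u u = 4)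
    {A : GG 3} (hA : A ∈ N) :
    mink (ac A qi) qi = 0 ∨ mink (ac A qi) qi ≤ -(1 / 2) := by
  by_contra hcon
  push Not at hcon
  obtain ⟨hc1, hc2⟩ := hcon
  have hle : mink (ac A qi) qi ≤ 0 := mink_nonpos (iso_fwd (hiso A hA) qi_fwd) qi_fwd
  set B : ℕ → GG 3 := shs T A with hB
  have hBm : ∀ j, B j ∈ N := shs_mem hT hA
  set ε : ℕ → ℝ := fun j => - mink (ac (B j) qi) qi with hεdef
  have hPb : ∀ j, IsPb (B (j + 1)) (ac (B j) qi) (ac (B j) u) := fun j =>
    hTu.conj (hiso _ (hBm j))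
  have huu' : ∀ j, mink (ac (B j) u) (ac (B j) u) = 4 := fun j => by
    rw [iso_mink (hiso _ (hBm j)), huu]
  have hε0 : 0 < ε 0 := lt_of_le_of_ne (by simp only [hεdef]; exact neg_nonneg.2 hle)
    (fun h => hc1 (by simp only [hεdef] at h; exact (neg_eq_zero.1 h.symm)))
  have hε0' : ε 0 < 1 / 2 := by simp only [hεdef]; show - mink (ac A qi) qi < 1 / 2; linarith
  have hεs : ∀ j, ε (j + 1) = 2 * ε j ^ 2 := by
    intro j
    simp only [hεdef]
    rw [hPb j, mink_pf_self, huu', qi_null, mink_comm qi]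
    ring
  have hεpos : ∀ j, 0 < ε j := by
    intro j
    induction j with
    | zero => exact hε0
    | succ j ih => rw [hεs]; positivity
  have hεlt : ∀ j, ε j < 1 / 2 := by
    intro j
    induction j with
    | zero => exact hε0'
    | succ j ih => rw [hεs]; nlinarith [hεpos j]
  have hεanti : StrictAnti ε := by
    apply strictAnti_nat_of_succ_lt
    intro j
    rw [hεs]; nlinarith [hεpos j, hεlt j]
  -- the last coordinates
  set τ : ℕ → ℝ := fun j => (ac (B j) qi) 3 + (ac (B j) qi) 2 with hτdef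
  have hco : ∀ j, ac (B j) qi = vc (ac (B j) qi 0) (ac (B j) qi 1) (ε j) (τ j) := by
    intro j
    have h1 := vc_eq (ac (B j) qi)
    have h2 : ac (B j) qi 3 - ac (B j) qi 2 = ε j := by
      simp only [hεdef]
      conv_rhs => rw [h1]
      rw [mink_vc_qi]; ring
    rw [h2] at h1
    exact h1
  have hnull : ∀ j, ac (B j) qi 0 * ac (B j) qi 0 + ac (B j) qi 1 * ac (B j) qi 1 = ε j * τ j := by
    intro j
    have h1 : mink (ac (B j) qi) (ac (B j) qi) = 0 := by
      rw [iso_mink (hiso _ (hBm j)), qi_null]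
    rw [hco j, mink_vc] at h1
    linarith
  have hτnn : ∀ j, 0 ≤ τ j := by
    intro j
    have h1 := hnull j
    have h2 : 0 ≤ ε j * τ j := by
      rw [← h1]; exact add_nonneg (mul_self_nonneg _) (mul_self_nonneg _)
    exact nonneg_of_mul_nonneg_right h2 (hεpos j)
  have hgrow : ∀ j, τ (j + 1) ≤ 4 * ε j * τ j + 4 := by
    intro j
    apply growth (hεpos j) (hnull j)
    · have := hnull (j + 1)
      rw [hεs j] at this
      exact this
    · have h1 : mink (ac (B (j + 1)) qi) (ac (B j) qi) = - ε j := by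
        rw [hPb j, mink_pf_w]
        · simp only [hεdef]; rw [mink_comm]; ring
        · rw [iso_mink (hiso _ (hBm j)), qi_null]
        · rw [iso_mink (hiso _ (hBm j)), hu]
      rw [hco (j + 1), hco j, mink_vc, hεs j] at h1
      linarith
  -- eventually 4 ε ≤ 1/2
  have hpow : ∀ j, 2 * ε j ≤ (2 * ε 0) ^ (j + 1) := by
    intro j
    induction j with
    | zero => simp
    | succ j ih =>
      have h1 : 2 * ε (j + 1) = (2 * ε j) ^ 2 := by rw [hεs]; ring
      rw [h1]
      have h2 : (2 * ε j) ^ 2 ≤ ((2 * ε 0) ^ (j + 1)) ^ 2 :=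
        pow_le_pow_left₀ (by linarith [hεpos j]) ih 2
      have h3 : ((2 * ε 0) ^ (j + 1)) ^ 2 ≤ (2 * ε 0) ^ (j + 1 + 1) := by
        rw [← pow_mul]
        exact pow_le_pow_of_le_one (by linarith) (by linarith) (by omega)
      linarith
  obtain ⟨J, hJ⟩ := exists_pow_lt_of_lt_one (show (0 : ℝ) < 1 / 4 by norm_num)
    (show 2 * ε 0 < 1 by linarith)
  have hsmall : ∀ j, J ≤ j → 4 * ε j ≤ 1 / 2 := by
    intro j hj
    have h1 := hpow j
    have h2 : (2 * ε 0) ^ (j + 1) ≤ (2 * ε 0) ^ J :=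
      pow_le_pow_of_le_one (by linarith) (by linarith) (by omega)
    linarith
  have hbound : ∀ j, τ (J + j) ≤ max (τ J) 8 := by
    intro j
    induction j with
    | zero => exact le_max_left _ _
    | succ j ih =>
      have h1 := hgrow (J + j)
      have h2 := hsmall (J + j) (by omega)
      have h3 := hτnn (J + j)
      have h4 : 4 * ε (J + j) * τ (J + j) ≤ 1 / 2 * τ (J + j) :=
        mul_le_mul_of_nonneg_right h2 h3
      have h5 : (8 : ℝ) ≤ max (τ J) 8 := le_max_right _ _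
      show τ (J + j + 1) ≤ _
      linarith
  set M : ℝ := max (τ J) 8 with hM
  have hdsp : ∀ j, dsp (B (J + j + 1)) ≤ 1 + 2 * (M + 1) ^ 2 := by
    intro j
    have h0 : mink (eT 3) (ac (B (J + j)) qi) = -((ε (J + j) + τ (J + j)) / 2) := by
      rw [hco (J + j), eT3, mink_vc]; ring
    rw [(hPb (J + j)).dsp_eq, huu', h0]
    have h1 := hbound j
    have h2 := hτnn (J + j)
    have h3 := hεpos (J + j)
    have h4 := hεlt (J + j)
    have h5 : (-((ε (J + j) + τ (J + j)) / 2)) ^ 2 ≤ (M + 1) ^ 2 := by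
      rw [neg_sq]
      apply pow_le_pow_left₀
      · positivity
      · linarith
    linarith
  have hfin := hD (1 + 2 * (M + 1) ^ 2)
  have hinf : Set.Infinite {A | A ∈ N ∧ dsp A ≤ 1 + 2 * (M + 1) ^ 2} := by
    apply Set.infinite_of_injective_forall_mem (f := fun j : ℕ => B (J + j + 1))
    · intro i j hij
      have h1 : ε (J + i + 1) = ε (J + j + 1) := by
        simp only [hεdef]
        simp only at hij
        rw [hij]
      have h2 := hεanti.injective h1
      omega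
    · intro j
      exact ⟨hBm _, hdsp j⟩
  exact hinf hfin

/-- elements of a discrete group containing a translation at the cusp `qi` do not contract
the horospheres at `qi` -/
theorem no_dilation_aux (hiso : ∀ A ∈ N, IsIsomHyp 3 A) (hD : Disc N) {T : GG 3} (hT : T ∈ N)
    {u : Fin (3 + 1) → ℝ} (hTu : IsPb T qi u) (huu : mink u u = 4)
    {A : GG 3} (hA : A ∈ N) {r : ℝ} (hr : ac A qi = r • qi) : 1 ≤ r := by
  have hr0 : 0 < r := by
    have h1 := (iso_fwd (hiso A hA) qi_fwd).2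
    rw [hr] at h1
    have h2 := qi_fwd.2
    simp only [Pi.smul_apply, smul_eq_mul] at h1
    exact pos_of_mul_pos_left h1 h2.le
  by_contra hcon
  push Not at hcon
  have hpow : ∀ j : ℕ, ac (A ^ j) qi = r ^ j • qi := by
    intro j
    induction j with
    | zero => rw [pow_zero, pow_zero, ac_one, one_smul]
    | succ j ih => rw [pow_succ, ac_mul, hr, ac_smul, ih, smul_smul, pow_succ]; ring_nf
  have hmem : ∀ j : ℕ, A ^ j ∈ N := fun j => N.pow_mem hA j
  have hPb : ∀ j : ℕ, IsPb (A ^ j * T * (A ^ j)⁻¹) (r ^ j • qi) (ac (A ^ j) u) := by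
    intro j
    have := hTu.conj (hiso _ (hmem j))
    rwa [hpow j] at this
  have hd : ∀ j : ℕ, dsp (A ^ j * T * (A ^ j)⁻¹) = 1 + 2 * (r ^ j) ^ 2 := by
    intro j
    rw [(hPb j).dsp_eq, iso_mink (hiso _ (hmem j)), huu, mink_smul_right, eT3, mink_vc_qi]
    ring
  have hfin := hD 3
  have hinf : Set.Infinite {A | A ∈ N ∧ dsp A ≤ 3} := by
    apply Set.infinite_of_injective_forall_mem (f := fun j : ℕ => A ^ j * T * (A ^ j)⁻¹)
    · intro i j hij
      have h1 : dsp (A ^ i * T * (A ^ i)⁻¹) = dsp (A ^ j * T * (A ^ j)⁻¹) := congrArg dsp hij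
      rw [hd, hd] at h1
      have h2 : r ^ i = r ^ j := by
        have h3 : (0 : ℝ) < r ^ i := pow_pos hr0 i
        have h4 : (0 : ℝ) < r ^ j := pow_pos hr0 j
        have h5 : (r ^ i - r ^ j) * (r ^ i + r ^ j) = 0 := by ring_nf; ring_nf at h1; linarith
        rcases mul_eq_zero.1 h5 with h6 | h6
        · linarith
        · linarith
      exact pow_right_injective₀ hr0 hcon.ne h2
    · intro j
      refine ⟨N.mul_mem (N.mul_mem (hmem j) hT) (N.inv_mem (hmem j)), ?_⟩
      show dsp (A ^ j * T * (A ^ j)⁻¹) ≤ 3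
      rw [hd]
      have h1 : r ^ j ≤ 1 := pow_le_one₀ hr0.le hcon.le
      have h2 : (r ^ j) ^ 2 ≤ 1 := pow_le_one₀ (pow_nonneg hr0.le j) h1
      linarith
  exact hinf hfin

theorem no_dilation (hiso : ∀ A ∈ N, IsIsomHyp 3 A) (hD : Disc N) {T : GG 3} (hT : T ∈ N)
    {u : Fin (3 + 1) → ℝ} (hTu : IsPb T qi u) (huu : mink u u = 4)
    {A : GG 3} (hA : A ∈ N) {r : ℝ} (hr : ac A qi = r • qi) : r = 1 := by
  have h1 := no_dilation_aux hiso hD hT hTu huu hA hr
  have h2 : ac A⁻¹ qi = r⁻¹ • qi := by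
    have h3 : ac A⁻¹ (ac A qi) = qi := ac_inv_ac A qi
    rw [hr, ac_smul] at h3
    rw [← h3, smul_smul, inv_mul_cancel₀ (by linarith), one_smul, h3]
  have h3 := no_dilation_aux hiso hD hT hTu huu (N.inv_mem hA) h2
  have h4 : r ≤ 1 := by
    have h5 : 0 < r := by linarith
    have h6 : r * r⁻¹ = 1 := mul_inv_cancel₀ h5.ne'
    nlinarith
  linarith

end

end Pool.Agent.H851R2
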