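import Pool.Agent.H851R2.QFam

set_option autoImplicit false

/-!
# The stabiliser of the cusp at infinity
-/

namespace Pool.Agent.H851R2

open Matrix
open Pool.Agent.Helper613.DH

lemma ua : mink (vc 1 0 0 0) (vc 1 0 0 0) = 1 := by rw [mink_vc]; ring
lemma ub : mink (vc (-1) 0 0 (-2)) (vc (-1) 0 0 (-2)) = 1 := by rw [mink_vc]; ring
lemma uc : mink (vc 0 1 0 (-1)) (vc 0 1 0 (-1)) = 1 := by rw [mink_vc]; ring
lemma ud (m : ℕ) : mink (vc 0 (-1) 0 (-(8 * m + 4))) (vc 0 (-1) 0 (-(8 * m + 4))) = 1 := by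
  rw [mink_vc]; ring
lemma u5 : mink (vc 0 1 (-2) 0) (vc 0 1 (-2) 0) = 1 := by rw [mink_vc]; ring
lemma u1 (i : ℕ) : mink (wS1 i) (wS1 i) = 1 := by unfold wS1; rw [mink_vc]; ring
lemma u4 (i : ℕ) : mink (wS4 i) (wS4 i) = 1 := by unfold wS4; rw [mink_vc]; ring

/-- reflection in `x = 0` -/
noncomputable def Ra : GG 3 := Rm (vc 1 0 0 0) ua
/-- reflection in `x = 1` -/
noncomputable def Rb : GG 3 := Rm (vc (-1) 0 0 (-2)) ub
/-- reflection in `y = -1/2` -/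
noncomputable def Rc : GG 3 := Rm (vc 0 1 0 (-1)) uc
/-- reflection in `y = 4 m + 2` -/
noncomputable def Rd (m : ℕ) : GG 3 := Rm (vc 0 (-1) 0 (-(8 * m + 4))) (ud m)
/-- reflection in the sphere with centre `(0,-1/2)` and radius `1/2` -/
noncomputable def R5 : GG 3 := Rm (vc 0 1 (-2) 0) u5
/-- reflection in the sphere with centre `(1,4 i)` and radius `1` -/
noncomputable def R1 (i : ℕ) : GG 3 := Rm (wS1 i) (u1 i)
/-- reflection in the sphere with centre `(0,4 i + 2)` and radius `2` -/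
noncomputable def R4 (i : ℕ) : GG 3 := Rm (wS4 i) (u4 i)

lemma Ra_mem (m : ℕ) : Ra ∈ Gam m := Rm_mem (e := wl m) (he := wl_unit m) (Sum.inl 0)
lemma Rb_mem (m : ℕ) : Rb ∈ Gam m := Rm_mem (e := wl m) (he := wl_unit m) (Sum.inl 1)
lemma Rc_mem (m : ℕ) : Rc ∈ Gam m := Rm_mem (e := wl m) (he := wl_unit m) (Sum.inl 2)
lemma Rd_mem (m : ℕ) : Rd m ∈ Gam m := Rm_mem (e := wl m) (he := wl_unit m) (Sum.inl 3)
lemma R5_mem (m : ℕ) : R5 ∈ Gam m := Rm_mem (e := wl m) (he := wl_unit m) (Sum.inl 4)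
lemma R1_mem {m i : ℕ} (hi : i ≤ m) : R1 i ∈ Gam m :=
  Rm_mem (e := wl m) (he := wl_unit m) (Sum.inr (Sum.inl ⟨i, Nat.lt_succ_iff.2 hi⟩))
lemma R4_mem {m i : ℕ} (hi : i ≤ m) : R4 i ∈ Gam m :=
  Rm_mem (e := wl m) (he := wl_unit m) (Sum.inr (Sum.inr ⟨i, Nat.lt_succ_iff.2 hi⟩))

lemma ac_Ra (x y s t : ℝ) : ac Ra (vc x y s t) = vc (-x) y s t := by
  unfold Ra
  rw [ac_Rm, mink_vc, vc_smul, vc_sub]
  congr 1 <;> ring

lemma ac_Rc (x y s t : ℝ) : ac Rc (vc x y s t) = vc x (-y - s) s (t + 2 * y + s) := by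
  unfold Rc
  rw [ac_Rm, mink_vc, vc_smul, vc_sub]
  congr 1 <;> ring

lemma ac_Rd (m : ℕ) (x y s t : ℝ) : ac (Rd m) (vc x y s t) =
    vc x (-y + (8 * m + 4) * s) s (t - 2 * (8 * m + 4) * y + (8 * m + 4) ^ 2 * s) := by
  unfold Rd
  rw [ac_Rm, mink_vc, vc_smul, vc_sub]
  congr 1 <;> ring

lemma ac_Ra_qi : ac Ra qi = qi := by unfold qi; rw [ac_Ra]; norm_num
lemma ac_Rc_qi : ac Rc qi = qi := by unfold qi; rw [ac_Rc]; norm_num
lemma ac_Rd_qi (m : ℕ) : ac (Rd m) qi = qi := by unfold qi; rw [ac_Rd]; norm_num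

lemma ac_Rc_qc (r b : ℝ) : ac Rc (r • qc 0 b) = r • qc 0 (-1 - b) := by
  rw [ac_smul]
  unfold qc
  rw [ac_Rc]
  congr 2 <;> ring

lemma ac_Rd_qc (m : ℕ) (r b : ℝ) : ac (Rd m) (r • qc 0 b) = r • qc 0 (8 * m + 4 - b) := by
  rw [ac_smul]
  unfold qc
  rw [ac_Rd]
  congr 2 <;> ring

lemma ac_R4_qi (i : ℕ) : ac (R4 i) qi = (1 / 2 : ℝ) • qc 0 (4 * i + 2) := by
  unfold R4 qi wS4 qc
  rw [ac_Rm, mink_vc, vc_smul, vc_sub, vc_smul]
  congr 1 <;> ring

lemma iso_Ra : IsIsomHyp 3 Ra := iso_Rm _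
lemma iso_Rc : IsIsomHyp 3 Rc := iso_Rm _

variable {N : Subgroup (GG 3)} {m : ℕ}

lemma Orb.mul {v : Fin (3 + 1) → ℝ} (h : Orb N v) {A : GG 3} (hA : A ∈ N) : Orb N (ac A v) := by
  obtain ⟨B, hB, rfl⟩ := h
  exact ⟨A * B, N.mul_mem hA hB, ac_mul A B qi⟩

theorem cuspData (hsub : Gam m ≤ N) (hiso : ∀ A ∈ N, IsIsomHyp 3 A) (hD : Disc N) :
    CuspData m N where
  iso := hiso
  disc := hD
  tx := by
    have h1 : IsPb (Ra * Rb) qi ((-2 : ℝ) • vc 1 0 0 0) := by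
      apply isPb_of_tangent ua ub _ qi_null (by rw [mink_vc_qi]; ring)
      unfold qi
      rw [vc_neg, vc_sub]; congr 1 <;> ring
    rw [vc_smul] at h1
    have h2 : Tr N (-2) 0 := by
      refine ⟨Ra * Rb, N.mul_mem (hsub (Ra_mem m)) (hsub (Rb_mem m)), ?_⟩
      convert h1 using 2 <;> ring
    have h3 := h2.neg
    rwa [neg_neg, neg_zero] at h3
  ty := by
    have h1 : IsPb (Rc * Rd m) (((8 * m + 5) / 2 : ℝ) • qi) ((-2 : ℝ) • vc 0 1 0 (-1)) := by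
      apply isPb_of_tangent uc (ud m)
      · unfold qi
        rw [vc_neg, vc_smul, vc_sub]; congr 1 <;> ring
      · rw [mink_smul_left, mink_smul_right, qi_null]; ring
      · rw [mink_smul_right, mink_vc_qi]; ring
    have h2 := h1.smul_left
    rw [vc_smul, vc_smul] at h2
    have h3 : Tr N 0 (-(8 * m + 5)) := by
      refine ⟨Rc * Rd m, N.mul_mem (hsub (Rc_mem m)) (hsub (Rd_mem m)), ?_⟩
      apply IsPb.shift (c := (8 * m + 5) / 2) _ qi_null (vc0_qi _ _)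
      convert h2 using 1
      unfold qi
      rw [vc_smul, vc_add]
      congr 1 <;> ring
    have h4 := h3.neg
    rwa [neg_neg, neg_zero] at h4
  refl := by
    rintro a b ⟨A, hA, hA2⟩
    refine ⟨Ra * A * Ra⁻¹, N.mul_mem (N.mul_mem (hsub (Ra_mem m)) hA)
      (N.inv_mem (hsub (Ra_mem m))), ?_⟩
    have := hA2.conj iso_Ra
    rw [ac_Ra_qi, ac_Ra] at this
    exact this
  lo := by
    have h1 : Orb N ((1 / 2 : ℝ) • qc 0 (4 * ((0 : ℕ) : ℝ) + 2)) :=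
      ⟨R4 0, hsub (R4_mem (Nat.zero_le m)), ac_R4_qi 0⟩
    have h2 := h1.mul (hsub (Rc_mem m))
    rw [ac_Rc_qc] at h2
    convert h2 using 3
    norm_num
  ctr := by
    intro i hi
    by_cases him : i ≤ m
    · exact ⟨R4 i, hsub (R4_mem him), ac_R4_qi i⟩
    · have h0 : 2 * m - i ≤ m := by omega
      have h1 : Orb N ((1 / 2 : ℝ) • qc 0 (4 * ((2 * m - i : ℕ) : ℝ) + 2)) :=
        ⟨R4 (2 * m - i), hsub (R4_mem h0), ac_R4_qi _⟩
      have h2 := h1.mul (hsub (Rd_mem m))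
      rw [ac_Rd_qc] at h2
      convert h2 using 3
      rw [Nat.cast_sub hi]
      push_cast
      ring

/-- an isometry fixing `qi` with trivial linear part is a parabolic translation -/
lemma isPb_of_fix {A : GG 3} (hA : IsIsomHyp 3 A) (h0 : ac A qi = qi) {τ1 τ2 : ℝ}
    (h1 : ac A (vc 2 0 0 0) = vc 2 0 0 τ1) (h2 : ac A (vc 0 1 0 0) = vc 0 1 0 τ2) :
    ∃ x y : ℝ, IsPb A qi (vc x y 0 0) := by
  obtain ⟨x, y, s, t, h3⟩ := exists_vc (ac A (vc 0 0 1 0))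
  have hs : s = 1 := by
    have h4 : mink (ac A (vc 0 0 1 0)) (ac A qi) = -1 := by
      rw [iso_mink hA, mink_vc_qi]
    rw [h0, h3, mink_vc_qi] at h4
    linarith
  subst hs
  have ht : t = x ^ 2 + y ^ 2 := by
    have h4 : mink (ac A (vc 0 0 1 0)) (ac A (vc 0 0 1 0)) = 0 := by
      rw [iso_mink hA, mink_vc]; ring
    rw [h3, mink_vc] at h4
    linarith
  have e1 : τ1 = 4 * x := by
    have h4 : mink (ac A (vc 2 0 0 0)) (ac A (vc 0 0 1 0)) = 0 := by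
      rw [iso_mink hA, mink_vc]; ring
    rw [h3, h1, mink_vc] at h4
    linarith
  have e2 : τ2 = 2 * y := by
    have h4 : mink (ac A (vc 0 1 0 0)) (ac A (vc 0 0 1 0)) = 0 := by
      rw [iso_mink hA, mink_vc]; ring
    rw [h3, h2, mink_vc] at h4
    linarith
  refine ⟨x, y, ?_⟩
  intro v
  obtain ⟨a, b, s, t', rfl⟩ := exists_vc v
  have h5 : vc a b s t' = (a / 2) • vc 2 0 0 0 + b • vc 0 1 0 0 + s • vc 0 0 1 0 + (t' / 2) • qi := by
    unfold qi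
    rw [vc_smul, vc_smul, vc_smul, vc_smul, vc_add, vc_add, vc_add]
    congr 1 <;> ring
  rw [h5, ac_add, ac_add, ac_add, ac_smul, ac_smul, ac_smul, ac_smul, h0, h1, h2, h3, ← h5]
  unfold pf
  rw [mink_vc_qi, mink_vc, mink_vc, ht, e1, e2]
  unfold qi
  simp only [vc_smul, vc_add, vc_sub]
  congr 1 <;> ring

/-- translations of a discrete group containing `Gam m` lie in `Gam m` -/
lemma mem_of_tr (hm : 1 ≤ m) (hsub : Gam m ≤ N) (hiso : ∀ A ∈ N, IsIsomHyp 3 A) (hD : Disc N)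
    {A : GG 3} (hA : A ∈ N) {x y : ℝ} (h : IsPb A qi (vc x y 0 0)) : A ∈ Gam m := by
  obtain ⟨k, l, hk, hl⟩ := lattice hm (cuspData hsub hiso hD) ⟨A, hA, h⟩
  have hG := cuspData (m := m) (N := Gam m) (le_refl _) (fun A hA => iso_Gam hA) (disc_Gam m)
  have h1 := (hG.tx.zsmul k).add (hG.ty.zsmul l)
  rw [mul_zero, mul_zero, add_zero, zero_add, mul_comm (k : ℝ), mul_comm (l : ℝ), ← hk, ← hl] at h1
  obtain ⟨B, hB, hB2⟩ := h1
  rw [h.unique hB2]
  exact hB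

/-- the stabiliser of the cusp in a discrete group containing `Gam m` is contained in `Gam m` -/
theorem stab (hm : 1 ≤ m) (hsub : Gam m ≤ N) (hiso : ∀ A ∈ N, IsIsomHyp 3 A) (hD : Disc N)
    {A : GG 3} (hA : A ∈ N) (h0 : ac A qi = qi) : A ∈ Gam m := by
  have hm' : (1 : ℝ) ≤ m := by exact_mod_cast hm
  have hA' := hiso A hA
  have hC := cuspData hsub hiso hD
  obtain ⟨T, hT, hT2⟩ := hC.tx
  obtain ⟨a, b, s, τ, h1⟩ := exists_vc (ac A (vc 2 0 0 0))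
  obtain ⟨a', b', s', τ', h2⟩ := exists_vc (ac A (vc 0 1 0 0))
  have hs : s = 0 := by
    have h4 : mink (ac A (vc 2 0 0 0)) (ac A qi) = 0 := by rw [iso_mink hA', mink_vc_qi]; ring
    rw [h0, h1, mink_vc_qi] at h4
    linarith
  have hs' : s' = 0 := by
    have h4 : mink (ac A (vc 0 1 0 0)) (ac A qi) = 0 := by rw [iso_mink hA', mink_vc_qi]; ring
    rw [h0, h2, mink_vc_qi] at h4
    linarith
  subst hs hs'
  have hab : a ^ 2 + b ^ 2 = 4 := by
    have h4 : mink (ac A (vc 2 0 0 0)) (ac A (vc 2 0 0 0)) = 4 := by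
      rw [iso_mink hA', mink_vc]; ring
    rw [h1, mink_vc] at h4
    linarith
  have hab' : a' ^ 2 + b' ^ 2 = 1 := by
    have h4 : mink (ac A (vc 0 1 0 0)) (ac A (vc 0 1 0 0)) = 1 := by
      rw [iso_mink hA', mink_vc]; ring
    rw [h2, mink_vc] at h4
    linarith
  have horth : a * a' + b * b' = 0 := by
    have h4 : mink (ac A (vc 2 0 0 0)) (ac A (vc 0 1 0 0)) = 0 := by
      rw [iso_mink hA', mink_vc]; ring
    rw [h1, h2, mink_vc] at h4
    linarith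
  have hTr : Tr N a b := by
    refine ⟨A * T * A⁻¹, N.mul_mem (N.mul_mem hA hT) (N.inv_mem hA), ?_⟩
    have h5 := hT2.conj hA'
    rw [h0, h1] at h5
    apply IsPb.shift (c := τ / 2) _ qi_null (vc0_qi _ _)
    convert h5 using 1
    unfold qi
    rw [vc_smul, vc_add]
    congr 1 <;> ring
  obtain ⟨k, l, hk, hl⟩ := lattice hm hC hTr
  have hl0 : l = 0 := by
    by_contra hne
    have h5 : (1 : ℤ) ≤ l ^ 2 := by
      have : 0 < l ^ 2 := by positivity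
      omega
    have h6 : (1 : ℝ) ≤ (l : ℝ) ^ 2 := by exact_mod_cast h5
    have h7 : b ^ 2 = (8 * m + 5) ^ 2 * (l : ℝ) ^ 2 := by rw [hl]; ring
    nlinarith [sq_nonneg a]
  have hb0 : b = 0 := by rw [hl, hl0]; push_cast; ring
  subst hb0
  have ha2 : a ^ 2 = 4 := by linarith
  have ha0 : a ≠ 0 := by rintro rfl; norm_num at ha2
  have ha'0 : a' = 0 := by
    have : a * a' = 0 := by linarith
    rcases mul_eq_zero.1 this with h | h
    · exact absurd h ha0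
    · exact h
  subst ha'0
  have hb2 : b' ^ 2 = 1 := by linarith
  -- the final step: all signs positive
  have final : ∀ B ∈ N, ac B qi = qi → (∃ σ, ac B (vc 2 0 0 0) = vc 2 0 0 σ) →
      (∃ σ, ac B (vc 0 1 0 0) = vc 0 1 0 σ) → B ∈ Gam m := by
    rintro B hB hB0 ⟨σ1, hB1⟩ ⟨σ2, hB2⟩
    obtain ⟨x, y, hxy⟩ := isPb_of_fix (hiso B hB) hB0 hB1 hB2
    exact mem_of_tr hm hsub hiso hD hB hxy
  -- second sign
  have final2 : ∀ B ∈ N, ac B qi = qi → (∃ σ, ac B (vc 2 0 0 0) = vc 2 0 0 σ) →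
      (∃ σ, ac B (vc 0 1 0 0) = vc 0 b' 0 σ) → B ∈ Gam m := by
    rintro B hB hB0 ⟨σ1, hB1⟩ ⟨σ2, hB2⟩
    have hb : b' = 1 ∨ b' = -1 := by
      have : (b' - 1) * (b' + 1) = 0 := by ring_nf; linarith
      rcases mul_eq_zero.1 this with h | h
      · left; linarith
      · right; linarith
    rcases hb with rfl | rfl
    · exact final B hB hB0 ⟨σ1, hB1⟩ ⟨σ2, hB2⟩
    · have h5 : Rc * B ∈ Gam m := by
        apply final (Rc * B) (N.mul_mem (hsub (Rc_mem m)) hB)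
        · rw [ac_mul, hB0, ac_Rc_qi]
        · refine ⟨σ1, ?_⟩
          rw [ac_mul, hB1, ac_Rc]
          congr 1 <;> ring
        · refine ⟨σ2 - 2, ?_⟩
          rw [ac_mul, hB2, ac_Rc]
          congr 1 <;> ring
      have h6 := (Gam m).mul_mem ((Gam m).inv_mem (Rc_mem m)) h5
      rwa [inv_mul_cancel_left] at h6
  have ha : a = 2 ∨ a = -2 := by
    have : (a - 2) * (a + 2) = 0 := by ring_nf; linarith
    rcases mul_eq_zero.1 this with h | h
    · left; linarith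
    · right; linarith
  rcases ha with rfl | rfl
  · exact final2 A hA h0 ⟨τ, h1⟩ ⟨τ', h2⟩
  · have h5 : Ra * A ∈ Gam m := by
      apply final2 (Ra * A) (N.mul_mem (hsub (Ra_mem m)) hA)
      · rw [ac_mul, h0, ac_Ra_qi]
      · refine ⟨τ, ?_⟩
        rw [ac_mul, h1, ac_Ra]
        congr 1; ring
      · refine ⟨τ', ?_⟩
        rw [ac_mul, h2, ac_Ra]
        congr 1; ring
    have h6 := (Gam m).mul_mem ((Gam m).inv_mem (Ra_mem m)) h5
    rwa [inv_mul_cancel_left] at h6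

end Pool.Agent.H851R2
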