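import Pool.Agent.H851R2.QDisc

set_option autoImplicit false

/-!
# Tits' lemma for linear reflection groups whose Gram matrix has off-diagonal entries
`0`, `-1/2` or at most `-1`
-/

namespace Pool.Agent.H851R2

open Matrix
open Pool.Agent.Helper613.DH

variable {n : ℕ} {ι : Type}

section

variable (e : ι → Fin (n + 1) → ℝ) (he : ∀ i, mink (e i) (e i) = 1)

/-- the group generated by the reflections in the hyperplanes orthogonal to the `e i` -/
def RG : Subgroup (GG n) := Subgroup.closure (Set.range fun i => Rm (e i) (he i))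

/-- product of a word in the generating reflections -/
noncomputable def wprod (l : List ι) : GG n := (l.map fun i => Rm (e i) (he i)).prod

/-- word length -/
noncomputable def len (A : GG n) : ℕ := sInf {k | ∃ l : List ι, l.length = k ∧ wprod e he l = A}

variable {e he}

lemma wprod_mem (l : List ι) : wprod e he l ∈ RG e he := by
  unfold wprod
  apply Subgroup.list_prod_mem
  intro x hx
  rw [List.mem_map] at hx
  obtain ⟨i, _, rfl⟩ := hx
  exact Subgroup.subset_closure ⟨i, rfl⟩

lemma Rm_mem (i : ι) : Rm (e i) (he i) ∈ RG e he := Subgroup.subset_closure ⟨i, rfl⟩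

lemma wprod_append (l l' : List ι) : wprod e he (l ++ l') = wprod e he l * wprod e he l' := by
  unfold wprod; rw [List.map_append, List.prod_append]

lemma wprod_cons (i : ι) (l : List ι) : wprod e he (i :: l) = Rm (e i) (he i) * wprod e he l := by
  unfold wprod; rw [List.map_cons, List.prod_cons]

lemma wprod_reverse (l : List ι) : wprod e he l.reverse = (wprod e he l)⁻¹ := by
  induction l with
  | nil => simp [wprod]
  | cons i l ih =>
    have h1 : wprod e he [i] = Rm (e i) (he i) := by simp [wprod]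
    rw [List.reverse_cons, wprod_append, ih, wprod_cons i l, h1, _root_.mul_inv_rev, Rm_inv]

lemma exists_word {A : GG n} (hA : A ∈ RG e he) : ∃ l : List ι, wprod e he l = A := by
  unfold RG at hA
  induction hA using Subgroup.closure_induction with
  | mem x hx =>
    obtain ⟨i, rfl⟩ := hx
    exact ⟨[i], by simp [wprod]⟩
  | one => exact ⟨[], by simp [wprod]⟩
  | mul x y _ _ hx hy =>
    obtain ⟨l, rfl⟩ := hx
    obtain ⟨l', rfl⟩ := hy
    exact ⟨l ++ l', wprod_append l l'⟩
  | inv x _ hx =>
    obtain ⟨l, rfl⟩ := hx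
    exact ⟨l.reverse, wprod_reverse l⟩

lemma len_le (l : List ι) : len e he (wprod e he l) ≤ l.length :=
  Nat.sInf_le ⟨l, rfl, rfl⟩

lemma len_spec {A : GG n} (hA : A ∈ RG e he) :
    ∃ l : List ι, l.length = len e he A ∧ wprod e he l = A := by
  obtain ⟨l, hl⟩ := exists_word hA
  exact Nat.sInf_mem (s := {k | ∃ l : List ι, l.length = k ∧ wprod e he l = A}) ⟨_, l, rfl, hl⟩

lemma len_R_le {A : GG n} (hA : A ∈ RG e he) (i : ι) :
    len e he (Rm (e i) (he i) * A) ≤ len e he A + 1 := by
  obtain ⟨l, hl, rfl⟩ := len_spec hA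
  rw [← wprod_cons, ← hl]
  exact len_le (i :: l)

lemma R_mem {A : GG n} (hA : A ∈ RG e he) (i : ι) : Rm (e i) (he i) * A ∈ RG e he :=
  Subgroup.mul_mem _ (Rm_mem i) hA

lemma R_R (A : GG n) (i : ι) : Rm (e i) (he i) * (Rm (e i) (he i) * A) = A := by
  rw [← mul_assoc, Rm_sq, one_mul]

lemma len_le_R {A : GG n} (hA : A ∈ RG e he) (i : ι) :
    len e he A ≤ len e he (Rm (e i) (he i) * A) + 1 := by
  have := len_R_le (R_mem hA i) i
  rwa [R_R] at this

lemma exists_desc {A : GG n} (hA : A ∈ RG e he) (h : len e he A ≠ 0) :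
    ∃ j, len e he (Rm (e j) (he j) * A) + 1 = len e he A := by
  obtain ⟨l, hl, hl2⟩ := len_spec hA
  cases l with
  | nil => simp at hl; omega
  | cons j l =>
    refine ⟨j, ?_⟩
    have h1 : Rm (e j) (he j) * A = wprod e he l := by
      rw [← hl2, wprod_cons, R_R]
    have h2 := len_le (e := e) (he := he) l
    have h3 := len_le_R hA j
    rw [h1] at h3 ⊢
    simp only [List.length_cons] at hl
    omega

lemma eq_one_of_len {A : GG n} (hA : A ∈ RG e he) (h : len e he A = 0) : A = 1 := by
  obtain ⟨l, hl, rfl⟩ := len_spec hA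
  rw [h] at hl
  rw [List.length_eq_zero_iff.1 hl]
  simp [wprod]

/-- pairing after a reflection -/
lemma mink_R (A : GG n) (i j : ι) (x : Fin (n + 1) → ℝ) :
    mink (ac (Rm (e j) (he j) * A) x) (e i) =
      mink (ac A x) (e i) - 2 * mink (ac A x) (e j) * mink (e i) (e j) := by
  rw [ac_mul, ac_Rm, mink_sub_left, mink_smul_left, mink_comm (e j) (e i)]

lemma comm_R {i j : ι} (h : mink (e i) (e j) = 0) :
    Rm (e i) (he i) * Rm (e j) (he j) = Rm (e j) (he j) * Rm (e i) (he i) := by
  apply GG_ext
  intro x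
  have h' : mink (e j) (e i) = 0 := by rw [mink_comm]; exact h
  simp only [ac_mul, ac_Rm, mink_sub_left, mink_smul_left, h, h']
  module

lemma braid_R {i j : ι} (h : mink (e i) (e j) = -(1 / 2)) :
    Rm (e i) (he i) * (Rm (e j) (he j) * Rm (e i) (he i)) =
      Rm (e j) (he j) * (Rm (e i) (he i) * Rm (e j) (he j)) := by
  apply GG_ext
  intro x
  have h' : mink (e j) (e i) = -(1 / 2) := by rw [mink_comm]; exact h
  simp only [ac_mul, ac_Rm, mink_sub_left, mink_smul_left, h, h', he]
  module

/-- the closed chamber -/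
def Cham (e : ι → Fin (n + 1) → ℝ) : Set (Fin (n + 1) → ℝ) := {x | ∀ i, 0 ≤ mink x (e i)}

theorem tits_aux (hG : ∀ i j, i ≠ j →
      mink (e i) (e j) = 0 ∨ mink (e i) (e j) = -(1 / 2) ∨ mink (e i) (e j) ≤ -1)
    (k : ℕ) : ∀ A ∈ RG e he, len e he A = k →
      (∀ i, len e he A ≤ len e he (Rm (e i) (he i) * A) → ∀ x ∈ Cham e,
        0 ≤ mink (ac A x) (e i)) ∧
      (∀ i j, i ≠ j → mink (e i) (e j) ≤ -1 → len e he (Rm (e j) (he j) * A) < len e he A →
        ∀ x ∈ Cham e, 0 ≤ mink (ac A x) (e i) ∧
          0 ≤ mink (ac A x) (e i) + mink (ac A x) (e j)) := by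
  induction k using Nat.strong_induction_on with
  | _ k IH =>
  intro A hA hk
  have S2 : ∀ i j, i ≠ j → mink (e i) (e j) ≤ -1 →
      len e he (Rm (e j) (he j) * A) < len e he A →
        ∀ x ∈ Cham e, 0 ≤ mink (ac A x) (e i) ∧
          0 ≤ mink (ac A x) (e i) + mink (ac A x) (e j) := by
    intro i j hij hc hlt x hx
    obtain ⟨A', hA'⟩ : ∃ A', A' = Rm (e j) (he j) * A := ⟨_, rfl⟩
    rw [← hA'] at hlt
    have hA'm : A' ∈ RG e he := hA' ▸ R_mem hA j
    have hAA' : A = Rm (e j) (he j) * A' := by rw [hA', R_R]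
    have e1 : mink (ac A x) (e i) =
        mink (ac A' x) (e i) - 2 * mink (ac A' x) (e j) * mink (e i) (e j) := by
      rw [hAA', mink_R]
    have e2 : mink (ac A x) (e j) = - mink (ac A' x) (e j) := by
      rw [hAA', mink_R, he]; ring
    have ih := IH (len e he A') (by omega) A' hA'm rfl
    have hq : 0 ≤ mink (ac A' x) (e j) := by
      apply ih.1 j _ x hx
      rw [← hAA']; omega
    rw [e1, e2]
    by_cases hcase : len e he A' ≤ len e he (Rm (e i) (he i) * A')
    · have hp := ih.1 i hcase x hx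
      constructor
      · nlinarith
      · nlinarith
    · push Not at hcase
      obtain ⟨h3, h4⟩ := ih.2 j i hij.symm (by rw [mink_comm]; exact hc) hcase x hx
      constructor
      · nlinarith
      · nlinarith
  refine ⟨?_, S2⟩
  intro i hi x hx
  by_cases hk0 : len e he A = 0
  · rw [eq_one_of_len hA hk0, ac_one]
    exact hx i
  obtain ⟨j, hj⟩ := exists_desc hA hk0
  have hij : i ≠ j := by
    rintro rfl
    omega
  obtain ⟨A', hA'⟩ : ∃ A', A' = Rm (e j) (he j) * A := ⟨_, rfl⟩
  have hj' := hj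
  rw [← hA'] at hj
  have hA'm : A' ∈ RG e he := hA' ▸ R_mem hA j
  have hAA' : A = Rm (e j) (he j) * A' := by rw [hA', R_R]
  have e1 : mink (ac A x) (e i) =
      mink (ac A' x) (e i) - 2 * mink (ac A' x) (e j) * mink (e i) (e j) := by
    rw [hAA', mink_R]
  have ih := IH (len e he A') (by omega) A' hA'm rfl
  have hq : 0 ≤ mink (ac A' x) (e j) := by
    apply ih.1 j _ x hx
    rw [← hAA']; omega
  rcases hG i j hij with h0 | h0 | h0
  · rw [e1, h0, mul_zero, sub_zero]
    apply ih.1 i _ x hx
    by_contra hcon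
    push Not at hcon
    have h1 : Rm (e i) (he i) * A = Rm (e j) (he j) * (Rm (e i) (he i) * A') := by
      rw [hAA', ← mul_assoc, ← mul_assoc, comm_R h0]
    have h2 := len_R_le (R_mem hA'm i) j
    rw [← h1] at h2
    omega
  · rw [e1, h0]
    by_cases hcase : len e he A' ≤ len e he (Rm (e i) (he i) * A')
    · have hp := ih.1 i hcase x hx
      nlinarith
    · push Not at hcase
      obtain ⟨A'', hA''⟩ : ∃ A'', A'' = Rm (e i) (he i) * A' := ⟨_, rfl⟩
      rw [← hA''] at hcase
      have hA''m : A'' ∈ RG e he := hA'' ▸ R_mem hA'm i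
      have hAA'' : A' = Rm (e i) (he i) * A'' := by rw [hA'', R_R]
      have e3 : mink (ac A' x) (e i) = - mink (ac A'' x) (e i) := by
        rw [hAA'', mink_R, he]; ring
      have e4 : mink (ac A' x) (e j) = mink (ac A'' x) (e j) + mink (ac A'' x) (e i) := by
        rw [hAA'', mink_R, mink_comm (e j) (e i), h0]; ring
      have h5 : 0 ≤ mink (ac A'' x) (e j) := by
        apply (IH (len e he A'') (by omega) A'' hA''m rfl).1 j _ x hx
        by_contra hcon
        push Not at hcon
        have h1 : Rm (e i) (he i) * A =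
            Rm (e j) (he j) * (Rm (e i) (he i) * (Rm (e j) (he j) * A'')) := by
          rw [hAA', hAA'']
          have := braid_R (he := he) h0
          calc Rm (e i) (he i) * (Rm (e j) (he j) * (Rm (e i) (he i) * A''))
              = (Rm (e i) (he i) * (Rm (e j) (he j) * Rm (e i) (he i))) * A'' := by
                simp only [mul_assoc]
            _ = _ := by rw [this]; simp only [mul_assoc]
        have h2 := len_R_le (R_mem (R_mem hA''m j) i) j
        have h3 := len_R_le (R_mem hA''m j) i
        rw [← h1] at h2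
        omega
      rw [e3, e4]
      linarith
  · exact (S2 i j hij h0 (by omega) x hx).1

/-- Every non-trivial element of the reflection group moves the closed chamber to the other side
of some wall. -/
theorem tits (hG : ∀ i j, i ≠ j →
      mink (e i) (e j) = 0 ∨ mink (e i) (e j) = -(1 / 2) ∨ mink (e i) (e j) ≤ -1)
    {A : GG n} (hA : A ∈ RG e he) (h1 : A ≠ 1) :
    ∃ j, ∀ x ∈ Cham e, mink (ac A x) (e j) ≤ 0 := by
  have h0 : len e he A ≠ 0 := fun h => h1 (eq_one_of_len hA h)
  obtain ⟨j, hj⟩ := exists_desc hA h0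
  refine ⟨j, fun x hx => ?_⟩
  have h2 := (tits_aux hG _ _ (R_mem hA j) rfl).1 j (by rw [R_R]; omega) x hx
  have h3 := mink_R (he := he) A j j x
  rw [h3, he] at h2
  linarith

end

end Pool.Agent.H851R2
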