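import Pool.Agent.H851R2.QTits

set_option autoImplicit false

namespace Pool.Agent.H851R2

open Matrix
open Pool.Agent.Helper613.DH

variable {n : ℕ} {ι : Type}

lemma abs_mink_le {u v : Fin (n + 1) → ℝ} {U V : ℝ} (hu : ∀ i, |u i| ≤ U) (hv : ∀ i, |v i| ≤ V) :
    |mink u v| ≤ (n + 1) * (U * V) := by
  have hU : 0 ≤ U := (abs_nonneg _).trans (hu 0)
  unfold mink
  have h1 : |∑ i : Fin n, u i.castSucc * v i.castSucc| ≤ n * (U * V) := by
    calc |∑ i : Fin n, u i.castSucc * v i.castSucc|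
        ≤ ∑ i : Fin n, |u i.castSucc * v i.castSucc| := Finset.abs_sum_le_sum_abs _ _
      _ ≤ ∑ _i : Fin n, U * V := by
          apply Finset.sum_le_sum
          intro i _
          rw [abs_mul]
          exact mul_le_mul (hu _) (hv _) (abs_nonneg _) hU
      _ = n * (U * V) := by simp
  have h2 : |u (Fin.last n) * v (Fin.last n)| ≤ U * V := by
    rw [abs_mul]
    exact mul_le_mul (hu _) (hv _) (abs_nonneg _) hU
  calc |_| ≤ _ := abs_sub _ _
    _ ≤ (n + 1) * (U * V) := by linarith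

lemma abs_ac_sub_le {A : GG n} {ε Y : ℝ} (hε : 0 ≤ ε) {y : Fin (n + 1) → ℝ} (hy : ∀ i, |y i| ≤ Y)
    (h : ∀ i j, |A.1 i j - (1 : Matrix (Fin (n + 1)) (Fin (n + 1)) ℝ) i j| ≤ ε)
    (i : Fin (n + 1)) : |(y - ac A y) i| ≤ (n + 1) * (ε * Y) := by
  have h1 : (y - ac A y) i = ∑ j, ((1 : Matrix (Fin (n + 1)) (Fin (n + 1)) ℝ) i j - A.1 i j) * y j := by
    have h2 : y i = ((1 : Matrix (Fin (n + 1)) (Fin (n + 1)) ℝ) *ᵥ y) i := by
      rw [Matrix.one_mulVec]
    rw [Pi.sub_apply, h2]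
    unfold ac Matrix.mulVec dotProduct
    rw [← Finset.sum_sub_distrib]
    exact Finset.sum_congr rfl fun j _ => by ring
  rw [h1]
  calc |∑ j, ((1 : Matrix (Fin (n + 1)) (Fin (n + 1)) ℝ) i j - A.1 i j) * y j|
      ≤ ∑ j, |((1 : Matrix (Fin (n + 1)) (Fin (n + 1)) ℝ) i j - A.1 i j) * y j| :=
        Finset.abs_sum_le_sum_abs _ _
    _ ≤ ∑ _j : Fin (n + 1), ε * Y := by
        apply Finset.sum_le_sum
        intro j _
        rw [abs_mul, abs_sub_comm]
        exact mul_le_mul (h i j) (hy j) (abs_nonneg _) hε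
    _ = (n + 1) * (ε * Y) := by simp

variable {e : ι → Fin (n + 1) → ℝ} {he : ∀ i, mink (e i) (e i) = 1}

lemma iso_RG {A : GG n} (hA : A ∈ RG e he) : IsIsomHyp n A := by
  apply iso_closure _ hA
  rintro _ ⟨i, rfl⟩
  exact iso_Rm (he i)

theorem disc_RG (hG : ∀ i j, i ≠ j →
      mink (e i) (e j) = 0 ∨ mink (e i) (e j) = -(1 / 2) ∨ mink (e i) (e j) ≤ -1)
    {y : Fin (n + 1) → ℝ} {δ : ℝ} (hδ : 0 < δ) (hy : ∀ i, δ ≤ mink y (e i)) {E : ℝ}
    (hE : ∀ i k, |e i k| ≤ E) : Disc (RG e he) := by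
  set Y : ℝ := ∑ i, |y i| with hYdef
  have hY : ∀ i, |y i| ≤ Y := fun i =>
    Finset.single_le_sum (f := fun i => |y i|) (fun i _ => abs_nonneg _) (Finset.mem_univ i)
  have hY0 : 0 ≤ Y := (abs_nonneg _).trans (hY 0)
  by_cases hι : IsEmpty ι
  · have : RG e he = ⊥ := by
      unfold RG
      rw [Set.range_eq_empty, Subgroup.closure_empty]
    rw [this]
    intro R
    apply Set.Finite.subset (Set.finite_singleton 1)
    rintro A ⟨hA, _⟩
    exact Subgroup.mem_bot.1 hA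
  rw [not_isEmpty_iff] at hι
  obtain ⟨i0⟩ := hι
  have hE0 : 0 ≤ E := (abs_nonneg _).trans (hE i0 0)
  set ε : ℝ := δ / ((n + 1) * ((n + 1) * Y * E) + 1) with hεdef
  have hden : 0 < (n + 1) * ((n + 1) * Y * E) + 1 := by positivity
  have hε : 0 < ε := div_pos hδ hden
  refine disc_of_sep (fun A hA => iso_RG hA) hε ?_
  intro A hA hclose
  by_contra hne
  obtain ⟨j, hj⟩ := tits hG hA hne
  have h1 := hj y (fun i => hδ.le.trans (hy i))
  have h2 : δ ≤ mink (y - ac A y) (e j) := by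
    rw [mink_sub_left]; linarith [hy j]
  have h3 := abs_mink_le (abs_ac_sub_le hε.le hY fun i k => (hclose i k).le) (hE j)
  have h4 := (le_abs_self _).trans h3
  have h5 : (n + 1 : ℝ) * ((n + 1) * (ε * Y) * E) < δ := by
    have h6 : ε * ((n + 1) * ((n + 1) * Y * E) + 1) = δ := by rw [hεdef]; field_simp
    nlinarith
  linarith

/-- In a discrete reflection group, every point of hyperbolic space can be moved into the closed
chamber. -/
theorem exists_min_of_finite {Γ : Subgroup (GG n)} {f : GG n → ℝ}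
    (hfin : ∀ R : ℝ, (f '' {A | A ∈ Γ ∧ f A ≤ R}).Finite) :
    ∃ A ∈ Γ, ∀ B ∈ Γ, f A ≤ f B := by
  have h1 := hfin (f 1)
  have h2 : (f '' {A | A ∈ Γ ∧ f A ≤ f 1}).Nonempty := ⟨f 1, 1, ⟨Γ.one_mem, le_refl _⟩, rfl⟩
  obtain ⟨m, ⟨A, hA, rfl⟩, hm2⟩ := Set.exists_min_image _ id h1 h2
  refine ⟨A, hA.1, fun B hB => ?_⟩
  by_cases hle : f B ≤ f 1
  · exact hm2 _ ⟨B, ⟨hB, hle⟩, rfl⟩
  · push Not at hle
    exact hA.2.trans hle.le

/-- at a minimum of the pairing with an interior point, the vector lies in the closed chamber -/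
theorem mem_cham_of_min {y x : Fin (n + 1) → ℝ} (hy : ∀ i, 0 < mink y (e i))
    {A : GG n} (hA : A ∈ RG e he)
    (hmin : ∀ B ∈ RG e he, - mink (ac A x) y ≤ - mink (ac B x) y) : ac A x ∈ Cham e := by
  intro i
  have h1 := hmin _ (R_mem hA i)
  rw [ac_mul, ac_Rm, mink_sub_left, mink_smul_left, mink_comm (e i) y] at h1
  have h2 := hy i
  by_contra hcon
  push Not at hcon
  nlinarith

theorem exists_mem_cham {y : Fin (n + 1) → ℝ} (hyh : y ∈ Hyp n) (hy : ∀ i, 0 < mink y (e i))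
    (hD : Disc (RG e he)) {x : Fin (n + 1) → ℝ} (hx : x ∈ Hyp n) :
    ∃ A ∈ RG e he, ac A x ∈ Cham e := by
  obtain ⟨L, hL, hL2⟩ := dsp_le_of_timelike hx
  obtain ⟨ε, hε, hε2⟩ := exists_eps (fwd_of_hyp hyh) (by rw [hyh.1]; norm_num)
  obtain ⟨A, hA, hmin⟩ := exists_min_of_finite (Γ := RG e he) (f := fun A => - mink (ac A x) y) (by
    intro R
    apply Set.Finite.image
    refine (hD (L * (R / ε))).subset ?_
    rintro A ⟨hA, hA2⟩
    refine ⟨hA, (hL2 A (iso_RG hA)).trans (mul_le_mul_of_nonneg_left ?_ hL.le)⟩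
    rw [le_div_iff₀ hε, mul_comm]
    exact (hε2 _ (iso_fwd (iso_RG hA) (fwd_of_hyp hx))).trans hA2)
  exact ⟨A, hA, mem_cham_of_min hy hA hmin⟩

end Pool.Agent.H851R2
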